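import Mathlib
import Pool.Agent.Helper186.Weinstein
import Pool.Agent.Helper186.LMain

/-! More on cotangent bundles: translations by exact forms, nondegeneracy of the canonical
symplectic form, star-shaped neighbourhoods. -/

open scoped Topology ContDiff Manifold
open Set Metric Bundle

noncomputable section

namespace Pool.Agent.J4H58.Arn

open Pool.Agent.Helper186

set_option linter.unusedSectionVars false

universe u

variable {F : Type u} [NormedAddCommGroup F] [NormedSpace ℝ F] [FiniteDimensional ℝ F]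
  {N : Type*} [TopologicalSpace N] [ChartedSpace F N] [IsManifold 𝓘(ℝ, F) ∞ N]
  {L : Type*} [TopologicalSpace L] [ChartedSpace F L] [IsManifold 𝓘(ℝ, F) ∞ L]

/-! ### Translations -/

/-- Translation of the fibres by the differential of the function `S`. -/
def transl (S : N → ℝ) (ξ : Cotangent F N) : Cotangent F N :=
  ⟨ξ.1, ξ.2 + dForm 𝓘(ℝ, F) S ξ.1⟩

lemma contMDiff_transl {S : N → ℝ} (hS : ContMDiff 𝓘(ℝ, F) 𝓘(ℝ, ℝ) ∞ S) :
    ContMDiff (IC F) (IC F) ∞ (transl S : Cotangent F N → Cotangent F N) := by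
  intro ξ
  refine contMDiffAt_cot_of_pairing (b := fun ξ : Cotangent F N => ξ.1)
    (θ := fun ξ => ξ.2 + dForm 𝓘(ℝ, F) S ξ.1) (contMDiff_projC ξ) ?_
  intro v hv
  have h1 := contMDiffAt_cot_pairing (J := IC F) (f := fun ξ : Cotangent F N => ξ)
    (v := v) contMDiffAt_id hv
  have h2 : ContMDiffAt (IC F) 𝓘(ℝ, ℝ) ∞
      (fun ξ : Cotangent F N => dForm 𝓘(ℝ, F) S ξ.1 (v ξ)) ξ :=
    SmoothForm.comp (smoothForm_dForm hS) hv le_rfl
  exact h1.add h2

lemma dForm_neg_apply (S : N → ℝ) (q : N) :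
    dForm 𝓘(ℝ, F) (fun q => - S q) q = - dForm 𝓘(ℝ, F) S q := by
  have h := mfderiv_neg (I := 𝓘(ℝ, F)) (f := S) (x := q)
  exact h

lemma transl_neg_transl {S : N → ℝ} (ξ : Cotangent F N) :
    transl (fun q => - S q) (transl S ξ) = ξ := by
  have h1 : (ξ.2 + dForm 𝓘(ℝ, F) S ξ.1) + dForm 𝓘(ℝ, F) (fun q => - S q) ξ.1 = ξ.2 := by
    rw [dForm_neg_apply]
    exact add_neg_cancel_right _ _
  exact congrArg (TotalSpace.mk ξ.1) h1

lemma transl_transl_neg {S : N → ℝ} (ξ : Cotangent F N) :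
    transl S (transl (fun q => - S q) ξ) = ξ := by
  have h1 : (ξ.2 + dForm 𝓘(ℝ, F) (fun q => - S q) ξ.1) + dForm 𝓘(ℝ, F) S ξ.1 = ξ.2 := by
    rw [dForm_neg_apply]
    exact neg_add_cancel_right _ _
  exact congrArg (TotalSpace.mk ξ.1) h1

/-- Translation as a diffeomorphism. -/
def translD {S : N → ℝ} (hS : ContMDiff 𝓘(ℝ, F) 𝓘(ℝ, ℝ) ∞ S) :
    Diffeomorph (IC F) (IC F) (Cotangent F N) (Cotangent F N) ∞ where
  toFun := transl S
  invFun := transl (fun q => - S q)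
  left_inv := transl_neg_transl
  right_inv := transl_transl_neg
  contMDiff_toFun := contMDiff_transl hS
  contMDiff_invFun := contMDiff_transl hS.neg

lemma PB_transl {S : N → ℝ} (hS : ContMDiff 𝓘(ℝ, F) 𝓘(ℝ, ℝ) ∞ S) (ξ : Cotangent F N) :
    PB canForm canForm (transl S) 1 (fun ξ : Cotangent F N => S ξ.1) ξ := by
  intro u
  have h1 := DFunLike.congr_fun (mfderiv_comp (I := IC F) (I' := IC F) (I'' := 𝓘(ℝ, F)) ξ
    (contMDiff_projC.mdifferentiableAt (by simp) (x := transl S ξ))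
    ((contMDiff_transl hS).mdifferentiableAt (by simp) (x := ξ))) u
  have h2 : ((TotalSpace.proj : Cotangent F N → N) ∘ transl S) = TotalSpace.proj := rfl
  rw [h2] at h1
  have h3 : canForm (transl S ξ) (mfderiv (IC F) (IC F) (transl S) ξ u) =
    (ξ.2 + dForm 𝓘(ℝ, F) S ξ.1)
      (mfderiv (IC F) 𝓘(ℝ, F) (TotalSpace.proj : Cotangent F N → N) ξ u) :=
    congrArg (ξ.2 + dForm 𝓘(ℝ, F) S ξ.1) h1.symm
  have h4 := DFunLike.congr_fun (mfderiv_comp (I := IC F) (I' := 𝓘(ℝ, F)) (I'' := 𝓘(ℝ, ℝ)) ξ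
    (hS.mdifferentiableAt (by simp) (x := ξ.1))
    (contMDiff_projC.mdifferentiableAt (by simp) (x := ξ))) u
  rw [h3, one_mul]
  exact congrArg₂ (fun a b : ℝ => a + b) rfl h4.symm

/-! ### Nondegeneracy -/

lemma extDer_anti (α : (ξ : Cotangent F N) → TangentSpace (IC F) ξ →L[ℝ] ℝ) {ξ : Cotangent F N}
    (a b : TangentSpace (IC F) ξ) : extDer (IC F) α ξ a b = - extDer (IC F) α ξ b a := by
  unfold extDer
  ring

lemma nondeg_zeroC (q : N) (u : TangentSpace (IC F) (zeroC q : Cotangent F N))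
    (hu : ∀ v, extDer (IC F) (canForm : (ξ : Cotangent F N) → _) (zeroC q) u v = 0) : u = 0 := by
  obtain ⟨a, p, rfl⟩ := exists_hor_vert q u
  have hadd : ∀ x y z : TangentSpace (IC F) (zeroC q : Cotangent F N),
      extDer (IC F) (canForm : (ξ : Cotangent F N) → _) (zeroC q) (x + y) z =
      extDer (IC F) (canForm : (ξ : Cotangent F N) → _) (zeroC q) x z +
      extDer (IC F) (canForm : (ξ : Cotangent F N) → _) (zeroC q) y z := by
    intro x y z
    have h : extDerL (IC F) (canForm : (ξ : Cotangent F N) → _) (zeroC q) (x + y) z =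
      extDerL (IC F) (canForm : (ξ : Cotangent F N) → _) (zeroC q) x z +
      extDerL (IC F) (canForm : (ξ : Cotangent F N) → _) (zeroC q) y z := by
      rw [map_add]; rfl
    exact h
  have h1 : p = 0 := by
    refine ContinuousLinearMap.ext fun b => ?_
    have h2 := hu (horV q b)
    rw [hadd, extDer_hor_hor, extDer_vert_hor, zero_add] at h2
    exact h2
  have h2 : (vertV q p : TangentSpace (IC F) (zeroC q : Cotangent F N)) = 0 := by
    rw [h1]; exact map_zero _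
  have h3 : (a : F) = 0 := by
    by_contra ha
    obtain ⟨p', hp'⟩ : ∃ p' : F →L[ℝ] ℝ, p' a ≠ 0 :=
      SeparatingDual.exists_ne_zero (R := ℝ) (V := F) ha
    have h4 := hu (vertV q p')
    rw [h2, add_zero, extDer_anti, extDer_vert_hor] at h4
    exact hp' (neg_eq_zero.1 h4)
  rw [h2, add_zero]
  have h4 : (horV q (0:F) : TangentSpace (IC F) (zeroC q : Cotangent F N)) = 0 := map_zero _
  have h5 : a = (0 : F) := h3
  rw [h5]
  exact h4

/-- A smooth function with prescribed differential at a point. -/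
lemma exists_fun_dForm [T2Space N] (q : N) (p : TangentSpace 𝓘(ℝ, F) q →L[ℝ] ℝ) :
    ∃ S : N → ℝ, ContMDiff 𝓘(ℝ, F) 𝓘(ℝ, ℝ) ∞ S ∧ dForm 𝓘(ℝ, F) S q = p := by
  obtain ⟨g, hg, hgi⟩ := exists_local_coord (I := 𝓘(ℝ, F)) q
  have hinj : Function.Injective (show F →L[ℝ] F from mfderiv 𝓘(ℝ, F) 𝓘(ℝ, F) g q) :=
    hgi.self_of_nhds
  let l : F ≃ₗ[ℝ] F := LinearEquiv.ofInjectiveEndo
    ((show F →L[ℝ] F from mfderiv 𝓘(ℝ, F) 𝓘(ℝ, F) g q) : F →ₗ[ℝ] F) hinj
  let A : F ≃L[ℝ] F := l.toContinuousLinearEquiv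
  have hA : ∀ v, A v = (show F →L[ℝ] F from mfderiv 𝓘(ℝ, F) 𝓘(ℝ, F) g q) v := fun v => rfl
  let ℓ : F →L[ℝ] ℝ := (show F →L[ℝ] ℝ from p).comp (A.symm : F →L[ℝ] F)
  refine ⟨fun x => ℓ (g x), ℓ.contMDiff.comp hg, ?_⟩
  refine ContinuousLinearMap.ext fun v => ?_
  have h1 := DFunLike.congr_fun (mfderiv_comp (I := 𝓘(ℝ, F)) (I' := 𝓘(ℝ, F)) (I'' := 𝓘(ℝ, ℝ)) q
    ((ℓ.contMDiff (n := ∞)).mdifferentiableAt (by simp) (x := g q))
    (hg.mdifferentiableAt (by simp))) v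
  refine h1.trans ?_
  have h2 : mfderiv 𝓘(ℝ, F) 𝓘(ℝ, ℝ) ℓ (g q) = ℓ := by
    rw [mfderiv_eq_fderiv]; exact ℓ.fderiv
  have h3 := DFunLike.congr_fun h2 ((show F →L[ℝ] F from mfderiv 𝓘(ℝ, F) 𝓘(ℝ, F) g q) v)
  refine h3.trans ?_
  show p (A.symm (A v)) = p v
  rw [A.symm_apply_apply]

/-- The canonical symplectic form is nondegenerate. -/
theorem nondeg_canForm [T2Space N] (ξ : Cotangent F N) (u : TangentSpace (IC F) ξ)
    (hu : ∀ v, extDer (IC F) (canForm : (ξ : Cotangent F N) → _) ξ u v = 0) : u = 0 := by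
  obtain ⟨S, hS, hSq⟩ := exists_fun_dForm (F := F) ξ.1 ξ.2
  -- `τ` takes `ξ` to the zero section
  have hSn : ContMDiff 𝓘(ℝ, F) 𝓘(ℝ, ℝ) ∞ (fun q => - S q) := hS.neg
  set τ : Cotangent F N → Cotangent F N := transl (fun q => - S q) with hτ
  set σ : Cotangent F N → Cotangent F N := transl S with hσ
  have hτs : ContMDiff (IC F) (IC F) ∞ τ := contMDiff_transl hSn
  have hσs : ContMDiff (IC F) (IC F) ∞ σ := contMDiff_transl hS
  have hτσ : ∀ η, τ (σ η) = η := transl_neg_transl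
  have hστ : ∀ η, σ (τ η) = η := transl_transl_neg
  have hτξ : τ ξ = zeroC ξ.1 := by
    have h1 : ξ.2 + dForm 𝓘(ℝ, F) (fun q => - S q) ξ.1 = 0 := by
      rw [dForm_neg_apply, hSq]
      exact add_neg_cancel _
    exact congrArg (TotalSpace.mk ξ.1) h1
  -- pull back of the canonical form by `τ`
  have hpf : pullForm (IC F) (IC F) τ (canForm : (ξ : Cotangent F N) → _) =
      fun η => canForm η + dForm (IC F) (fun η : Cotangent F N => - S η.1) η := by
    ext1 η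
    refine ContinuousLinearMap.ext fun v => ?_
    have h1 := PB_transl hSn η v
    rw [one_mul] at h1
    exact h1
  have hSp : ContMDiff (IC F) 𝓘(ℝ, ℝ) ∞ (fun η : Cotangent F N => - S η.1) :=
    hSn.comp contMDiff_projC
  have hext : ∀ (η : Cotangent F N) (a b : TangentSpace (IC F) η),
      extDer (IC F) (canForm : (ξ : Cotangent F N) → _) (τ η)
        (mfderiv (IC F) (IC F) τ η a) (mfderiv (IC F) (IC F) τ η b) =
      extDer (IC F) (canForm : (ξ : Cotangent F N) → _) η a b := by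
    intro η a b
    rw [← extDer_pull hτs smoothForm_canForm, hpf,
      extDer_add smoothForm_canForm (smoothForm_dForm hSp), extDer_dForm hSp, add_zero]
  -- the derivative of `τ` is invertible
  have hd1 : ∀ a : TangentSpace (IC F) ξ,
      (show F × (F →L[ℝ] ℝ) from mfderiv (IC F) (IC F) σ (τ ξ) (mfderiv (IC F) (IC F) τ ξ a)) =
        a := by
    intro a
    have h1 := DFunLike.congr_fun (mfderiv_comp (I := IC F) (I' := IC F) (I'' := IC F) ξ
      (hσs.mdifferentiableAt (by simp) (x := τ ξ)) (hτs.mdifferentiableAt (by simp))) a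
    have h2 : σ ∘ τ = id := by ext1 η; exact hστ η
    rw [h2, mfderiv_id] at h1
    exact h1.symm
  have hsurj : ∀ b : TangentSpace (IC F) (τ ξ), ∃ a : TangentSpace (IC F) ξ,
      mfderiv (IC F) (IC F) τ ξ a = b := by
    intro b
    let A : F × (F →L[ℝ] ℝ) →ₗ[ℝ] F × (F →L[ℝ] ℝ) :=
      ((show F × (F →L[ℝ] ℝ) →L[ℝ] F × (F →L[ℝ] ℝ) from mfderiv (IC F) (IC F) τ ξ) :
        F × (F →L[ℝ] ℝ) →ₗ[ℝ] F × (F →L[ℝ] ℝ))
    have hA : Function.Injective A := by
      intro a a' h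
      have h1 := hd1 a
      have h2 := hd1 a'
      have h3 : mfderiv (IC F) (IC F) τ ξ a = mfderiv (IC F) (IC F) τ ξ a' := h
      rw [h3] at h1
      exact h1.symm.trans h2
    exact LinearMap.injective_iff_surjective.1 hA b
  have h1 : mfderiv (IC F) (IC F) τ ξ u = 0 := by
    have key : ∀ (z : Cotangent F N), z = zeroC ξ.1 → ∀ a : F × (F →L[ℝ] ℝ),
        (∀ b : F × (F →L[ℝ] ℝ), extDer (IC F) (canForm : (ξ : Cotangent F N) → _) z a b = 0) →
        a = 0 := by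
      rintro z rfl a ha
      exact nondeg_zeroC ξ.1 a ha
    refine key _ hτξ _ ?_
    intro b
    obtain ⟨a, rfl⟩ := hsurj b
    rw [hext]
    exact hu a
  have h2 := hd1 u
  rw [h1] at h2
  exact h2.symm.trans (map_zero (mfderiv (IC F) (IC F) σ (τ ξ)))

/-! ### Star-shaped sets -/

/-- Star-shaped compact neighbourhoods. -/
lemma exists_starshaped' {U C : Set (Cotangent F L)} (hU : IsOpen U) (hC : IsCompact C)
    (hCs : ∀ s ∈ Icc (0:ℝ) 1, MapsTo (scal s) C C) (hCU : C ⊆ U) :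
    ∃ Q : Set (Cotangent F L), IsCompact Q ∧ Q ⊆ U ∧ C ⊆ interior Q ∧
      ∀ s ∈ Icc (0:ℝ) 1, MapsTo (scal s) Q Q := by
  have hV : IsOpen {p : ℝ × Cotangent F L | scal p.1 p.2 ∈ U} := hU.preimage continuous_scal
  obtain ⟨u, v, hu, hv, h1, h2, h3⟩ := generalized_tube_lemma
    (isCompact_Icc (a := (0:ℝ)) (b := 1)) hC hV (by
      rintro ⟨s, ξ⟩ ⟨hs, hξ⟩
      exact hCU (hCs s hs hξ))
  obtain ⟨Q', hQ', h4, h5⟩ := exists_compact_between hC hv h2
  refine ⟨(fun p : ℝ × Cotangent F L => scal p.1 p.2) '' (Icc (0:ℝ) 1 ×ˢ Q'),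
    (isCompact_Icc.prod hQ').image continuous_scal, ?_, ?_, ?_⟩
  · rintro _ ⟨p, hp, rfl⟩
    exact h3 ⟨h1 hp.1, h5 hp.2⟩
  · refine h4.trans (interior_mono ?_)
    intro ξ hξ
    exact ⟨(1, ξ), ⟨⟨zero_le_one, le_rfl⟩, hξ⟩, scal_one ξ⟩
  · rintro s hs _ ⟨⟨t, ξ⟩, ⟨ht, hξ⟩, rfl⟩
    refine ⟨(s * t, ξ), ⟨⟨mul_nonneg hs.1 ht.1, mul_le_one₀ hs.2 ht.1 ht.2⟩, hξ⟩, ?_⟩
    exact (scal_scal s t ξ).symm

/-- The star hull of a compact set. -/
lemma starHull_compact {C : Set (Cotangent F L)} (hC : IsCompact C) :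
    IsCompact ((fun p : ℝ × Cotangent F L => scal p.1 p.2) '' (Icc (0:ℝ) 1 ×ˢ C)) :=
  (isCompact_Icc.prod hC).image continuous_scal

lemma starHull_star {C : Set (Cotangent F L)} (s : ℝ) (hs : s ∈ Icc (0:ℝ) 1) :
    MapsTo (scal s) ((fun p : ℝ × Cotangent F L => scal p.1 p.2) '' (Icc (0:ℝ) 1 ×ˢ C))
      ((fun p : ℝ × Cotangent F L => scal p.1 p.2) '' (Icc (0:ℝ) 1 ×ˢ C)) := by
  rintro _ ⟨⟨t, ξ⟩, ⟨ht, hξ⟩, rfl⟩
  exact ⟨(s * t, ξ), ⟨⟨mul_nonneg hs.1 ht.1, mul_le_one₀ hs.2 ht.1 ht.2⟩, hξ⟩,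
    (scal_scal s t ξ).symm⟩

lemma subset_starHull {C : Set (Cotangent F L)} :
    C ⊆ (fun p : ℝ × Cotangent F L => scal p.1 p.2) '' (Icc (0:ℝ) 1 ×ˢ C) :=
  fun ξ hξ => ⟨(1, ξ), ⟨⟨zero_le_one, le_rfl⟩, hξ⟩, scal_one ξ⟩

/-- Scaling by a nonzero number as a diffeomorphism. -/
def scalD (r : ℝ) (hr : r ≠ 0) :
    Diffeomorph (IC F) (IC F) (Cotangent F L) (Cotangent F L) ∞ where
  toFun := scal r
  invFun := scal r⁻¹
  left_inv := fun ξ => by rw [scal_scal, inv_mul_cancel₀ hr, scal_one]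
  right_inv := fun ξ => by rw [scal_scal, mul_inv_cancel₀ hr, scal_one]
  contMDiff_toFun := contMDiff_scal_slice r
  contMDiff_invFun := contMDiff_scal_slice r⁻¹

/-- The interior of a star-shaped set containing the zero section in its interior is
star-shaped. -/
lemma interior_star {Q : Set (Cotangent F L)} (hQ : ∀ s ∈ Icc (0:ℝ) 1, MapsTo (scal s) Q Q)
    (h0 : ∀ q, zeroC q ∈ interior Q) (s : ℝ) (hs : s ∈ Icc (0:ℝ) 1) :
    MapsTo (scal s) (interior Q) (interior Q) := by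
  rcases eq_or_lt_of_le hs.1 with h | h
  · intro ξ _
    rw [← h, scal_zero]
    exact h0 _
  · have h1 : (scal s : Cotangent F L → Cotangent F L) '' interior Q ⊆ interior Q := by
      apply interior_maximal
      · exact (image_mono interior_subset).trans (hQ s hs).image_subset
      · exact (scalD s h.ne').toHomeomorph.isOpenMap _ isOpen_interior
    intro x hx
    exact h1 (mem_image_of_mem _ hx)

end Pool.Agent.J4H58.Arn
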