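import Mathlib
import Pool.Agent.J4H58.Arn.Cot2

/-! Global linear coordinates on the fibres of the cotangent bundle of a closed manifold. -/

open scoped Topology ContDiff Manifold
open Set Metric Bundle

noncomputable section

namespace Pool.Agent.J4H58.Arn

open Pool.Agent.Helper186

set_option linter.unusedSectionVars false
set_option maxHeartbeats 400000

universe u

variable {F : Type u} [NormedAddCommGroup F] [NormedSpace ℝ F] [FiniteDimensional ℝ F]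
  {N : Type*} [TopologicalSpace N] [ChartedSpace F N] [IsManifold 𝓘(ℝ, F) ∞ N]

/-- A frame: functions `e` and vector fields `v` with `∑ de_k(u) v_k = u`. -/
structure Frame (m : ℕ) (e : Fin m → N → ℝ) (v : Fin m → (q : N) → TangentSpace 𝓘(ℝ, F) q) :
    Prop where
  smooth_e : ∀ k, ContMDiff 𝓘(ℝ, F) 𝓘(ℝ, ℝ) ∞ (e k)
  smooth_v : ∀ k, ContMDiff 𝓘(ℝ, F) 𝓘(ℝ, F).tangent ∞
    (fun q => (⟨q, v k q⟩ : TangentBundle 𝓘(ℝ, F) N))
  sum : ∀ (q : N) (u : TangentSpace 𝓘(ℝ, F) q), ∑ k, (dForm 𝓘(ℝ, F) (e k) q u) • v k q = u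

lemma exists_frame [T2Space N] [CompactSpace N] :
    ∃ (m : ℕ) (e : Fin m → N → ℝ) (v : Fin m → (q : N) → TangentSpace 𝓘(ℝ, F) q),
      Frame (F := F) m e v := by
  obtain ⟨m, e, he, hinj⟩ := exists_functions 𝓘(ℝ, F) (isCompact_univ (X := N))
  obtain ⟨v, hv, hsum⟩ := exists_dual_fields he (m := m) (fun q u hu => hinj q (mem_univ _) u hu)
  refine ⟨m, fun k => e k, fun k => v k, fun k => he k, fun k => hv k, fun q u => ?_⟩
  have h := hsum q u
  rw [Finset.sum_range] at h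
  exact h

variable {m : ℕ} {e : Fin m → N → ℝ} {v : Fin m → (q : N) → TangentSpace 𝓘(ℝ, F) q}

/-- Coordinates of a covector. -/
def cc (v : Fin m → (q : N) → TangentSpace 𝓘(ℝ, F) q) (ξ : Cotangent F N) : Fin m → ℝ :=
  fun k => ξ.2 (v k ξ.1)

/-- The covector with given coordinates. -/
def rr (F : Type u) [NormedAddCommGroup F] [NormedSpace ℝ F] {N : Type*} [TopologicalSpace N]
    [ChartedSpace F N] {m : ℕ} (e : Fin m → N → ℝ) (q : N) (a : Fin m → ℝ) :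
    TangentSpace 𝓘(ℝ, F) q →L[ℝ] ℝ :=
  ∑ k, a k • dForm 𝓘(ℝ, F) (e k) q

lemma rr_apply (q : N) (a : Fin m → ℝ) (u : TangentSpace 𝓘(ℝ, F) q) :
    rr F e q a u = ∑ k, a k * dForm 𝓘(ℝ, F) (e k) q u := by
  unfold rr
  rw [sum_apply]
  rfl

lemma rr_add (q : N) (a b : Fin m → ℝ) : rr F e q (a + b) = rr F e q a + rr F e q b := by
  refine ContinuousLinearMap.ext fun u => ?_
  have h : (rr F e q a + rr F e q b) u = rr F e q a u + rr F e q b u := rfl
  rw [h, rr_apply, rr_apply, rr_apply, ← Finset.sum_add_distrib]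
  exact Finset.sum_congr rfl fun k _ => by rw [Pi.add_apply]; ring

lemma rr_smul (q : N) (c : ℝ) (a : Fin m → ℝ) : rr F e q (c • a) = c • rr F e q a := by
  refine ContinuousLinearMap.ext fun u => ?_
  have h : (c • rr F e q a) u = c * rr F e q a u := rfl
  rw [h, rr_apply, rr_apply, Finset.mul_sum]
  exact Finset.sum_congr rfl fun k _ => by rw [Pi.smul_apply, smul_eq_mul]; ring

lemma rr_sum {ι : Type*} (q : N) (s : Finset ι) (a : ι → Fin m → ℝ) :
    rr F e q (∑ i ∈ s, a i) = ∑ i ∈ s, rr F e q (a i) := by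
  classical
  induction s using Finset.induction_on with
  | empty =>
    simp only [Finset.sum_empty]
    refine ContinuousLinearMap.ext fun u => ?_
    rw [rr_apply]
    have h : (0 : TangentSpace 𝓘(ℝ, F) q →L[ℝ] ℝ) u = 0 := rfl
    rw [h]
    exact Finset.sum_eq_zero fun k _ => by rw [Pi.zero_apply, zero_mul]
  | insert i s hi ih => rw [Finset.sum_insert hi, Finset.sum_insert hi, rr_add, ih]

lemma Frame.rr_cc (h : Frame (F := F) m e v) (ξ : Cotangent F N) :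
    rr F e ξ.1 (cc v ξ) = ξ.2 := by
  refine ContinuousLinearMap.ext fun u => ?_
  rw [rr_apply]
  have h1 := congrArg (fun u : TangentSpace 𝓘(ℝ, F) ξ.1 => ξ.2 u) (h.sum ξ.1 u)
  have h2 : ξ.2 (∑ k, (dForm 𝓘(ℝ, F) (e k) ξ.1 u) • v k ξ.1) =
      ∑ k, ξ.2 ((dForm 𝓘(ℝ, F) (e k) ξ.1 u) • v k ξ.1) := map_sum _ _ _
  have h3 : ξ.2 (∑ k, (dForm 𝓘(ℝ, F) (e k) ξ.1 u) • v k ξ.1) = ξ.2 u := h1
  rw [← h3, h2]
  refine Finset.sum_congr rfl fun k _ => ?_
  have h4 : ξ.2 ((dForm 𝓘(ℝ, F) (e k) ξ.1 u) • v k ξ.1) =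
    (dForm 𝓘(ℝ, F) (e k) ξ.1 u) • ξ.2 (v k ξ.1) := map_smul _ _ _
  rw [h4, smul_eq_mul, mul_comm]
  rfl

lemma Frame.continuous_cc (h : Frame (F := F) m e v) :
    Continuous (cc v : Cotangent F N → Fin m → ℝ) :=
  continuous_pi fun k => (contMDiff_cfun (h.smooth_v k)).continuous

lemma continuous_rr (he : ∀ k, ContMDiff 𝓘(ℝ, F) 𝓘(ℝ, ℝ) ∞ (e k)) :
    Continuous (fun p : N × (Fin m → ℝ) => (⟨p.1, rr F e p.1 p.2⟩ : Cotangent F N)) := by
  have h : ContMDiff (𝓘(ℝ, F).prod 𝓘(ℝ, Fin m → ℝ)) (IC F) ∞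
      (fun p : N × (Fin m → ℝ) => (⟨p.1, rr F e p.1 p.2⟩ : Cotangent F N)) := by
    intro p
    refine contMDiffAt_cot_of_pairing (b := fun p : N × (Fin m → ℝ) => p.1)
      (θ := fun p => rr F e p.1 p.2) contMDiffAt_fst ?_
    intro w hw
    have h1 : (fun p : N × (Fin m → ℝ) => rr F e p.1 p.2 (w p)) =
        fun p => ∑ k, p.2 k * dForm 𝓘(ℝ, F) (e k) p.1 (w p) := by
      ext1 p
      exact rr_apply p.1 p.2 (w p)
    rw [h1]
    apply ContMDiffAt.sum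
    intro k _
    have h2 : ContMDiffAt (𝓘(ℝ, F).prod 𝓘(ℝ, Fin m → ℝ)) 𝓘(ℝ, ℝ) ∞
        (fun p : N × (Fin m → ℝ) => dForm 𝓘(ℝ, F) (e k) p.1 (w p)) p :=
      SmoothForm.comp (smoothForm_dForm (he k)) hw le_rfl
    have h3 : ContMDiffAt (𝓘(ℝ, F).prod 𝓘(ℝ, Fin m → ℝ)) 𝓘(ℝ, ℝ) ∞
        (fun p : N × (Fin m → ℝ) => p.2 k) p :=
      ((ContinuousLinearMap.proj (R := ℝ) (φ := fun _ : Fin m => ℝ) k).contMDiff _).comp p
        contMDiffAt_snd
    exact h3.mul h2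
  exact h.continuous

end Pool.Agent.J4H58.Arn
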