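import Mathlib

/-! Mollification with one-sided derivative bounds. -/

open scoped Topology ContDiff Convolution
open Set Metric MeasureTheory Filter

noncomputable section

namespace Pool.Agent.J4H58.Arn

set_option linter.unusedSectionVars false
set_option maxHeartbeats 400000

variable {F : Type*} [NormedAddCommGroup F] [NormedSpace ℝ F] [FiniteDimensional ℝ F]
  [MeasurableSpace F] [BorelSpace F] (μ : Measure F) [μ.IsAddHaarMeasure]

include μ in
theorem mollify {T : F → ℝ} (hT : Continuous T) {δ : ℝ} (hδ : 0 < δ) :
    ∃ s : F → ℝ, ContDiff ℝ ∞ s ∧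
      (∀ x ε, (∀ y ∈ ball x δ, |T y - T x| ≤ ε) → |s x - T x| ≤ ε) ∧
      ∀ (x w : F) (C τ : ℝ), 0 < τ →
        (∀ y ∈ ball x δ, ∀ t ∈ Ioo 0 τ, T (y + t • w) - T y ≤ C * t) → fderiv ℝ s x w ≤ C := by
  let φ : ContDiffBump (0 : F) := ⟨δ / 2, δ, by positivity, by linarith⟩
  set s : F → ℝ := (φ.normed μ) ⋆[ContinuousLinearMap.lsmul ℝ ℝ, μ] T with hs
  have hsm : ContDiff ℝ ∞ s :=
    φ.hasCompactSupport_normed.contDiff_convolution_left _ φ.contDiff_normed
      hT.locallyIntegrable
  have hint : ∀ x, Integrable (fun y => φ.normed μ y * T (x - y)) μ := by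
    intro x
    apply Continuous.integrable_of_hasCompactSupport
    · exact φ.continuous_normed.mul (hT.comp (by fun_prop))
    · exact φ.hasCompactSupport_normed.mul_right
  have hval : ∀ x, s x = ∫ y, φ.normed μ y * T (x - y) ∂μ := fun x => rfl
  refine ⟨s, hsm, ?_, ?_⟩
  · intro x ε h
    have h1 := φ.dist_normed_convolution_le (μ := μ) (x₀ := x) (ε := ε) (g := T)
      hT.aestronglyMeasurable (by
        intro y hy
        rw [Real.dist_eq]
        exact h y hy)
    rwa [Real.dist_eq] at h1
  · intro x w C τ hτ h
    have hineq : ∀ t ∈ Ioo 0 τ, s (x + t • w) - s x ≤ C * t := by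
      intro t ht
      rw [hval, hval, ← integral_sub (hint _) (hint _)]
      have h1 : ∫ y, φ.normed μ y * T (x + t • w - y) - φ.normed μ y * T (x - y) ∂μ ≤
          ∫ y, φ.normed μ y * (C * t) ∂μ := by
        apply integral_mono ((hint _).sub (hint _)) (φ.integrable_normed.mul_const _)
        intro y
        show φ.normed μ y * T (x + t • w - y) - φ.normed μ y * T (x - y) ≤
          φ.normed μ y * (C * t)
        rw [← mul_sub]
        rcases eq_or_ne (φ.normed μ y) 0 with h0 | h0
        · rw [h0, zero_mul, zero_mul]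
        · apply mul_le_mul_of_nonneg_left _ (φ.nonneg_normed y)
          have hy : y ∈ Function.support (φ.normed μ) := h0
          rw [φ.support_normed_eq, mem_ball_zero_iff] at hy
          have h2 := h (x - y) (by
            rw [mem_ball, dist_eq_norm]
            have h3 : x - y - x = -y := by abel
            rw [h3, norm_neg]
            exact hy) t ht
          have h3 : x + t • w - y = x - y + t • w := by abel
          rw [h3]
          exact h2
      refine h1.trans (le_of_eq ?_)
      rw [integral_mul_const, φ.integral_normed, one_mul]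
    have hd : HasDerivAt (fun t : ℝ => s (x + t • w)) (fderiv ℝ s x w) 0 := by
      have h5 : HasDerivAt (fun t : ℝ => x + t • w) w 0 := by
        have h6 := (hasDerivAt_id (0:ℝ)).smul_const w
        simpa using h6.const_add x
      have h7 : HasFDerivAt s (fderiv ℝ s x) (x + (0:ℝ) • w) := by
        rw [zero_smul, add_zero]
        exact (hsm.contDiffAt.differentiableAt (by simp)).hasFDerivAt
      exact h7.comp_hasDerivAt 0 h5
    have h1 : Tendsto (slope (fun t : ℝ => s (x + t • w)) 0) (𝓝[>] 0) (𝓝 (fderiv ℝ s x w)) :=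
      (hasDerivAt_iff_tendsto_slope.1 hd).mono_left
        (nhdsWithin_mono _ fun r hr => ne_of_gt hr)
    refine le_of_tendsto h1 ?_
    filter_upwards [Ioo_mem_nhdsGT hτ] with t ht
    rw [slope_def_field]
    have h2 := hineq t ht
    rw [zero_smul, add_zero, sub_zero, div_le_iff₀ ht.1]
    exact h2

end Pool.Agent.J4H58.Arn
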