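import Mathlib
import Pool.Agent.Helper186.LocDiffeo
import Pool.Agent.Helper186.Tube

/-! Sard type arguments on almost every line. -/

open scoped Topology ContDiff Manifold
open Set Metric Bundle MeasureTheory Filter

noncomputable section

namespace Pool.Agent.J4H58.Arn

open Pool.Agent.Helper186

set_option linter.unusedSectionVars false
set_option maxHeartbeats 400000

/-- A one-dimensional monotonicity lemma: nonpositive derivative outside of a set with null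
image. -/
theorem le_of_null_image {T : ℝ → ℝ} {a b : ℝ} (hab : a ≤ b) (hT : ContinuousOn T (Icc a b))
    {Z : Set ℝ} (hZ : volume (T '' (Z ∩ Icc a b)) = 0)
    (hd : ∀ t ∈ Ioo a b, t ∉ Z → ∃ d ≤ (0:ℝ), HasDerivAt T d t) : T b ≤ T a := by
  by_contra hlt
  rw [not_le] at hlt
  set D : Set ℝ := {t | HasDerivAt T 0 t} with hD
  have hDnull : volume (T '' D) = 0 := by
    refine addHaar_image_eq_zero_of_det_fderivWithin_eq_zero volume
      (f' := fun _ => (0 : ℝ →L[ℝ] ℝ)) ?_ ?_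
    · intro x hx
      have h1 : HasDerivAt T 0 x := hx
      have h2 := h1.hasFDerivAt
      have h3 : ContinuousLinearMap.toSpanSingleton ℝ (0:ℝ) = (0 : ℝ →L[ℝ] ℝ) := by
        ext; simp
      rw [h3] at h2
      exact h2.hasFDerivWithinAt
    · intro x hx
      have h1 : (0 : ℝ →L[ℝ] ℝ).det = LinearMap.det (0 : ℝ →ₗ[ℝ] ℝ) := rfl
      rw [h1]
      simp
  have hsub : Ioo (T a) (T b) ⊆ T '' (Z ∩ Icc a b) ∪ T '' D := by
    rintro s ⟨hs1, hs2⟩
    set K : Set ℝ := {t ∈ Icc a b | T t ≤ s} with hK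
    have hKc : IsCompact K := by
      have h1 : IsClosed K := hT.preimage_isClosed_of_isClosed isClosed_Icc isClosed_Iic
      exact isCompact_Icc.of_isClosed_subset h1 (fun t ht => ht.1)
    have hKne : K.Nonempty := ⟨a, ⟨le_rfl, hab⟩, hs1.le⟩
    obtain ⟨t, ⟨htI, hts⟩, htmax⟩ := hKc.exists_isGreatest hKne
    have htb : t < b := by
      rcases eq_or_lt_of_le htI.2 with h | h
      · rw [h] at hts; linarith
      · exact h
    have hgt : ∀ r ∈ Ioc t b, s < T r := by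
      intro r hr
      by_contra h
      rw [not_lt] at h
      have := htmax (show r ∈ K from ⟨⟨htI.1.trans hr.1.le, hr.2⟩, h⟩)
      linarith [hr.1]
    have hTt : T t = s := by
      refine le_antisymm hts ?_
      have h1 : Tendsto T (𝓝[Ioc t b] t) (𝓝 (T t)) :=
        (hT t htI).mono_left (nhdsWithin_mono _ fun r hr => ⟨htI.1.trans hr.1.le, hr.2⟩)
      have h2 : (𝓝[Ioc t b] t).NeBot := by
        rw [nhdsWithin_Ioc_eq_nhdsGT htb]; infer_instance
      exact ge_of_tendsto h1 (by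
        filter_upwards [self_mem_nhdsWithin] with r hr
        exact (hgt r hr).le)
    have hat : a < t := by
      rcases eq_or_lt_of_le htI.1 with h | h
      · rw [← h] at hTt; linarith
      · exact h
    by_cases htZ : t ∈ Z
    · exact Or.inl ⟨t, ⟨htZ, htI⟩, hTt⟩
    · obtain ⟨d, hd0, hdT⟩ := hd t ⟨hat, htb⟩ htZ
      have hd1 : 0 ≤ d := by
        have h1 : Tendsto (slope T t) (𝓝[>] t) (𝓝 d) :=
          (hasDerivAt_iff_tendsto_slope.1 hdT).mono_left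
            (nhdsWithin_mono _ fun r hr => ne_of_gt hr)
        refine ge_of_tendsto h1 ?_
        filter_upwards [Ioc_mem_nhdsGT htb] with r hr
        rw [slope_def_field]
        have h2 := hgt r hr
        exact div_nonneg (by rw [hTt]; linarith) (by linarith [hr.1])
      have hd2 : d = 0 := le_antisymm hd0 hd1
      refine Or.inr ⟨t, ?_, hTt⟩
      rw [hd2] at hdT
      exact hdT
  have h1 : volume (Ioo (T a) (T b)) = 0 := by
    refine measure_mono_null hsub ?_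
    exact measure_union_null hZ hDnull
  rw [Real.volume_Ioo, ENNReal.ofReal_eq_zero] at h1
  linarith

variable {F : Type*} [NormedAddCommGroup F] [NormedSpace ℝ F] [FiniteDimensional ℝ F]
  {N : Type*} [TopologicalSpace N] [ChartedSpace F N] [IsManifold 𝓘(ℝ, F) ∞ N]
  {L : Type*} [TopologicalSpace L] [ChartedSpace F L] [IsManifold 𝓘(ℝ, F) ∞ L]

/-- The easy case of Sard's theorem, on manifolds. -/
theorem null_image [CompactSpace L] [MeasurableSpace F] [BorelSpace F] (μ : Measure F)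
    [μ.IsAddHaarMeasure] {Ψ : L → F} (hΨ : ContMDiff 𝓘(ℝ, F) 𝓘(ℝ, F) ∞ Ψ) {A : Set L}
    (hA : ∀ z ∈ A, ∃ u : TangentSpace 𝓘(ℝ, F) z, u ≠ 0 ∧ mfderiv 𝓘(ℝ, F) 𝓘(ℝ, F) Ψ z u = 0) :
    μ (Ψ '' A) = 0 := by
  have key : ∀ z₀ : L, μ (Ψ '' (A ∩ (extChartAt 𝓘(ℝ, F) z₀).source)) = 0 := by
    intro z₀
    set ψ := extChartAt 𝓘(ℝ, F) z₀ with hψ
    have hψo : IsOpen ψ.target := isOpen_extChartAt_target z₀
    have himg : Ψ '' (A ∩ ψ.source) = (Ψ ∘ ψ.symm) '' (ψ '' (A ∩ ψ.source)) := by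
      rw [← image_comp]
      refine image_congr fun z hz => ?_
      simp only [Function.comp_apply]
      rw [ψ.left_inv hz.2]
    rw [himg]
    refine addHaar_image_eq_zero_of_det_fderivWithin_eq_zero μ
      (f' := fun y => fderiv ℝ (Ψ ∘ ψ.symm) y) ?_ ?_
    · rintro y ⟨z, hz, rfl⟩
      have hy : ψ z ∈ ψ.target := ψ.map_source hz.2
      have h1 : ContMDiffAt 𝓘(ℝ, F) 𝓘(ℝ, F) ∞ ψ.symm (ψ z) :=
        (contMDiffOn_extChartAt_symm z₀).contMDiffAt (hψo.mem_nhds hy)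
      have h2 : ContMDiffAt 𝓘(ℝ, F) 𝓘(ℝ, F) ∞ (Ψ ∘ ψ.symm) (ψ z) := (hΨ _).comp _ h1
      rw [contMDiffAt_iff_contDiffAt] at h2
      exact (h2.differentiableAt (by simp)).hasFDerivAt.hasFDerivWithinAt
    · rintro y ⟨z, hz, rfl⟩
      obtain ⟨u, hu0, hu⟩ := hA z hz.1
      have hy : ψ z ∈ ψ.target := ψ.map_source hz.2
      have h1 : ContMDiffAt 𝓘(ℝ, F) 𝓘(ℝ, F) ∞ ψ.symm (ψ z) :=
        (contMDiffOn_extChartAt_symm z₀).contMDiffAt (hψo.mem_nhds hy)
      have hzz : ψ.symm (ψ z) = z := ψ.left_inv hz.2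
      -- `ψ.symm ∘ ψ = id` near `z`
      have h3 : ContMDiffAt 𝓘(ℝ, F) 𝓘(ℝ, F) ∞ ψ z :=
        contMDiffAt_extChartAt' (by rw [← extChartAt_source 𝓘(ℝ, F)]; exact hz.2)
      have h4 : (Ψ ∘ ψ.symm) ∘ ψ =ᶠ[𝓝 z] Ψ := by
        filter_upwards [(isOpen_extChartAt_source (I := 𝓘(ℝ, F)) z₀).mem_nhds hz.2] with x hx
        simp only [Function.comp_apply]
        rw [ψ.left_inv hx]
      have h2 : ContMDiffAt 𝓘(ℝ, F) 𝓘(ℝ, F) ∞ (Ψ ∘ ψ.symm) (ψ z) := (hΨ _).comp _ h1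
      have h5 := mfderiv_comp (I := 𝓘(ℝ, F)) (I' := 𝓘(ℝ, F)) (I'' := 𝓘(ℝ, F)) z
        (h2.mdifferentiableAt (by simp)) (h3.mdifferentiableAt (by simp))
      rw [h4.mfderiv_eq] at h5
      have h6 : (fderiv ℝ (Ψ ∘ ψ.symm) (ψ z)) (mfderiv 𝓘(ℝ, F) 𝓘(ℝ, F) ψ z u) = 0 := by
        rw [← mfderiv_eq_fderiv]
        have h7 := DFunLike.congr_fun h5 u
        exact h7.symm.trans hu
      have h8 : (show F from mfderiv 𝓘(ℝ, F) 𝓘(ℝ, F) ψ z u) ≠ 0 := by
        intro h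
        apply hu0
        have h9 := (isInvertible_mfderiv_extChartAt (I := 𝓘(ℝ, F)) hz.2).injective
        apply h9
        rw [map_zero]
        exact h
      by_contra hdet
      have h9 : LinearMap.ker ((fderiv ℝ (Ψ ∘ ψ.symm) (ψ z)) : F →ₗ[ℝ] F) = ⊥ :=
        (LinearMap.isUnit_iff_ker_eq_bot _).1
          ((LinearMap.isUnit_iff_isUnit_det _).2 (isUnit_iff_ne_zero.2 hdet))
      apply h8
      have h10 : (show F from mfderiv 𝓘(ℝ, F) 𝓘(ℝ, F) ψ z u) ∈
        LinearMap.ker ((fderiv ℝ (Ψ ∘ ψ.symm) (ψ z)) : F →ₗ[ℝ] F) := h6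
      rw [h9] at h10
      exact h10
  obtain ⟨s, hs⟩ := isCompact_univ.elim_nhds_subcover
    (fun z₀ : L => (extChartAt 𝓘(ℝ, F) z₀).source)
    (fun z₀ _ => extChartAt_source_mem_nhds (I := 𝓘(ℝ, F)) z₀)
  have h1 : Ψ '' A ⊆ ⋃ z₀ ∈ s, Ψ '' (A ∩ (extChartAt 𝓘(ℝ, F) z₀).source) := by
    rintro _ ⟨z, hz, rfl⟩
    have h2 := hs.2 (mem_univ z)
    simp only [mem_iUnion] at h2 ⊢
    obtain ⟨z₀, hz₀, h3⟩ := h2
    exact ⟨z₀, hz₀, z, ⟨hz, h3⟩, rfl⟩
  refine measure_mono_null h1 ?_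
  exact (measure_biUnion_null_iff (s.countable_toSet)).2 fun z₀ _ => key z₀

end Pool.Agent.J4H58.Arn
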