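import Mathlib
import Pool.Agent.J4H58.Arn.Line
import Pool.Agent.Helper186.DForms

/-! One-sided derivative bounds for the function `S` on `N` with `S ∘ g = f₀`, where
`df₀ = σ ∘ dg`. -/

open scoped Topology ContDiff Manifold
open Set Metric Bundle MeasureTheory Filter

noncomputable section

namespace Pool.Agent.J4H58.Arn

open Pool.Agent.Helper186

set_option linter.unusedSectionVars false
set_option maxHeartbeats 400000

universe u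

variable {F : Type u} [NormedAddCommGroup F] [NormedSpace ℝ F] [FiniteDimensional ℝ F]
  {N : Type*} [TopologicalSpace N] [ChartedSpace F N] [IsManifold 𝓘(ℝ, F) ∞ N]
  {L : Type*} [TopologicalSpace L] [ChartedSpace F L] [IsManifold 𝓘(ℝ, F) ∞ L]

variable (F) in
/-- Critical points. -/
def Crit (g : L → N) (z : L) : Prop :=
  ∃ u : TangentSpace 𝓘(ℝ, F) z, u ≠ 0 ∧ mfderiv 𝓘(ℝ, F) 𝓘(ℝ, F) g z u = 0

/-- The function `Sf` on `N`, with `Sf ∘ g = f₀` and `df₀ = σ ∘ dg`. -/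
structure Sel (g : L → N) (f₀ : L → ℝ) (σ : (z : L) → TangentSpace 𝓘(ℝ, F) (g z) →L[ℝ] ℝ)
    (Sf : N → ℝ) : Prop where
  smooth_g : ContMDiff 𝓘(ℝ, F) 𝓘(ℝ, F) ∞ g
  smooth_f : ContMDiff 𝓘(ℝ, F) 𝓘(ℝ, ℝ) ∞ f₀
  df : ∀ (z : L) (u : TangentSpace 𝓘(ℝ, F) z),
    dForm 𝓘(ℝ, F) f₀ z u = σ z (mfderiv 𝓘(ℝ, F) 𝓘(ℝ, F) g z u)
  comp : ∀ z, Sf (g z) = f₀ z
  surj : Function.Surjective g
  sat : ∀ z z', g z = g z' → Crit F g z' → Crit F g z
  cont : Continuous Sf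

variable {g : L → N} {f₀ : L → ℝ} {σ : (z : L) → TangentSpace 𝓘(ℝ, F) (g z) →L[ℝ] ℝ}
  {Sf : N → ℝ}

/-- At regular points the function is differentiable, with derivative `σ`. -/
lemma Sel.hasMFDerivAt (h : Sel g f₀ σ Sf) {z : L} (hz : ¬ Crit F g z) :
    HasMFDerivAt 𝓘(ℝ, F) 𝓘(ℝ, ℝ) Sf (g z) (σ z) := by
  have hinj : Function.Injective (mfderiv 𝓘(ℝ, F) 𝓘(ℝ, F) g z) := by
    rw [injective_iff_map_eq_zero]
    intro u hu
    by_contra h0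
    exact hz ⟨u, h0, hu⟩
  obtain ⟨S, v, hSo, hzS, hvg, hopen, hvs⟩ := local_inverse h.smooth_g hinj rfl
  have hnh : g '' S ∈ 𝓝 (g z) := (hopen S subset_rfl hSo).mem_nhds ⟨z, hzS, rfl⟩
  have heq : Sf =ᶠ[𝓝 (g z)] fun q => f₀ (v q) := by
    filter_upwards [hnh] with q hq
    obtain ⟨ζ, hζ, rfl⟩ := hq
    rw [hvg ζ hζ, h.comp]
  have hvz : v (g z) = z := hvg z hzS
  have hv : ContMDiffAt 𝓘(ℝ, F) 𝓘(ℝ, F) ∞ v (g z) := hvs z hzS
  have hfv : ContMDiffAt 𝓘(ℝ, F) 𝓘(ℝ, ℝ) ∞ (fun q => f₀ (v q)) (g z) :=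
    (h.smooth_f _).comp _ hv
  have h1 : HasMFDerivAt 𝓘(ℝ, F) 𝓘(ℝ, ℝ) Sf (g z)
      (mfderiv 𝓘(ℝ, F) 𝓘(ℝ, ℝ) (fun q => f₀ (v q)) (g z)) :=
    ((hfv.mdifferentiableAt (by simp)).hasMFDerivAt).congr_of_eventuallyEq heq
  have h2 : mfderiv 𝓘(ℝ, F) 𝓘(ℝ, ℝ) (fun q => f₀ (v q)) (g z) = σ z := by
    refine ContinuousLinearMap.ext fun a => ?_
    -- `a = dg (dv a)`
    have hgv : (fun q => g (v q)) =ᶠ[𝓝 (g z)] id := by
      filter_upwards [hnh] with q hq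
      obtain ⟨ζ, hζ, rfl⟩ := hq
      simp only [id]
      rw [hvg ζ hζ]
    have h3 := DFunLike.congr_fun (mfderiv_comp (I := 𝓘(ℝ, F)) (I' := 𝓘(ℝ, F)) (I'' := 𝓘(ℝ, ℝ))
      (g z) (h.smooth_f.mdifferentiableAt (by simp) (x := v (g z)))
      (hv.mdifferentiableAt (by simp))) a
    have h4 := DFunLike.congr_fun (mfderiv_comp (I := 𝓘(ℝ, F)) (I' := 𝓘(ℝ, F)) (I'' := 𝓘(ℝ, F))
      (g z) (h.smooth_g.mdifferentiableAt (by simp) (x := v (g z)))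
      (hv.mdifferentiableAt (by simp))) a
    have h5 : mfderiv 𝓘(ℝ, F) 𝓘(ℝ, F) (g ∘ v) (g z) = ContinuousLinearMap.id ℝ F := by
      have h6 : (g ∘ v) =ᶠ[𝓝 (g z)] id := hgv
      rw [h6.mfderiv_eq]
      exact mfderiv_id
    have h6 : (show F from a) = (show F from mfderiv 𝓘(ℝ, F) 𝓘(ℝ, F) g (v (g z))
        (mfderiv 𝓘(ℝ, F) 𝓘(ℝ, F) v (g z) a)) := by
      have h7 := DFunLike.congr_fun h5 a
      exact h7.symm.trans h4
    refine h3.trans ?_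
    have h7 := h.df (v (g z)) (mfderiv 𝓘(ℝ, F) 𝓘(ℝ, F) v (g z) a)
    refine h7.trans ?_
    have h8 : ∀ z' : L, z' = z → (show F →L[ℝ] ℝ from σ z') = (show F →L[ℝ] ℝ from σ z) := by
      rintro z' rfl; rfl
    have h9 := DFunLike.congr_fun (h8 _ hvz) (show F from mfderiv 𝓘(ℝ, F) 𝓘(ℝ, F) g (v (g z))
        (mfderiv 𝓘(ℝ, F) 𝓘(ℝ, F) v (g z) a))
    refine h9.trans ?_
    exact congrArg (show F →L[ℝ] ℝ from σ z) h6.symm
  rw [h2] at h1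
  exact h1

section Line

variable [CompactSpace L] [MeasurableSpace F] [BorelSpace F] (μ : Measure F) [μ.IsAddHaarMeasure]
  {h : N → F} {κ : F → N} {O : Set N}

/-- The number `σ_z (dκ w)`. -/
def sel (σ : (z : L) → TangentSpace 𝓘(ℝ, F) (g z) →L[ℝ] ℝ) (h : N → F) (κ : F → N) (z : L)
    (w : F) : ℝ :=
  (show F →L[ℝ] ℝ from σ z) (show F from mfderiv 𝓘(ℝ, F) 𝓘(ℝ, F) κ (h (g z)) w)

theorem Sel.line_ae (hS : Sel g f₀ σ Sf) (hh : ContMDiff 𝓘(ℝ, F) 𝓘(ℝ, F) ∞ h)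
    (hκ : ∀ q ∈ O, κ (h q) = q) (hκs : ∀ q ∈ O, ContMDiffAt 𝓘(ℝ, F) 𝓘(ℝ, F) ∞ κ (h q))
    {w : F} (hw : w ≠ 0) (C : ℝ) :
    ∀ᵐ x ∂μ, ∀ t₀ : ℝ, 0 ≤ t₀ → (∀ s ∈ Icc 0 t₀, x + s • w ∈ h '' O) →
      (∀ z, g z ∈ O → (∃ s ∈ Icc 0 t₀, h (g z) = x + s • w) → sel σ h κ z w ≤ C) →
      Sf (κ (x + t₀ • w)) - Sf (κ x) ≤ C * t₀ := by
  obtain ⟨a, ha⟩ : ∃ a : F →L[ℝ] ℝ, a w = 1 := SeparatingDual.exists_eq_one hw
  set Ψ : L → F := fun z => h (g z) - a (h (g z)) • w + (f₀ z - C * a (h (g z))) • w with hΨ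
  have hhg : ContMDiff 𝓘(ℝ, F) 𝓘(ℝ, F) ∞ (fun z => h (g z)) := hh.comp hS.smooth_g
  have hahg : ContMDiff 𝓘(ℝ, F) 𝓘(ℝ, ℝ) ∞ (fun z => a (h (g z))) := a.contMDiff.comp hhg
  -- `Ψ` as a function of `(h (g z), f₀ z)`
  set P : F × ℝ → F := fun p => p.1 - a p.1 • w + (p.2 - C * a p.1) • w with hP
  have hPs : ContDiff ℝ ∞ P := by
    have h1 : ContDiff ℝ ∞ (fun p : F × ℝ => a p.1) := a.contDiff.comp contDiff_fst
    exact (contDiff_fst.sub (h1.smul contDiff_const)).add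
      ((contDiff_snd.sub (contDiff_const.mul h1)).smul contDiff_const)
  set Q : L → F × ℝ := fun z => (h (g z), f₀ z) with hQ
  have hQs : ContMDiff 𝓘(ℝ, F) 𝓘(ℝ, F × ℝ) ∞ Q := hhg.prodMk_space hS.smooth_f
  have hΨs : ContMDiff 𝓘(ℝ, F) 𝓘(ℝ, F) ∞ Ψ := hPs.contMDiff.comp hQs
  have hnull : μ (Ψ '' {z | Crit F g z}) = 0 := by
    apply null_image μ hΨs
    rintro z ⟨u, hu0, hu⟩
    refine ⟨u, hu0, ?_⟩
    have h1 := DFunLike.congr_fun (mfderiv_comp (I := 𝓘(ℝ, F)) (I' := 𝓘(ℝ, F × ℝ))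
      (I'' := 𝓘(ℝ, F)) z (hPs.contMDiff.mdifferentiableAt (by simp) (x := Q z))
      (hQs.mdifferentiableAt (by simp))) u
    refine h1.trans ?_
    have hfst : ContMDiff 𝓘(ℝ, F × ℝ) 𝓘(ℝ, F) ∞ (Prod.fst : F × ℝ → F) :=
      (contDiff_fst).contMDiff
    have hsnd : ContMDiff 𝓘(ℝ, F × ℝ) 𝓘(ℝ, ℝ) ∞ (Prod.snd : F × ℝ → ℝ) :=
      (contDiff_snd).contMDiff
    have h2 : (show F × ℝ from mfderiv 𝓘(ℝ, F) 𝓘(ℝ, F × ℝ) Q z u) = (0 : F × ℝ) := by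
      have h3 := DFunLike.congr_fun (mfderiv_comp (I := 𝓘(ℝ, F)) (I' := 𝓘(ℝ, F × ℝ))
        (I'' := 𝓘(ℝ, F)) z (hfst.mdifferentiableAt (by simp) (x := Q z))
        (hQs.mdifferentiableAt (by simp))) u
      have h4 := DFunLike.congr_fun (mfderiv_comp (I := 𝓘(ℝ, F)) (I' := 𝓘(ℝ, F × ℝ))
        (I'' := 𝓘(ℝ, ℝ)) z (hsnd.mdifferentiableAt (by simp) (x := Q z))
        (hQs.mdifferentiableAt (by simp))) u
      have h5 : mfderiv 𝓘(ℝ, F × ℝ) 𝓘(ℝ, F) (Prod.fst : F × ℝ → F) (Q z) =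
          ContinuousLinearMap.fst ℝ F ℝ := by
        rw [mfderiv_eq_fderiv]; exact (ContinuousLinearMap.fst ℝ F ℝ).fderiv
      have h6 : mfderiv 𝓘(ℝ, F × ℝ) 𝓘(ℝ, ℝ) (Prod.snd : F × ℝ → ℝ) (Q z) =
          ContinuousLinearMap.snd ℝ F ℝ := by
        rw [mfderiv_eq_fderiv]; exact (ContinuousLinearMap.snd ℝ F ℝ).fderiv
      have h7 : (show F from mfderiv 𝓘(ℝ, F) 𝓘(ℝ, F) (Prod.fst ∘ Q) z u) = 0 := by
        have h8 := DFunLike.congr_fun (mfderiv_comp (I := 𝓘(ℝ, F)) (I' := 𝓘(ℝ, F))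
          (I'' := 𝓘(ℝ, F)) z (hh.mdifferentiableAt (by simp) (x := g z))
          (hS.smooth_g.mdifferentiableAt (by simp))) u
        refine h8.trans ?_
        have h9 : mfderiv 𝓘(ℝ, F) 𝓘(ℝ, F) h (g z) (mfderiv 𝓘(ℝ, F) 𝓘(ℝ, F) g z u) = 0 := by
          rw [hu, map_zero]
        exact h9
      have h8 : (show ℝ from mfderiv 𝓘(ℝ, F) 𝓘(ℝ, ℝ) (Prod.snd ∘ Q) z u) = 0 := by
        have h9 := hS.df z u
        have h10 : σ z (mfderiv 𝓘(ℝ, F) 𝓘(ℝ, F) g z u) = 0 := by rw [hu, map_zero]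
        exact h9.trans h10
      have h9 := DFunLike.congr_fun h5 (mfderiv 𝓘(ℝ, F) 𝓘(ℝ, F × ℝ) Q z u)
      have h10 := DFunLike.congr_fun h6 (mfderiv 𝓘(ℝ, F) 𝓘(ℝ, F × ℝ) Q z u)
      refine Prod.ext ?_ ?_
      · exact (h9.symm.trans h3.symm).trans h7
      · exact (h10.symm.trans h4.symm).trans h8
    have h3 : mfderiv 𝓘(ℝ, F × ℝ) 𝓘(ℝ, F) P (Q z) (mfderiv 𝓘(ℝ, F) 𝓘(ℝ, F × ℝ) Q z u) = 0 := by
      have h4 : mfderiv 𝓘(ℝ, F) 𝓘(ℝ, F × ℝ) Q z u = 0 := h2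
      rw [h4, map_zero]
    exact h3
  -- Fubini
  set A : Set F := toMeasurable μ (Ψ '' {z | Crit F g z}) with hA
  have hA0 : μ A = 0 := by rw [hA, measure_toMeasurable, hnull]
  have hae : ∀ᵐ x ∂μ, x ∈ Aᶜ := by
    rw [ae_iff]
    simpa using hA0
  have hline := (ae_ae_add_linearMap_mem_iff (LinearMap.toSpanSingleton ℝ F w)
    (volume : Measure ℝ) μ (measurableSet_toMeasurable _ _).compl).2 hae
  filter_upwards [hline] with x hx t₀ ht₀ hseg hbd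
  set T : ℝ → ℝ := fun s => Sf (κ (x + s • w)) - C * s with hT
  set Z : Set ℝ := {s | ∃ z, Crit F g z ∧ g z ∈ O ∧ h (g z) = x + s • w} with hZ
  -- continuity
  have hκc : ∀ s ∈ Icc 0 t₀, ContMDiffAt 𝓘(ℝ, F) 𝓘(ℝ, F) ∞ κ (x + s • w) := by
    intro s hs
    obtain ⟨q, hq, hqx⟩ := hseg s hs
    rw [← hqx]
    exact hκs q hq
  have hTc : ContinuousOn T (Icc 0 t₀) := by
    intro s hs
    have h1 : ContinuousAt (fun s : ℝ => κ (x + s • w)) s :=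
      ContinuousAt.comp (f := fun s : ℝ => x + s • w) (hκc s hs).continuousAt
        (by fun_prop)
    exact ((hS.cont.continuousAt.comp h1).sub (by fun_prop)).continuousWithinAt
  have hnullT : volume (T '' (Z ∩ Icc 0 t₀)) = 0 := by
    have h1 : volume {τ : ℝ | x + τ • w ∈ A} = 0 := by
      rw [ae_iff] at hx
      simpa using hx
    have h2 : T '' (Z ∩ Icc 0 t₀) ⊆ (fun τ => τ + (1 + C) * a x) '' {τ : ℝ | x + τ • w ∈ A} := by
      rintro _ ⟨s, ⟨⟨z, hz, hzO, hzx⟩, hs⟩, rfl⟩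
      refine ⟨T s - (1 + C) * a x, ?_, by ring⟩
      have h3 : T s = f₀ z - C * s := by
        show Sf (κ (x + s • w)) - C * s = _
        rw [← hzx, hκ _ hzO, hS.comp]
      have h4 : Ψ z = x + (T s - (1 + C) * a x) • w := by
        simp only [hΨ]
        rw [hzx, h3, map_add, map_smul, ha, smul_eq_mul, mul_one]
        module
      show x + (T s - (1 + C) * a x) • w ∈ A
      rw [← h4]
      exact subset_toMeasurable _ _ ⟨z, hz, rfl⟩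
    refine measure_mono_null h2 ?_
    rw [image_add_right, measure_preimage_add_right]
    exact h1
  have hmain := le_of_null_image ht₀ hTc hnullT (by
    intro s hs hsZ
    have hs' : s ∈ Icc 0 t₀ := Ioo_subset_Icc_self hs
    obtain ⟨q, hq, hqx⟩ := hseg s hs'
    obtain ⟨z, rfl⟩ := hS.surj q
    have hzc : ¬ Crit F g z := fun hc => hsZ ⟨z, hc, hq, hqx⟩
    have hκz : κ (x + s • w) = g z := by rw [← hqx, hκ _ hq]
    have h1 : HasMFDerivAt 𝓘(ℝ, F) 𝓘(ℝ, ℝ) Sf (κ (x + s • w)) (show F →L[ℝ] ℝ from σ z) := by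
      have h2 : ∀ q', q' = g z → HasMFDerivAt 𝓘(ℝ, F) 𝓘(ℝ, ℝ) Sf q'
          (show F →L[ℝ] ℝ from σ z) := by
        rintro _ rfl
        exact hS.hasMFDerivAt hzc
      exact h2 _ hκz
    have h2 := ((hκc s hs').mdifferentiableAt (by simp)).hasMFDerivAt
    have h3 := h1.comp (x + s • w) h2
    have h4 := h3.hasFDerivAt
    have h5 : HasDerivAt (fun s : ℝ => x + s • w) w s := by
      have h6 := (hasDerivAt_id s).smul_const w
      simpa using h6.const_add x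
    have h6 := h4.comp_hasDerivAt s h5
    have h7 := h6.sub ((hasDerivAt_id s).const_mul C)
    refine ⟨_, ?_, h7⟩
    have h8 := hbd z hq ⟨s, hs', hqx⟩
    have h9 : sel σ h κ z w = (show F →L[ℝ] ℝ from σ z)
        (show F from mfderiv 𝓘(ℝ, F) 𝓘(ℝ, F) κ (x + s • w) w) := by
      unfold sel
      rw [hqx]
    rw [h9] at h8
    rw [mul_one]
    exact sub_nonpos.2 h8)
  have h1 : T t₀ = Sf (κ (x + t₀ • w)) - C * t₀ := rfl
  have h2 : T 0 = Sf (κ x) := by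
    show Sf (κ (x + (0:ℝ) • w)) - C * 0 = _
    rw [zero_smul, add_zero, mul_zero, sub_zero]
  rw [h1, h2] at hmain
  linarith

include μ in
/-- The one-sided derivative bound. -/
theorem Sel.line (hS : Sel g f₀ σ Sf) (hh : ContMDiff 𝓘(ℝ, F) 𝓘(ℝ, F) ∞ h)
    (hκ : ∀ q ∈ O, κ (h q) = q) (hκs : ∀ q ∈ O, ContMDiffAt 𝓘(ℝ, F) 𝓘(ℝ, F) ∞ κ (h q))
    {B : Set F} (hB : IsOpen B) (hBO : B ⊆ h '' O) {w : F} {C : ℝ}
    (hC : ∀ z, g z ∈ O → h (g z) ∈ B → sel σ h κ z w ≤ C) {x : F} {t₀ : ℝ} (ht₀ : 0 ≤ t₀)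
    (hx : ∀ s ∈ Icc 0 t₀, x + s • w ∈ B) :
    Sf (κ (x + t₀ • w)) - Sf (κ x) ≤ C * t₀ := by
  rcases eq_or_ne w 0 with hw | hw
  · have h1 : x ∈ B := by
      have := hx 0 ⟨le_rfl, ht₀⟩
      rwa [zero_smul, add_zero] at this
    obtain ⟨q, hq, hqx⟩ := hBO h1
    obtain ⟨z, rfl⟩ := hS.surj q
    have h2 := hC z hq (by rw [hqx]; exact h1)
    have h3 : sel σ h κ z w = 0 := by
      unfold sel
      rw [hw]
      have h4 : (show F from mfderiv 𝓘(ℝ, F) 𝓘(ℝ, F) κ (h (g z)) (0 : F)) = 0 :=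
        map_zero (mfderiv 𝓘(ℝ, F) 𝓘(ℝ, F) κ (h (g z)))
      rw [h4]
      exact map_zero _
    rw [h3] at h2
    rw [hw, smul_zero, add_zero, sub_self]
    exact mul_nonneg h2 ht₀
  have hae := hS.line_ae μ hh hκ hκs hw C
  have hdense : Dense {x : F | ∀ t₀ : ℝ, 0 ≤ t₀ → (∀ s ∈ Icc 0 t₀, x + s • w ∈ h '' O) →
      (∀ z, g z ∈ O → (∃ s ∈ Icc 0 t₀, h (g z) = x + s • w) → sel σ h κ z w ≤ C) →
      Sf (κ (x + t₀ • w)) - Sf (κ x) ≤ C * t₀} := Measure.dense_of_ae hae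
  -- the set of good base points is a neighbourhood of `x`
  have hnh : ∀ᶠ y in 𝓝 x, ∀ s ∈ Icc 0 t₀, y + s • w ∈ B := by
    have h1 : Continuous (fun p : F × ℝ => p.1 + p.2 • w) := by fun_prop
    obtain ⟨u, v, hu, hv, h2, h3, h4⟩ := generalized_tube_lemma
      (isCompact_singleton (x := x)) (isCompact_Icc (a := (0:ℝ)) (b := t₀)) (hB.preimage h1) (by
        rintro ⟨y, s⟩ ⟨hy, hs⟩
        have hy' : y = x := hy
        show y + s • w ∈ B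
        rw [hy']
        exact hx s hs)
    filter_upwards [hu.mem_nhds (h2 rfl)] with y hy s hs
    exact h4 (show (y, s) ∈ u ×ˢ v from ⟨hy, h3 hs⟩)
  have hcont : ContinuousAt (fun y => Sf (κ (y + t₀ • w)) - Sf (κ y) - C * t₀) x := by
    have h1 : ∀ y ∈ B, ContinuousAt κ y := by
      intro y hy
      obtain ⟨q, hq, rfl⟩ := hBO hy
      exact (hκs q hq).continuousAt
    have h2 : ContinuousAt (fun y => κ (y + t₀ • w)) x :=
      ContinuousAt.comp (f := fun y => y + t₀ • w) (h1 _ (hx t₀ ⟨ht₀, le_rfl⟩)) (by fun_prop)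
    have h3 : ContinuousAt κ x := by
      apply h1
      have := hx 0 ⟨le_rfl, ht₀⟩
      rwa [zero_smul, add_zero] at this
    exact ((hS.cont.continuousAt.comp h2).sub (hS.cont.continuousAt.comp h3)).sub
      continuousAt_const
  by_contra hlt
  have hpos : 0 < Sf (κ (x + t₀ • w)) - Sf (κ x) - C * t₀ := by
    rw [not_le] at hlt
    linarith
  have h1 : ∀ᶠ y in 𝓝 x, 0 < Sf (κ (y + t₀ • w)) - Sf (κ y) - C * t₀ :=
    hcont.eventually (lt_mem_nhds hpos)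
  obtain ⟨y, hyd, hy1, hy2⟩ := hdense.inter_nhds_nonempty (h1.and hnh)
  have h2 := hyd t₀ ht₀ (fun s hs => hBO (hy2 s hs)) (by
    rintro z hz ⟨s, hs, hzs⟩
    exact hC z hz (by rw [hzs]; exact hy2 s hs))
  linarith

end Line

end Pool.Agent.J4H58.Arn
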