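import Mathlib
import Pool.Agent.J4H58.Arn.Sel
import Pool.Agent.J4H58.Arn.Moll
import Pool.Agent.J4H58.Arn.Frame

/-! Local smooth approximations with differentials in the convex hull of nearby covectors. -/

open scoped Topology ContDiff Manifold
open Set Metric Bundle MeasureTheory Filter

noncomputable section

namespace Pool.Agent.J4H58.Arn

open Pool.Agent.Helper186

set_option linter.unusedSectionVars false
set_option maxHeartbeats 800000

universe u

variable {F : Type u} [NormedAddCommGroup F] [NormedSpace ℝ F] [FiniteDimensional ℝ F]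
  {N : Type*} [TopologicalSpace N] [ChartedSpace F N] [IsManifold 𝓘(ℝ, F) ∞ N]
  {L : Type*} [TopologicalSpace L] [ChartedSpace F L] [IsManifold 𝓘(ℝ, F) ∞ L]
  {m : ℕ} {e : Fin m → N → ℝ} {v : Fin m → (q : N) → TangentSpace 𝓘(ℝ, F) q}
  {Y : Type*} [PseudoMetricSpace Y] {D : N → Y}

/-- The hull of the coordinates of the covectors of `j` over points near `q`. -/
def Hull (v : Fin m → (q : N) → TangentSpace 𝓘(ℝ, F) q) (D : N → Y) (j : L → Cotangent F N)
    (ε : ℝ) (q : N) : Set (Fin m → ℝ) :=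
  thickening ε (convexHull ℝ {a | ∃ z, dist (D (j z).1) (D q) < ε ∧ a = cc v (j z)})

lemma convex_Hull (j : L → Cotangent F N) (ε : ℝ) (q : N) : Convex ℝ (Hull v D j ε q) :=
  (convex_convexHull ℝ _).thickening ε

lemma isOpen_Hull (j : L → Cotangent F N) (ε : ℝ) (q : N) : IsOpen (Hull v D j ε q) :=
  isOpen_thickening

lemma mem_Hull {j : L → Cotangent F N} {ε : ℝ} {q : N} {z : L}
    (hz : dist (D (j z).1) (D q) < ε) {b : Fin m → ℝ} (hb : ‖b‖ < ε) :
    cc v (j z) + b ∈ Hull v D j ε q := by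
  rw [Hull, mem_thickening_iff]
  refine ⟨cc v (j z), subset_convexHull _ _ ⟨z, hz, rfl⟩, ?_⟩
  rw [dist_eq_norm, add_sub_cancel_left]
  exact hb

/-- Chain rule. -/
lemma mfderiv_comp_loc {h : N → F} {κ : F → N} {f : N → ℝ} {q : N} (hq : κ (h q) = q)
    (hf : ContMDiff 𝓘(ℝ, F) 𝓘(ℝ, ℝ) ∞ f)
    (hκs : ContMDiffAt 𝓘(ℝ, F) 𝓘(ℝ, F) ∞ κ (h q)) (w : F) :
    (show F →L[ℝ] ℝ from dForm 𝓘(ℝ, F) f q)
      (show F from mfderiv 𝓘(ℝ, F) 𝓘(ℝ, F) κ (h q) w) = fderiv ℝ (fun x => f (κ x)) (h q) w := by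
  have h1 := DFunLike.congr_fun (mfderiv_comp (I := 𝓘(ℝ, F)) (I' := 𝓘(ℝ, F)) (I'' := 𝓘(ℝ, ℝ))
    (h q) (hf.mdifferentiableAt (by simp) (x := κ (h q)))
    (hκs.mdifferentiableAt (by simp))) w
  have h2 : mfderiv 𝓘(ℝ, F) 𝓘(ℝ, ℝ) (f ∘ κ) (h q) = fderiv ℝ (fun x => f (κ x)) (h q) := by
    rw [mfderiv_eq_fderiv]; rfl
  have h3 := DFunLike.congr_fun h2 w
  have h4 : ∀ q', q' = q → (show F →L[ℝ] ℝ from mfderiv 𝓘(ℝ, F) 𝓘(ℝ, ℝ) f q') =
      (show F →L[ℝ] ℝ from dForm 𝓘(ℝ, F) f q) := by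
    rintro _ rfl; rfl
  have h5 := DFunLike.congr_fun (h4 _ hq) (show F from mfderiv 𝓘(ℝ, F) 𝓘(ℝ, F) κ (h q) w)
  exact h5.symm.trans (h1.symm.trans h3)

/-- Chain rule. -/
lemma dForm_comp_h {h : N → F} {s : F → ℝ} (hs : ContDiff ℝ ∞ s)
    (hh : ContMDiff 𝓘(ℝ, F) 𝓘(ℝ, F) ∞ h) (q : N) (u : TangentSpace 𝓘(ℝ, F) q) :
    dForm 𝓘(ℝ, F) (fun q => s (h q)) q u =
      fderiv ℝ s (h q) (show F from mfderiv 𝓘(ℝ, F) 𝓘(ℝ, F) h q u) := by
  have h1 := DFunLike.congr_fun (mfderiv_comp (I := 𝓘(ℝ, F)) (I' := 𝓘(ℝ, F)) (I'' := 𝓘(ℝ, ℝ))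
    q (hs.contMDiff.mdifferentiableAt (by simp) (x := h q))
    (hh.mdifferentiableAt (by simp))) u
  have h2 : mfderiv 𝓘(ℝ, F) 𝓘(ℝ, ℝ) s (h q) = fderiv ℝ s (h q) := by
    rw [mfderiv_eq_fderiv]
  have h3 := DFunLike.congr_fun h2 (show F from mfderiv 𝓘(ℝ, F) 𝓘(ℝ, F) h q u)
  exact h1.trans h3

/-- Chain rule. -/
lemma dForm_eq_fderiv {h : N → F} {κ : F → N} {O : Set N} (hO : IsOpen O)
    (hκ : ∀ q ∈ O, κ (h q) = q) (hκs : ∀ q ∈ O, ContMDiffAt 𝓘(ℝ, F) 𝓘(ℝ, F) ∞ κ (h q))
    (hh : ContMDiff 𝓘(ℝ, F) 𝓘(ℝ, F) ∞ h) {f : N → ℝ} (hf : ContMDiff 𝓘(ℝ, F) 𝓘(ℝ, ℝ) ∞ f)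
    {q : N} (hq : q ∈ O) (u : TangentSpace 𝓘(ℝ, F) q) :
    dForm 𝓘(ℝ, F) f q u = fderiv ℝ (fun x => f (κ x)) (h q)
      (show F from mfderiv 𝓘(ℝ, F) 𝓘(ℝ, F) h q u) := by
  have h0 : (fun q => f (κ (h q))) =ᶠ[𝓝 q] f := by
    filter_upwards [hO.mem_nhds hq] with y hy
    rw [hκ y hy]
  have hfκ : ContMDiffAt 𝓘(ℝ, F) 𝓘(ℝ, ℝ) ∞ (fun x => f (κ x)) (h q) := (hf _).comp _ (hκs q hq)
  have h1 := DFunLike.congr_fun (mfderiv_comp (I := 𝓘(ℝ, F)) (I' := 𝓘(ℝ, F)) (I'' := 𝓘(ℝ, ℝ))
    q (hfκ.mdifferentiableAt (by simp))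
    (hh.mdifferentiableAt (by simp))) u
  have h2 : mfderiv 𝓘(ℝ, F) 𝓘(ℝ, ℝ) (fun x => f (κ x)) (h q) =
      fderiv ℝ (fun x => f (κ x)) (h q) := by
    rw [mfderiv_eq_fderiv]
  have h3 := DFunLike.congr_fun h2 (show F from mfderiv 𝓘(ℝ, F) 𝓘(ℝ, F) h q u)
  have h4 : mfderiv 𝓘(ℝ, F) 𝓘(ℝ, ℝ) (fun q => f (κ (h q))) q = dForm 𝓘(ℝ, F) f q :=
    h0.mfderiv_eq
  have h5 := DFunLike.congr_fun h4 u
  exact h5.symm.trans (h1.trans h3)

variable [T2Space N] [CompactSpace L]

/-- Local approximation. -/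
theorem Sel.local_app (hfr : Frame (F := F) m e v) {j : L → Cotangent F N} (hj : Continuous j)
    {f₀ : L → ℝ} {Sf : N → ℝ} (hS : Sel (fun z => (j z).1) f₀ (fun z => (j z).2) Sf)
    (hD : Continuous D) (q₀ : N) {ε : ℝ} (hε : 0 < ε) :
    ∃ W ∈ 𝓝 q₀, ∀ η > 0, ∃ s : N → ℝ, ContMDiff 𝓘(ℝ, F) 𝓘(ℝ, ℝ) ∞ s ∧
      ∀ q ∈ W, |s q - Sf q| ≤ η ∧ ∃ a ∈ Hull v D j ε q, dForm 𝓘(ℝ, F) s q = rr F e q a := by
  classical
  letI : MeasurableSpace F := borel F
  haveI : BorelSpace F := ⟨rfl⟩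
  let μ : Measure F := Measure.addHaar
  obtain ⟨h, hh, hinj₀⟩ := exists_local_coord (I := 𝓘(ℝ, F)) q₀
  have hinj := hinj₀.self_of_nhds
  obtain ⟨O, κ, hOo, hq₀O, hκ, hopen, hκs⟩ := local_inverse hh hinj rfl
  set x₀ := h q₀ with hx₀
  have hB₀o : IsOpen (h '' O) := hopen O subset_rfl hOo
  have hx₀B : x₀ ∈ h '' O := ⟨q₀, hq₀O, rfl⟩
  -- the coordinate functions in the chart
  set eh : F → Fin m → ℝ := fun x k => e k (κ x) with heh
  have hehs : ∀ x ∈ h '' O, ContDiffAt ℝ ∞ eh x := by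
    rintro x ⟨q, hq, rfl⟩
    rw [contDiffAt_pi]
    intro k
    have h1 : ContMDiffAt 𝓘(ℝ, F) 𝓘(ℝ, ℝ) ∞ (fun x => e k (κ x)) (h q) :=
      (hfr.smooth_e k _).comp _ (hκs q hq)
    exact contMDiffAt_iff_contDiffAt.1 h1
  set G : F → F →L[ℝ] (Fin m → ℝ) := fderiv ℝ eh with hG
  have hGc : ContinuousOn G (h '' O) :=
    ContDiffOn.continuousOn_fderiv_of_isOpen (n := ∞)
      (fun x hx => (hehs x hx).contDiffWithinAt) hB₀o (by simp)
  have hGk : ∀ x ∈ h '' O, ∀ w k, G x w k = fderiv ℝ (fun x => e k (κ x)) x w := by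
    intro x hx w k
    have h1 : HasFDerivAt eh (G x) x := ((hehs x hx).differentiableAt (by simp)).hasFDerivAt
    have h2 := (hasFDerivAt_pi'.1 h1) k
    rw [h2.fderiv]
    rfl
  -- `G x₀` is injective
  have hG0 : ∃ K : ℝ, 0 < K ∧ ∀ w, ‖w‖ ≤ K * ‖G x₀ w‖ := by
    have hsurj : Function.Surjective (show F →L[ℝ] F from mfderiv 𝓘(ℝ, F) 𝓘(ℝ, F) h q₀) := by
      have h1 : Function.Injective ((show F →L[ℝ] F from mfderiv 𝓘(ℝ, F) 𝓘(ℝ, F) h q₀) :
        F →ₗ[ℝ] F) := hinj
      exact LinearMap.injective_iff_surjective.1 h1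
    have hker : LinearMap.ker ((G x₀ : F →L[ℝ] (Fin m → ℝ)) : F →ₗ[ℝ] (Fin m → ℝ)) = ⊥ := by
      rw [LinearMap.ker_eq_bot']
      intro w hw
      obtain ⟨u, rfl⟩ := hsurj w
      have h1 : ∀ k, dForm 𝓘(ℝ, F) (e k) q₀ u = 0 := by
        intro k
        rw [dForm_eq_fderiv hOo hκ hκs hh (hfr.smooth_e k) hq₀O u, ← hGk _ hx₀B]
        exact congrFun hw k
      have h2 := hfr.sum q₀ u
      have h3 : ∑ k, (dForm 𝓘(ℝ, F) (e k) q₀ u) • v k q₀ = 0 :=
        Finset.sum_eq_zero fun k _ => by rw [h1 k, zero_smul]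
      have h4 : u = (0 : TangentSpace 𝓘(ℝ, F) q₀) := h2.symm.trans h3
      rw [h4]
      exact map_zero _
    obtain ⟨K, hK, hKa⟩ := LinearMap.exists_antilipschitzWith _ hker
    refine ⟨K, hK, fun w => ?_⟩
    have h1 := hKa.le_mul_dist w 0
    rw [dist_zero_right] at h1
    refine h1.trans (le_of_eq ?_)
    rw [map_zero, dist_zero_right]
    rfl
  obtain ⟨K, hK, hGK⟩ := hG0
  -- the radius
  have hκc : ContinuousAt κ x₀ := (hκs q₀ hq₀O).continuousAt
  have h1 : ∀ᶠ x in 𝓝 x₀, dist (D (κ x)) (D q₀) < ε / 2 := by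
    have h2 : ContinuousAt (fun x => D (κ x)) x₀ := hD.continuousAt.comp hκc
    have h3 := Metric.continuousAt_iff'.1 h2 (ε / 2) (by positivity)
    have h4 : κ x₀ = q₀ := hκ q₀ hq₀O
    rw [h4] at h3
    exact h3
  have h2 : ∀ᶠ x in 𝓝 x₀, ‖G x - G x₀‖ < 1 / (2 * K) := by
    have h3 := Metric.continuousAt_iff'.1 (hGc.continuousAt (hB₀o.mem_nhds hx₀B))
      (1 / (2 * K)) (by positivity)
    filter_upwards [h3] with x hx
    rwa [dist_eq_norm] at hx
  obtain ⟨r₀, hr₀, hball⟩ := Metric.eventually_nhds_iff_ball.1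
    ((h1.and h2).and (hB₀o.mem_nhds hx₀B))
  set r := r₀ / 5 with hr
  have hrpos : 0 < r := by positivity
  have hb4 : closedBall x₀ (4 * r) ⊆ ball x₀ r₀ := closedBall_subset_ball (by rw [hr]; linarith)
  have hb3 : closedBall x₀ (3 * r) ⊆ ball x₀ r₀ := closedBall_subset_ball (by rw [hr]; linarith)
  have hGw : ∀ x ∈ ball x₀ r₀, ∀ w, ‖w‖ ≤ 2 * K * ‖G x w‖ := by
    intro x hx w
    have h3 := (hball x hx).1.2
    have h4 : ‖G x₀ w‖ ≤ ‖G x w‖ + 1 / (2 * K) * ‖w‖ := by
      have h5 : G x₀ w = G x w - (G x - G x₀) w := by simp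
      rw [h5]
      refine (norm_sub_le _ _).trans ?_
      gcongr
      exact ((G x - G x₀).le_opNorm w).trans (by gcongr)
    have h5 := hGK w
    have h6 : ‖w‖ ≤ K * ‖G x w‖ + ‖w‖ / 2 := by
      refine h5.trans ((mul_le_mul_of_nonneg_left h4 hK.le).trans (le_of_eq ?_))
      field_simp
    linarith
  -- bound of the coordinates
  obtain ⟨M, hM⟩ : ∃ M : ℝ, ∀ z : L, ‖cc v (j z)‖ ≤ M := by
    obtain ⟨M, hM⟩ := isCompact_univ.exists_bound_of_continuousOn
      (hfr.continuous_cc.comp hj).continuousOn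
    exact ⟨M, fun z => hM z (mem_univ z)⟩
  set A : ℝ := m * |M| * (2 * K) with hA
  have hA0 : 0 ≤ A := by positivity
  set θ : ℝ := ε / (4 * (A + 1)) with hθ
  have hθpos : 0 < θ := by positivity
  have hAθ : A * θ ≤ ε / 4 := by
    rw [hθ, mul_div_assoc', div_le_div_iff₀ (by positivity) (by norm_num)]
    nlinarith
  have hGu : UniformContinuousOn G (closedBall x₀ (3 * r)) :=
    (isCompact_closedBall x₀ (3 * r)).uniformContinuousOn_of_continuous
      (hGc.mono fun x hx => (hball x (hb3 hx)).2)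
  obtain ⟨δ₁, hδ₁, hGδ⟩ := Metric.uniformContinuousOn_iff.1 hGu θ hθpos
  -- the cut off function
  let χ : ContDiffBump x₀ := ⟨3 * r, 4 * r, by positivity, by linarith⟩
  set T : F → ℝ := fun x => χ x * Sf (κ x) with hT
  have hTin : ∀ x ∈ closedBall x₀ (3 * r), T x = Sf (κ x) := by
    intro x hx
    show χ x * Sf (κ x) = _
    rw [χ.one_of_mem_closedBall hx, one_mul]
  have hTc : Continuous T := by
    have h3 : ContinuousOn T (h '' O) := by
      intro x hx
      obtain ⟨q, hq, rfl⟩ := hx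
      exact (χ.continuous.continuousAt.mul
        (hS.cont.continuousAt.comp (hκs q hq).continuousAt)).continuousWithinAt
    refine h3.continuous_of_tsupport_subset hB₀o ?_
    refine (closure_mono (Function.support_mul_subset_left _ _)).trans ?_
    have h4 : closure (Function.support χ) = closedBall x₀ (4 * r) := χ.tsupport_eq
    rw [h4]
    exact fun x hx => (hball x (hb4 hx)).2
  have hTu : UniformContinuousOn T (closedBall x₀ (3 * r)) :=
    (isCompact_closedBall x₀ (3 * r)).uniformContinuousOn_of_continuous hTc.continuousOn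
  refine ⟨O ∩ h ⁻¹' ball x₀ r, Filter.inter_mem (hOo.mem_nhds hq₀O)
    (hh.continuous.continuousAt.preimage_mem_nhds (ball_mem_nhds x₀ hrpos)), ?_⟩
  intro η hη
  obtain ⟨δ₂, hδ₂, hTδ⟩ := Metric.uniformContinuousOn_iff.1 hTu η hη
  set δ : ℝ := min r (min (δ₁ / 2) δ₂) with hδ
  have hδpos : 0 < δ := by positivity
  have hδr : δ ≤ r := min_le_left _ _
  have hδ1 : 2 * δ ≤ δ₁ := by
    have : δ ≤ δ₁ / 2 := (min_le_right _ _).trans (min_le_left _ _)
    linarith
  have hδ2 : δ ≤ δ₂ := (min_le_right _ _).trans (min_le_right _ _)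
  obtain ⟨sh, hsh, hsh1, hsh2⟩ := mollify μ hTc hδpos
  refine ⟨fun q => sh (h q), hsh.contMDiff.comp hh, ?_⟩
  rintro q ⟨hqO, hqr⟩
  have hxr : dist (h q) x₀ < r := hqr
  have hin : ∀ y ∈ ball (h q) (2 * δ), y ∈ closedBall x₀ (3 * r) := by
    intro y hy
    rw [mem_ball] at hy
    rw [mem_closedBall]
    have := dist_triangle y (h q) x₀
    linarith
  have hxin : h q ∈ closedBall x₀ (3 * r) := hin _ (mem_ball_self (by positivity))
  refine ⟨?_, ?_⟩
  · have h3 := hsh1 (h q) η (by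
      intro y hy
      have h4 := hTδ y (hin y (ball_subset_ball (by linarith) hy)) (h q) hxin
        ((mem_ball.1 hy).trans_le hδ2)
      rw [Real.dist_eq] at h4
      exact h4.le)
    rwa [hTin _ hxin, hκ q hqO] at h3
  · by_contra hno
    push Not at hno
    set ds := dForm 𝓘(ℝ, F) (fun q => sh (h q)) q with hds
    have hconv : Convex ℝ {b : Fin m → ℝ | rr F e q b = ds} := by
      intro b hb b' hb' s t _ _ hst
      show rr F e q (s • b + t • b') = ds
      rw [rr_add, rr_smul, rr_smul, show rr F e q b = ds from hb,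
        show rr F e q b' = ds from hb', ← add_smul, hst, one_smul]
    have hdisj : Disjoint (Hull v D j ε q) {b : Fin m → ℝ | rr F e q b = ds} := by
      rw [Set.disjoint_left]
      intro a ha ha'
      exact hno a ha (show rr F e q a = ds from ha').symm
    obtain ⟨f, u₀, hf1, hf2⟩ := geometric_hahn_banach_open (convex_Hull (v := v) (D := D) j ε q)
      (isOpen_Hull (v := v) (D := D) j ε q) hconv hdisj
    set b₀ : Fin m → ℝ := cc v (⟨q, ds⟩ : Cotangent F N) with hb₀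
    have hb₀' : rr F e q b₀ = ds := hfr.rr_cc (⟨q, ds⟩ : Cotangent F N)
    have hker : ∀ k : Fin m → ℝ, rr F e q k = 0 → f k = 0 := by
      intro k hk
      by_contra hfk
      have h3 := hf2 (b₀ + ((u₀ - f b₀ - 1) / f k) • k) (by
        show rr F e q (b₀ + ((u₀ - f b₀ - 1) / f k) • k) = ds
        rw [rr_add, rr_smul, hk, smul_zero, add_zero, hb₀'])
      rw [map_add, map_smul, smul_eq_mul, div_mul_cancel₀ _ hfk] at h3
      linarith
    set u : TangentSpace 𝓘(ℝ, F) q := ∑ k, f (Pi.single k 1) • v k q with hu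
    have hfsum : ∀ a : Fin m → ℝ, f a = ∑ k, a k * f (Pi.single k 1) := by
      intro a
      conv_lhs => rw [← Finset.univ_sum_single a]
      rw [map_sum]
      refine Finset.sum_congr rfl fun k _ => ?_
      have h3 : (Pi.single k (a k) : Fin m → ℝ) = a k • Pi.single k 1 := by
        rw [← Pi.single_smul, smul_eq_mul, mul_one]
      rw [h3, map_smul, smul_eq_mul]
    have hfu : ∀ a : Fin m → ℝ, f a = rr F e q a u := by
      intro a
      set a' : Fin m → ℝ := cc v (⟨q, rr F e q a⟩ : Cotangent F N) with ha'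
      have h3 : rr F e q a' = rr F e q a := hfr.rr_cc (⟨q, rr F e q a⟩ : Cotangent F N)
      have h4 : f (a - a') = 0 := by
        apply hker
        have h5 := rr_add (F := F) (e := e) q (a - a') a'
        rw [sub_add_cancel, h3] at h5
        have h6 : rr F e q (a - a') + rr F e q a = 0 + rr F e q a := by rw [← h5, zero_add]
        exact add_right_cancel h6
      rw [map_sub, sub_eq_zero] at h4
      rw [h4, hfsum, hu]
      have h5 : rr F e q a (∑ k, f (Pi.single k 1) • v k q) =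
        ∑ k, rr F e q a (f (Pi.single k 1) • v k q) := map_sum _ _ _
      rw [h5]
      refine Finset.sum_congr rfl fun k _ => ?_
      have h6 : rr F e q a (f (Pi.single k 1) • v k q) =
        f (Pi.single k 1) • rr F e q a (v k q) := map_smul _ _ _
      rw [h6, smul_eq_mul, mul_comm]
      rfl
    set w : F := (show F from mfderiv 𝓘(ℝ, F) 𝓘(ℝ, F) h q u) with hw
    have hxB : h q ∈ h '' O := ⟨q, hqO, rfl⟩
    set c : Fin m → ℝ := G (h q) w with hc
    have hck : ∀ k, c k = dForm 𝓘(ℝ, F) (e k) q u := by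
      intro k
      rw [dForm_eq_fderiv hOo hκ hκs hh (hfr.smooth_e k) hqO u, ← hGk _ hxB]
    have hfc : ∀ a : Fin m → ℝ, f a = ∑ k, a k * c k := by
      intro a
      rw [hfu, rr_apply]
      exact Finset.sum_congr rfl fun k _ => by rw [hck]
    have hcsum : ‖c‖ ≤ ∑ k, |c k| := by
      rw [pi_norm_le_iff_of_nonneg (Finset.sum_nonneg fun k _ => abs_nonneg _)]
      intro k
      rw [Real.norm_eq_abs]
      exact Finset.single_le_sum (f := fun k => |c k|) (fun k _ => abs_nonneg _)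
        (Finset.mem_univ k)
    have hwc : ‖w‖ ≤ 2 * K * ‖c‖ := hGw (h q) (hb3 hxin) w
    have hdsu : ds u = fderiv ℝ sh (h q) w := dForm_comp_h hsh hh q u
    have hu₀ : u₀ ≤ fderiv ℝ sh (h q) w := by
      have h3 := hf2 b₀ hb₀'
      rw [hfu, hb₀', hdsu] at h3
      exact h3
    set C : ℝ := u₀ - ε / 4 * ‖c‖ with hC
    -- the bound of the selection
    have hsel : ∀ z, (j z).1 ∈ O → h ((j z).1) ∈ ball (h q) (2 * δ) →
        sel (fun z => (j z).2) h κ z w ≤ C := by
      intro z hzO hzb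
      have hx' : h ((j z).1) ∈ closedBall x₀ (3 * r) := hin _ hzb
      have h3 : sel (fun z => (j z).2) h κ z w = ∑ k, cc v (j z) k * G (h (j z).1) w k := by
        have h4 : sel (fun z => (j z).2) h κ z w =
            (show F →L[ℝ] ℝ from rr F e (j z).1 (cc v (j z)))
              (show F from mfderiv 𝓘(ℝ, F) 𝓘(ℝ, F) κ (h (j z).1) w) := by
          unfold sel
          rw [hfr.rr_cc]
        rw [h4]
        have h5 := rr_apply (F := F) (e := e) (j z).1 (cc v (j z))
          (show F from mfderiv 𝓘(ℝ, F) 𝓘(ℝ, F) κ (h (j z).1) w)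
        refine h5.trans ?_
        refine Finset.sum_congr rfl fun k _ => ?_
        rw [hGk _ ⟨(j z).1, hzO, rfl⟩]
        have h6 := mfderiv_comp_loc (h := h) (κ := κ) (hκ _ hzO) (hfr.smooth_e k)
          (hκs _ hzO) w
        exact congrArg (fun t : ℝ => cc v (j z) k * t) h6
      have h4 : ∑ k, cc v (j z) k * G (h (j z).1) w k =
          f (cc v (j z)) + ∑ k, cc v (j z) k * (G (h (j z).1) w k - c k) := by
        rw [hfc, ← Finset.sum_add_distrib]
        exact Finset.sum_congr rfl fun k _ => by ring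
      have h5 : f (cc v (j z)) ≤ u₀ - ε / 2 * ‖c‖ := by
        set b : Fin m → ℝ := fun k => ε / 2 * SignType.sign (c k) with hb
        have hbn : ‖b‖ < ε := by
          refine lt_of_le_of_lt ?_ (show ε / 2 < ε by linarith)
          rw [pi_norm_le_iff_of_nonneg (by positivity)]
          intro k
          rw [Real.norm_eq_abs, hb]
          simp only
          rw [abs_mul, abs_of_pos (show 0 < ε / 2 by positivity)]
          have h6 : |((SignType.sign (c k) : SignType) : ℝ)| ≤ 1 := by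
            rcases lt_trichotomy (c k) 0 with h | h | h
            · rw [sign_neg h]; simp
            · rw [h]; simp
            · rw [sign_pos h]; simp
          calc ε / 2 * |((SignType.sign (c k) : SignType) : ℝ)| ≤ ε / 2 * 1 := by gcongr
            _ = ε / 2 := mul_one _
        have hdz : dist (D (j z).1) (D q) < ε := by
          have h6 := (hball _ (hb3 hx')).1.1
          have h7 := (hball _ (hb3 hxin)).1.1
          rw [hκ _ hzO] at h6
          rw [hκ _ hqO] at h7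
          have h8 := dist_triangle_right (D (j z).1) (D q) (D q₀)
          linarith
        have h6 := hf1 _ (mem_Hull (v := v) hdz hbn)
        rw [map_add, hfc b] at h6
        have h7 : ∑ k, b k * c k = ε / 2 * ∑ k, |c k| := by
          rw [Finset.mul_sum]
          refine Finset.sum_congr rfl fun k _ => ?_
          rw [hb]
          simp only
          rw [mul_assoc, sign_mul_self]
        rw [h7] at h6
        have h8 : ε / 2 * ‖c‖ ≤ ε / 2 * ∑ k, |c k| := by gcongr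
        linarith
      have h6 : ∑ k, cc v (j z) k * (G (h (j z).1) w k - c k) ≤ ε / 4 * ‖c‖ := by
        have h7 : ∀ k ∈ (Finset.univ : Finset (Fin m)),
            cc v (j z) k * (G (h (j z).1) w k - c k) ≤ |M| * (θ * ‖w‖) := by
          intro k _
          refine (le_abs_self _).trans ?_
          rw [abs_mul]
          have h8 : |cc v (j z) k| ≤ |M| := by
            have h9 := norm_le_pi_norm (cc v (j z)) k
            rw [Real.norm_eq_abs] at h9
            exact h9.trans ((hM z).trans (le_abs_self M))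
          have h9 : |G (h (j z).1) w k - c k| ≤ θ * ‖w‖ := by
            have h10 : G (h (j z).1) w k - c k = (((G (h (j z).1) - G (h q)) w : Fin m → ℝ)) k := by
              simp [hc]
            rw [h10, ← Real.norm_eq_abs]
            refine (norm_le_pi_norm _ k).trans ?_
            refine ((G (h (j z).1) - G (h q)).le_opNorm w).trans ?_
            gcongr
            have h11 := hGδ _ hx' _ hxin ((mem_ball.1 hzb).trans_le hδ1)
            rw [dist_eq_norm] at h11
            exact h11.le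
          gcongr
        refine (Finset.sum_le_sum h7).trans ?_
        rw [Finset.sum_const, Finset.card_univ, Fintype.card_fin, nsmul_eq_mul]
        calc (m:ℝ) * (|M| * (θ * ‖w‖)) ≤ (m:ℝ) * (|M| * (θ * (2 * K * ‖c‖))) := by gcongr
          _ = (A * θ) * ‖c‖ := by rw [hA]; ring
          _ ≤ ε / 4 * ‖c‖ := by gcongr
      rw [h3, h4, hC]
      linarith
    have hfd : fderiv ℝ sh (h q) w ≤ C := by
      refine hsh2 (h q) w C (δ / (‖w‖ + 1)) (by positivity) ?_
      intro y hy t ht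
      rw [mem_ball] at hy
      have hseg : ∀ s ∈ Icc 0 t, y + s • w ∈ ball (h q) (2 * δ) := by
        intro s hs
        rw [mem_ball]
        have h3 : dist (y + s • w) y ≤ δ := by
          rw [dist_eq_norm, add_sub_cancel_left, norm_smul, Real.norm_eq_abs, abs_of_nonneg hs.1]
          have h4 : s ≤ δ / (‖w‖ + 1) := hs.2.trans ht.2.le
          calc s * ‖w‖ ≤ δ / (‖w‖ + 1) * (‖w‖ + 1) := by
                gcongr
                linarith
            _ = δ := div_mul_cancel₀ _ (by positivity)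
        have h4 := dist_triangle (y + s • w) y (h q)
        linarith
      have h3 := hS.line μ hh hκ hκs isOpen_ball
        (fun y hy => (hball _ (hb3 (hin y hy))).2) hsel ht.1.le hseg
      have h4 : y ∈ closedBall x₀ (3 * r) := by
        have := hseg 0 ⟨le_rfl, ht.1.le⟩
        rw [zero_smul, add_zero] at this
        exact hin _ this
      rw [hTin _ (hin _ (hseg t ⟨ht.1.le, le_rfl⟩)), hTin _ h4]
      exact h3
    have hc0 : ‖c‖ = 0 := by
      have h3 : ε / 4 * ‖c‖ ≤ 0 := by rw [hC] at hfd; linarith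
      have h4 : 0 ≤ ‖c‖ := norm_nonneg c
      nlinarith
    have hc0' : c = 0 := norm_eq_zero.1 hc0
    have hf0 : ∀ a, f a = 0 := by
      intro a
      rw [hfc, hc0']
      exact Finset.sum_eq_zero fun k _ => by rw [Pi.zero_apply, mul_zero]
    obtain ⟨z, hz⟩ := hS.surj q
    have h3 := hf1 _ (mem_Hull (v := v) (D := D) (j := j) (z := z) (q := q) (ε := ε)
      (b := (0 : Fin m → ℝ)) (by
        have hz' : (j z).1 = q := hz
        rw [hz', dist_self]; exact hε) (by rw [norm_zero]; exact hε))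
    have h4 := hf2 b₀ hb₀'
    rw [hf0] at h3 h4
    linarith

end Pool.Agent.J4H58.Arn
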