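import Mathlib
import Pool.Agent.J4H58.Arn.Swin

/-! The modified contraction. -/

open scoped Topology ContDiff Manifold
open Set Metric Bundle

noncomputable section

namespace Pool.Agent.J4H58.Arn

open Pool.Agent.Helper186

set_option linter.unusedSectionVars false

universe u

variable {E : Type u} [NormedAddCommGroup E] [NormedSpace ℝ E] [FiniteDimensional ℝ E]
  {H : Type*} [TopologicalSpace H] {I : ModelWithCorners ℝ E H} [I.Boundaryless]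
  {X : Type*} [TopologicalSpace X] [ChartedSpace H X] [IsManifold I ∞ X]
  {E' : Type*} [NormedAddCommGroup E'] [NormedSpace ℝ E'] [FiniteDimensional ℝ E']
  {H' : Type*} [TopologicalSpace H'] {J : ModelWithCorners ℝ E' H'} [J.Boundaryless]
  {N : Type*} [TopologicalSpace N] [ChartedSpace H' N] [IsManifold J ∞ N]

namespace Swindle

variable {lam : (x : X) → TangentSpace I x →L[ℝ] ℝ} {β : (x : N) → TangentSpace J x →L[ℝ] ℝ}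
  (𝒟 : Swindle I J lam β)

theorem exists_psi [T2Space X] [SigmaCompactSpace X] (hlam : SmoothForm lam)
    (hnd : ∀ (x : X) (u : TangentSpace I x), (∀ v, extDer I lam x u v = 0) → u = 0) :
    ∃ (ψ ψi : X → X) (κ : X → ℝ), ContMDiff I I ∞ ψ ∧ ContMDiff I I ∞ ψi ∧
      (∀ x, ψi (ψ x) = x) ∧ (∀ x, ψ (ψi x) = x) ∧ ContMDiff I 𝓘(ℝ, ℝ) ∞ κ ∧
      (∀ x, PB lam lam ψ 1 κ x) ∧ (∀ x, x ∉ 𝒟.WQ → ψ x = x) ∧
      (∀ x ∈ 𝒟.WQ, ψ (𝒟.F.φ (-𝒟.T) x) = 𝒟.w (𝒟.G.φ (-𝒟.T) (𝒟.w' x))) ∧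
      (∀ x ∈ 𝒟.WQ, κ (𝒟.F.φ (-𝒟.T) x) =
        𝒟.g (𝒟.w (𝒟.G.φ (-𝒟.T) (𝒟.w' x))) - Real.exp (-𝒟.T) * 𝒟.g x) := by
  -- the isotopy is Hamiltonian
  obtain ⟨hHs, hHi⟩ := isotopy_hamiltonian hlam 𝒟.D_open 𝒟.D'_open 𝒟.smooth_i 𝒟.smooth_j
    𝒟.i_j 𝒟.j_i 𝒟.smooth_k 𝒟.pb_i
  -- enlarge the time interval
  have hV : IsOpen (𝒟.D ∩ 𝒟.i ⁻¹' 𝒟.W) :=
    𝒟.smooth_i.continuousOn.isOpen_inter_preimage 𝒟.D_open 𝒟.W_open
  obtain ⟨δ, hδ, hδV⟩ := exists_delta hV 𝒟.T_pos.le 𝒟.WQ_compact (by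
    rintro ⟨s, x⟩ ⟨hs, hx⟩
    exact 𝒟.traj s hs x hx)
  have hT := 𝒟.T_pos
  -- the trajectory set
  set 𝒯 : Set (ℝ × X) := (fun p : ℝ × X => (p.1, 𝒟.i p)) '' (Icc (-δ) (𝒟.T + δ) ×ˢ 𝒟.WQ) with h𝒯
  have h𝒯c : IsCompact 𝒯 := by
    refine (isCompact_Icc.prod 𝒟.WQ_compact).image_of_continuousOn ?_
    exact continuousOn_fst.prodMk
      (𝒟.smooth_i.continuousOn.mono (fun p hp => (hδV hp).1))
  set 𝒪 : Set (ℝ × X) := 𝒟.D' ∩ (Prod.snd ⁻¹' 𝒟.W) with h𝒪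
  have h𝒪o : IsOpen 𝒪 := 𝒟.D'_open.inter (𝒟.W_open.preimage continuous_snd)
  have h𝒯𝒪 : 𝒯 ⊆ 𝒪 := by
    rintro _ ⟨⟨s, x⟩, hp, rfl⟩
    exact ⟨(𝒟.i_j s x (hδV hp).1).1, (hδV hp).2⟩
  obtain ⟨Hh, K, hHh, hK, hK𝒪, hHh1, hHh0⟩ := exists_extension h𝒯c h𝒪o h𝒯𝒪
    (hHs.mono inter_subset_left)
  obtain ⟨R, Ri, hR, hRi, hR0, hRiR, hRRi, hRH, hRu, hRid⟩ := hamiltonian_flow hlam hnd hHh hK hHh0
  have hpull := pullback_hamiltonian hlam hHh hR hR0 hRH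
  -- the trajectories
  have htraj : ∀ x ∈ 𝒟.WQ, ∀ s ∈ Ioo (-δ) (𝒟.T + δ), 𝒟.i (s, x) = R (s, 𝒟.F.φ (-𝒟.T) x) := by
    intro x hx
    have h1 := hRu (fun s => 𝒟.i (s, x)) (-δ) (𝒟.T + δ) ⟨by linarith, by linarith⟩ (by
      intro s hs
      have hsx : (s, x) ∈ 𝒟.D := (hδV ⟨⟨hs.1.le, hs.2.le⟩, hx⟩).1
      refine ⟨(contMDiffAt_slice_time 𝒟.D_open 𝒟.smooth_i hsx).mdifferentiableAt (by simp), ?_⟩
      intro v
      have h2 := (hHi s x hsx).2 v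
      refine h2.trans ?_
      have h3 : (fun y => Hh (s, y)) =ᶠ[𝓝 (𝒟.i (s, x))]
          fun y => isoHam lam 𝒟.i 𝒟.j 𝒟.k (s, y) := by
        have h4 : (s, 𝒟.i (s, x)) ∈ 𝒯 :=
          ⟨(s, x), ⟨⟨hs.1.le, hs.2.le⟩, hx⟩, rfl⟩
        have h5 : ∀ᶠ p in 𝓝 (s, 𝒟.i (s, x)), Hh p = isoHam lam 𝒟.i 𝒟.j 𝒟.k p :=
          hHh1.filter_mono (nhds_le_nhdsSet h4)
        have h6 : ContinuousAt (fun y : X => (s, y)) (𝒟.i (s, x)) := by fun_prop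
        exact h6.eventually h5
      exact (DFunLike.congr_fun (h3.mfderiv_eq (I := I) (I' := 𝓘(ℝ, ℝ))) v).symm)
    intro s hs
    have h2 := h1 s hs
    simp only [𝒟.i_zero x hx] at h2
    exact h2
  refine ⟨fun x => R (𝒟.T, x), fun x => Ri (𝒟.T, x),
    fun x => ∫ s in (0:ℝ)..𝒟.T, actionIntegrand lam Hh R (s, x), ?_, ?_, hRiR 𝒟.T, hRRi 𝒟.T,
    contMDiff_paramInt (contMDiff_actionIntegrand hlam hHh hR) 𝒟.T, ?_, ?_, ?_, ?_⟩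
  · exact hR.comp (contMDiff_const.prodMk contMDiff_id)
  · exact hRi.comp (contMDiff_const.prodMk contMDiff_id)
  · intro x u
    rw [one_mul]
    exact hpull 𝒟.T x u
  · intro x hx
    refine hRid x ?_ 𝒟.T
    intro s hsx
    exact hx (𝒟.W_sub_WQ (hK𝒪 hsx).2)
  · intro x hx
    simp only
    rw [← htraj x hx 𝒟.T ⟨by linarith, by linarith⟩, i_T]
  · intro x hx
    simp only
    have h1 : ∀ s ∈ uIcc 0 𝒟.T, actionIntegrand lam Hh R (s, 𝒟.F.φ (-𝒟.T) x) =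
        (show ℝ from dS 𝓘(ℝ, ℝ) 𝒟.k s x) := by
      intro s hs
      rw [uIcc_of_le hT.le] at hs
      have hs' : s ∈ Ioo (-δ) (𝒟.T + δ) := ⟨by linarith [hs.1], by linarith [hs.2]⟩
      have hsx : (s, x) ∈ 𝒟.D := (hδV ⟨⟨hs'.1.le, hs'.2.le⟩, hx⟩).1
      have h2 : (fun σ => R (σ, 𝒟.F.φ (-𝒟.T) x)) =ᶠ[𝓝 s] fun σ => 𝒟.i (σ, x) := by
        filter_upwards [Ioo_mem_nhds hs'.1 hs'.2] with σ hσ
        exact (htraj x hx σ hσ).symm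
      have h3 := tangentMap_congr_of_eventuallyEq (J := 𝓘(ℝ, ℝ)) (I := I)
        (v := (⟨s, (1:ℝ)⟩ : TangentBundle 𝓘(ℝ, ℝ) ℝ)) h2
      have h4 : lam (R (s, 𝒟.F.φ (-𝒟.T) x)) (dS I R s (𝒟.F.φ (-𝒟.T) x)) =
        lam (𝒟.i (s, x)) (dS I 𝒟.i s x) := form_congr lam h3
      have h5 : Hh (s, R (s, 𝒟.F.φ (-𝒟.T) x)) = isoHam lam 𝒟.i 𝒟.j 𝒟.k (s, 𝒟.i (s, x)) := by
        rw [← htraj x hx s hs']
        have h4 : (s, 𝒟.i (s, x)) ∈ 𝒯 :=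
          ⟨(s, x), ⟨⟨hs'.1.le, hs'.2.le⟩, hx⟩, rfl⟩
        exact (hHh1.filter_mono (nhds_le_nhdsSet h4)).self_of_nhds
      unfold actionIntegrand
      simp only
      rw [h4, h5, (hHi s x hsx).1]
      ring
    rw [intervalIntegral.integral_congr (g := fun s => (show ℝ from dS 𝓘(ℝ, ℝ) 𝒟.k s x))
      (fun s hs => h1 s hs)]
    have h6 : ∀ s ∈ uIcc 0 𝒟.T, (s, x) ∈ 𝒟.D := by
      intro s hs
      rw [uIcc_of_le hT.le] at hs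
      exact (𝒟.traj s hs x hx).1
    have h7 : ∀ s ∈ uIcc 0 𝒟.T, HasDerivAt (fun σ => 𝒟.k (σ, x))
        (show ℝ from dS 𝓘(ℝ, ℝ) 𝒟.k s x) s := by
      intro s hs
      have h8 := contMDiffAt_slice_time 𝒟.D_open 𝒟.smooth_k (h6 s hs)
      have h9 : DifferentiableAt ℝ (fun σ => 𝒟.k (σ, x)) s :=
        mdifferentiableAt_iff_differentiableAt.1 (h8.mdifferentiableAt (by simp))
      have h10 : (show ℝ from dS 𝓘(ℝ, ℝ) 𝒟.k s x) = deriv (fun σ => 𝒟.k (σ, x)) s := by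
        unfold dS
        rw [mfderiv_eq_fderiv]
        rfl
      rw [h10]
      exact h9.hasDerivAt
    have h8 : IntervalIntegrable (fun s => (show ℝ from dS 𝓘(ℝ, ℝ) 𝒟.k s x))
        MeasureTheory.volume 0 𝒟.T := by
      apply ContinuousOn.intervalIntegrable
      intro s hs
      have h9 : ContMDiffAt (𝓘(ℝ, ℝ).prod I) 𝓘(ℝ, ℝ) ∞
        (fun q : ℝ × X => (show ℝ from dS 𝓘(ℝ, ℝ) 𝒟.k q.1 q.2)) (s, x) :=
        contMDiffAt_dS_real 𝒟.D_open 𝒟.smooth_k (h6 s hs)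
      have h10 : ContinuousAt (fun s => (show ℝ from dS 𝓘(ℝ, ℝ) 𝒟.k s x)) s :=
        ContinuousAt.comp (g := fun q : ℝ × X => (show ℝ from dS 𝓘(ℝ, ℝ) 𝒟.k q.1 q.2))
          (f := fun s => (s, x)) h9.continuousAt (by fun_prop)
      exact h10.continuousWithinAt
    rw [intervalIntegral.integral_eq_sub_of_hasDerivAt h7 h8]
    simp only [k]
    rw [neg_zero, 𝒟.G.zero, 𝒟.w_w' _ hx.1, sub_self, Real.exp_zero, zero_sub]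
    ring

end Swindle

end Pool.Agent.J4H58.Arn
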