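import Mathlib
import Pool.Agent.Helper186.LocDiffeo
import Pool.Agent.Helper186.Tube

/-! Extension of smooth functions from compact embedded submanifolds. -/

open scoped Topology ContDiff Manifold
open Set Metric Bundle

noncomputable section

namespace Pool.Agent.J4H58.Arn

open Pool.Agent.Helper186

set_option linter.unusedSectionVars false

universe u

variable {F : Type*} [NormedAddCommGroup F] [NormedSpace ℝ F] [FiniteDimensional ℝ F]
  {L : Type*} [TopologicalSpace L] [ChartedSpace F L] [IsManifold 𝓘(ℝ, F) ∞ L]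
  {E : Type u} [NormedAddCommGroup E] [NormedSpace ℝ E] [FiniteDimensional ℝ E]
  {H : Type*} [TopologicalSpace H] {I : ModelWithCorners ℝ E H} [I.Boundaryless]
  {X : Type*} [TopologicalSpace X] [ChartedSpace H X] [IsManifold I ∞ X]

/-- A local coordinate system given by a globally defined function. -/
lemma exists_local_coord_at [T2Space X] (x₀ : X) : ∃ g : X → E, ContMDiff I 𝓘(ℝ, E) ∞ g ∧
    Function.Injective (mfderiv I 𝓘(ℝ, E) g x₀) := by
  obtain ⟨g, hg, h⟩ := exists_local_coord (I := I) x₀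
  exact ⟨g, hg, h.self_of_nhds⟩

/-- Smooth functions on a compact embedded submanifold extend. -/
theorem exists_extend [T2Space X] [SigmaCompactSpace X] [CompactSpace L]
    {ι : L → X} (hι : ContMDiff 𝓘(ℝ, F) I ∞ ι) (hιe : Topology.IsEmbedding ι)
    (hιimm : ∀ q, Function.Injective (mfderiv 𝓘(ℝ, F) I ι q))
    {f₀ : L → ℝ} (hf₀ : ContMDiff 𝓘(ℝ, F) 𝓘(ℝ, ℝ) ∞ f₀) :
    ∃ f : X → ℝ, ContMDiff I 𝓘(ℝ, ℝ) ∞ f ∧ ∀ q, f (ι q) = f₀ q := by
  have hK : IsCompact (range ι) := isCompact_range hι.continuous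
  obtain ⟨g, hg⟩ := exists_contMDiffMap_forall_mem_convex_of_local (n := ⊤) I (M := X) (F := ℝ)
    (t := fun x => {v | ∀ q, ι q = x → v = f₀ q}) (by
      intro x a ha b hb s t _ _ hst q hq
      have h1 := ha q hq
      have h2 := hb q hq
      rw [h1, h2, ← add_smul, hst, one_smul]) (by
    intro x
    by_cases hx : x ∈ range ι
    · obtain ⟨q, rfl⟩ := hx
      obtain ⟨g, hg, hgi⟩ := exists_local_coord_at (I := I) (ι q)
      -- left inverse of the derivative
      let A : F →L[ℝ] E := (show E →L[ℝ] E from mfderiv I 𝓘(ℝ, E) g (ι q)).comp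
        (show F →L[ℝ] E from mfderiv 𝓘(ℝ, F) I ι q)
      have hA : Function.Injective A := hgi.comp (hιimm q)
      obtain ⟨B₀, hB₀⟩ := LinearMap.exists_leftInverse_of_injective (A : F →ₗ[ℝ] E)
        (LinearMap.ker_eq_bot.2 hA)
      let B : E →L[ℝ] F := LinearMap.toContinuousLinearMap B₀
      have hBA : ∀ v, B (A v) = v := fun v => LinearMap.congr_fun hB₀ v
      let u : L → F := fun z => B (g (ι z))
      have hBg : ContMDiff I 𝓘(ℝ, F) ∞ (fun x => B (g x)) := B.contMDiff.comp hg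
      have hu : ContMDiff 𝓘(ℝ, F) 𝓘(ℝ, F) ∞ u := hBg.comp hι
      have hud : Function.Injective (mfderiv 𝓘(ℝ, F) 𝓘(ℝ, F) u q) := by
        have h1 : mfderiv 𝓘(ℝ, F) 𝓘(ℝ, F) u q =
            (mfderiv I 𝓘(ℝ, F) (fun x => B (g x)) (ι q)).comp (mfderiv 𝓘(ℝ, F) I ι q) :=
          mfderiv_comp q (hBg.mdifferentiableAt (by simp)) (hι.mdifferentiableAt (by simp))
        have h2 : mfderiv I 𝓘(ℝ, F) (fun x => B (g x)) (ι q) =
            (mfderiv 𝓘(ℝ, E) 𝓘(ℝ, F) B (g (ι q))).comp (mfderiv I 𝓘(ℝ, E) g (ι q)) :=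
          mfderiv_comp (ι q) ((B.contMDiff (n := ∞)).mdifferentiableAt (by simp))
            (hg.mdifferentiableAt (by simp))
        have h3 : mfderiv 𝓘(ℝ, E) 𝓘(ℝ, F) B (g (ι q)) = B := by
          rw [mfderiv_eq_fderiv]; exact B.fderiv
        have h4 : ∀ v : F, (show F from mfderiv 𝓘(ℝ, F) 𝓘(ℝ, F) u q v) = v := by
          intro v
          have h5 := DFunLike.congr_fun h1 v
          refine h5.trans ?_
          have h6 := DFunLike.congr_fun h2 (mfderiv 𝓘(ℝ, F) I ι q v)
          refine h6.trans ?_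
          have h7 := DFunLike.congr_fun h3 (A v)
          exact h7.trans (hBA v)
        intro a b hab
        have h5 := h4 a
        have h6 := h4 b
        exact h5.symm.trans (hab.trans h6)
      obtain ⟨S, v, hSo, hqS, hvu, hopen, hvs⟩ := local_inverse hu hud rfl
      obtain ⟨O', hO', hO'S⟩ := hιe.isInducing.isOpen_iff.1 hSo
      have hUo : IsOpen ((fun x => B (g x)) ⁻¹' (u '' S)) :=
        (hopen S subset_rfl hSo).preimage hBg.continuous
      refine ⟨O' ∩ (fun x => B (g x)) ⁻¹' (u '' S), (hO'.inter hUo).mem_nhds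
        ⟨?_, ⟨q, hqS, rfl⟩⟩, fun x => f₀ (v (B (g x))), ?_, ?_⟩
      · have : q ∈ ι ⁻¹' O' := by rw [hO'S]; exact hqS
        exact this
      · rintro y ⟨-, ζ, hζ, hζy⟩
        apply ContMDiffAt.contMDiffWithinAt
        have h1 : ContMDiffAt 𝓘(ℝ, F) 𝓘(ℝ, F) ∞ v (B (g y)) := by
          have h2 := hvs ζ hζ
          have h3 : u ζ = B (g y) := hζy
          rwa [h3] at h2
        exact (hf₀ _).comp y (h1.comp y (hBg y))
      · rintro y ⟨hy, -⟩ z hz
        have h1 : z ∈ S := by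
          rw [← hO'S]; show ι z ∈ O'; rw [hz]; exact hy
        show f₀ (v (B (g y))) = f₀ z
        have h2 : v (u z) = z := hvu z h1
        have h3 : u z = B (g y) := by show B (g (ι z)) = _; rw [hz]
        rw [← h3, h2]
    · refine ⟨(range ι)ᶜ, hK.isClosed.isOpen_compl.mem_nhds hx, fun _ => 0, contMDiffOn_const, ?_⟩
      intro y hy q hq
      exact absurd ⟨q, hq⟩ hy)
  exact ⟨g, g.contMDiff, fun q => hg (ι q) q rfl⟩

end Pool.Agent.J4H58.Arn
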