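import Mathlib
import Pool.Agent.J4H58.Arn.Equiv
import Pool.Agent.J4H58.Arn.Cot2
import Pool.Agent.J4H58.Arn.Ext

/-! The criterion. -/

open scoped Topology ContDiff Manifold
open Set Metric Bundle

noncomputable section

namespace Pool.Agent.J4H58.Arn

open Pool.Agent.Helper186

set_option linter.unusedSectionVars false

universe u

variable {F : Type u} [NormedAddCommGroup F] [NormedSpace ℝ F] [FiniteDimensional ℝ F]
  {N : Type*} [TopologicalSpace N] [ChartedSpace F N] [IsManifold 𝓘(ℝ, F) ∞ N]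
  {L : Type*} [TopologicalSpace L] [ChartedSpace F L] [IsManifold 𝓘(ℝ, F) ∞ L]

/-- Weinstein charts of the Lagrangian embedding `ι`. -/
structure WChart (ι : L → Cotangent F N) (O : Set (Cotangent F L))
    (w : Cotangent F L → Cotangent F N) : Prop where
  isOpen : IsOpen O
  zero_mem : ∀ q, zeroC q ∈ O
  star : ∀ s ∈ Icc (0:ℝ) 1, MapsTo (scal s) O O
  smooth : ContMDiffOn (IC F) (IC F) ∞ w O
  open_image : IsOpen (w '' O)
  inverse : ∃ w' : Cotangent F N → Cotangent F L, ContMDiffOn (IC F) (IC F) ∞ w' (w '' O) ∧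
    ∀ ξ ∈ O, w' (w ξ) = ξ
  exact : ∃ g : Cotangent F L → ℝ, ContMDiffOn (IC F) 𝓘(ℝ, ℝ) ∞ g O ∧
    ∀ ξ ∈ O, PB canForm canForm w 1 g ξ
  zero : ∀ q, w (zeroC q) = ι q

/-- star-shaped open neighbourhoods of the zero section -/
structure StarNhd (V : Set (Cotangent F N)) : Prop where
  isOpen : IsOpen V
  zero_mem : ∀ q, zeroC q ∈ V
  star : ∀ s ∈ Icc (0:ℝ) 1, MapsTo (scal s) V V

lemma exp_neg_mem (r : ℝ) (hr : 0 ≤ r) : Real.exp (-r) ∈ Icc (0:ℝ) 1 :=
  ⟨(Real.exp_pos _).le, Real.exp_le_one_iff.2 (by linarith)⟩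

/-- contraction of compact sets into an open set containing the zero section -/
lemma exists_contract' {U C : Set (Cotangent F L)} (hU : IsOpen U)
    (h0 : ∀ q, zeroC q ∈ U) (hC : IsCompact C) :
    ∃ s₀ : ℝ, 0 ≤ s₀ ∧ ∀ r ≥ s₀, ∀ ξ ∈ C, scal (Real.exp (-r)) ξ ∈ U := by
  obtain ⟨s₀, h1, h2⟩ := exists_contract (Q := U) (C := C)
    (by rw [hU.interior_eq]; exact h0) hC
  rw [hU.interior_eq] at h2
  exact ⟨s₀, h1, h2⟩

theorem main₀ [T2Space N] [CompactSpace N] [T2Space L] [CompactSpace L]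
    {ι : L → Cotangent F N} {O : Set (Cotangent F L)} {w : Cotangent F L → Cotangent F N}
    (hw : WChart ι O w) {V : Set (Cotangent F N)} (hV : StarNhd V)
    (hιV : range ι ⊆ V) (hVw : V ⊆ w '' O) :
    ∃ (Φ : Diffeomorph (IC F) (IC F) (Cotangent F N) (Cotangent F L) ∞)
      (f : Cotangent F N → ℝ), ContMDiff (IC F) 𝓘(ℝ, ℝ) ∞ f ∧
      (∀ x, PB canForm canForm Φ 1 f x) ∧ ∀ q, Φ (ι q) = zeroC q := by
  obtain ⟨w', hw's, hw'w⟩ := hw.inverse
  obtain ⟨g, hg, hgpb⟩ := hw.exact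
  set A := w '' O with hA
  have hw'maps : MapsTo w' A O := by
    rintro _ ⟨ξ, hξ, rfl⟩
    rw [hw'w ξ hξ]
    exact hξ
  have hww' : ∀ x ∈ A, w (w' x) = x := by
    rintro _ ⟨ξ, hξ, rfl⟩
    rw [hw'w ξ hξ]
  have hι : range ι = w '' range (zeroC : L → Cotangent F L) := by
    rw [← range_comp]
    congr 1
    ext1 q
    exact (hw.zero q).symm
  have hιc : IsCompact (range ι) := by
    rw [hι]
    refine isCompact_range_zeroC.image_of_continuousOn (hw.smooth.continuousOn.mono ?_)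
    rintro _ ⟨q, rfl⟩
    exact hw.zero_mem q
  -- shrink `V`
  obtain ⟨Q₁, hQ₁c, hQ₁V, hQ₁C, hQ₁s⟩ := exists_starshaped' hV.isOpen
    (starHull_compact (hιc.union (isCompact_range_zeroC (F := F) (L := N)))) starHull_star (by
      rintro _ ⟨⟨s, ξ⟩, ⟨hs, hξ⟩, rfl⟩
      refine hV.star s hs ?_
      rcases hξ with hξ | ⟨q, rfl⟩
      · exact hιV hξ
      · exact hV.zero_mem q)
  have hQ₁0 : ∀ q, zeroC q ∈ interior Q₁ := fun q =>
    hQ₁C (subset_starHull (Or.inr ⟨q, rfl⟩))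
  have hιQ₁ : ∀ q, ι q ∈ interior Q₁ := fun q =>
    hQ₁C (subset_starHull (Or.inl ⟨q, rfl⟩))
  -- the compact star-shaped set in `O`
  have hC₁ : IsCompact (w' '' Q₁) :=
    hQ₁c.image_of_continuousOn (hw's.continuousOn.mono (hQ₁V.trans hVw))
  obtain ⟨Q, hQc, hQO, hQC, hQs⟩ := exists_starshaped' hw.isOpen
    (starHull_compact (hC₁.union (isCompact_range_zeroC (F := F) (L := L)))) starHull_star (by
      rintro _ ⟨⟨s, ξ⟩, ⟨hs, hξ⟩, rfl⟩
      refine hw.star s hs ?_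
      rcases hξ with ⟨x, hx, rfl⟩ | ⟨q, rfl⟩
      · exact hw'maps (hVw (hQ₁V hx))
      · exact hw.zero_mem q)
  have hQ0 : ∀ q, zeroC q ∈ interior Q := fun q =>
    hQC (subset_starHull (Or.inr ⟨q, rfl⟩))
  have hQw : ∀ x ∈ Q₁, w' x ∈ interior Q := fun x hx =>
    hQC (subset_starHull (Or.inl ⟨x, hx, rfl⟩))
  -- contraction times
  have hwQ : IsCompact (w '' Q) :=
    hQc.image_of_continuousOn (hw.smooth.continuousOn.mono hQO)
  obtain ⟨T₀, hT₀, hT₀C⟩ := exists_contract hQ₁0 hwQ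
  have hU : IsOpen (O ∩ w ⁻¹' interior Q₁) :=
    hw.smooth.continuousOn.isOpen_inter_preimage hw.isOpen isOpen_interior
  obtain ⟨s₀, hs₀, hs₀C⟩ := exists_contract' hU (fun q => ⟨hw.zero_mem q, by
    show w (zeroC q) ∈ interior Q₁
    rw [hw.zero]; exact hιQ₁ q⟩) hQc
  -- the form
  have hform : ∀ x ∈ A, PB canForm canForm w' 1 (fun x => - (g ∘ w') x) x := by
    rintro _ ⟨ξ, hξ, rfl⟩
    have hw'd : MDifferentiableAt (IC F) (IC F) w' (w ξ) :=
      (hw's.contMDiffAt (hw.open_image.mem_nhds ⟨ξ, hξ, rfl⟩)).mdifferentiableAt (by simp)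
    have h1 : PB canForm canForm w 1 (fun ζ => - (- g ζ)) (w' (w ξ)) := by
      rw [hw'w ξ hξ]
      simp only [neg_neg]
      exact hgpb ξ hξ
    have hgd : MDifferentiableAt (IC F) 𝓘(ℝ, ℝ) g (w' (w ξ)) := by
      rw [hw'w ξ hξ]
      exact (hg.contMDiffAt (hw.isOpen.mem_nhds hξ)).mdifferentiableAt (by simp)
    have hwd : MDifferentiableAt (IC F) (IC F) w (w' (w ξ)) := by
      rw [hw'w ξ hξ]
      exact (hw.smooth.contMDiffAt (hw.isOpen.mem_nhds hξ)).mdifferentiableAt (by simp)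
    exact PB.inv (w' := w) (w := w') (g := fun ζ => - g ζ) (ξ := w ξ) h1 (by
      filter_upwards [hw.open_image.mem_nhds ⟨ξ, hξ, rfl⟩] with x hx
      exact hww' x hx) hw'd hwd hgd.neg
  let 𝒟 : Swindle (IC F) (IC F) (canForm : (ξ : Cotangent F N) → _)
      (canForm : (ξ : Cotangent F L) → _) :=
    { F := cotFlow F N
      G := cotFlow F L
      w := w
      w' := w'
      O := O
      A := A
      B := interior Q₁
      Q := Q
      g := g ∘ w'
      T₀ := T₀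
      s₀ := s₀
      O_open := hw.isOpen
      A_open := hw.open_image
      w_maps := fun ξ hξ => ⟨ξ, hξ, rfl⟩
      w'_maps := hw'maps
      w'_w := hw'w
      w_w' := hww'
      w_smooth := hw.smooth
      w'_smooth := hw's
      g_smooth := hg.comp hw's hw'maps
      w'_form := hform
      B_sub := fun x hx => ⟨hVw (hQ₁V (interior_subset hx)), hQw x (interior_subset hx)⟩
      B_inv := fun r hr => interior_star hQ₁s hQ₁0 _ (exp_neg_mem r hr)
      Q_compact := hQc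
      Q_sub := hQO
      Q_inv := fun r hr => hQs _ (exp_neg_mem r hr)
      T₀_nonneg := hT₀
      T₀_spec := fun r hr ξ hξ => hT₀C r hr _ ⟨ξ, hξ, rfl⟩
      s₀_nonneg := hs₀
      s₀_spec := fun r hr ξ hξ => (hs₀C r hr ξ hξ).2
      absorb := fun x => by
        obtain ⟨s, _, hs⟩ := exists_contract hQ₁0 (isCompact_singleton (x := x))
        exact ⟨s, fun t ht => hs t ht x rfl⟩
      absorb' := fun ξ => by
        obtain ⟨s, _, hs⟩ := exists_contract hQ0 (isCompact_singleton (x := ξ))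
        exact ⟨s, fun t ht => hs t ht ξ rfl⟩ }
  obtain ⟨Φ, f, hf, hΦ, hΦw⟩ := 𝒟.equiv smoothForm_canForm nondeg_canForm
  refine ⟨Φ, f, hf, hΦ, fun q => ?_⟩
  have h1 : ι q ∈ 𝒟.W := 𝒟.B_sub_W (hιQ₁ q)
  rw [hΦw _ h1]
  show w' (ι q) = zeroC q
  rw [← hw.zero q]
  exact hw'w _ (hw.zero_mem q)

end Pool.Agent.J4H58.Arn
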