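import Mathlib
import Pool.Agent.J4H58.Arn.Main

/-! Exact symplectic diffeomorphisms of cotangent bundles, Weinstein charts. -/

open scoped Topology ContDiff Manifold
open Set Metric Bundle

noncomputable section

namespace Pool.Agent.J4H58.Arn

open Pool.Agent.Helper186

set_option linter.unusedSectionVars false

universe u

variable {F : Type u} [NormedAddCommGroup F] [NormedSpace ℝ F] [FiniteDimensional ℝ F]
  {N : Type*} [TopologicalSpace N] [ChartedSpace F N] [IsManifold 𝓘(ℝ, F) ∞ N]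
  {L : Type*} [TopologicalSpace L] [ChartedSpace F L] [IsManifold 𝓘(ℝ, F) ∞ L]
  {M : Type*} [TopologicalSpace M] [ChartedSpace F M] [IsManifold 𝓘(ℝ, F) ∞ M]

/-- `Φ^* λ = c λ + df`. -/
def CSymp (c : ℝ) (Φ : Cotangent F L → Cotangent F N) : Prop :=
  ContMDiff (IC F) (IC F) ∞ Φ ∧ ∃ f : Cotangent F L → ℝ, ContMDiff (IC F) 𝓘(ℝ, ℝ) ∞ f ∧
    ∀ x, PB canForm canForm Φ c f x

lemma CSymp.comp {c c' : ℝ} {Φ : Cotangent F L → Cotangent F N} {Ψ : Cotangent F N → Cotangent F M}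
    (hΨ : CSymp c' Ψ) (hΦ : CSymp c Φ) : CSymp (c' * c) (Ψ ∘ Φ) := by
  obtain ⟨h1, f, hf, hΦ⟩ := hΦ
  obtain ⟨h2, g, hg, hΨ⟩ := hΨ
  refine ⟨h2.comp h1, fun x => c' * f x + g (Φ x), (contMDiff_const.mul hf).add (hg.comp h1),
    fun x => ?_⟩
  exact PB.comp (hΨ _) (hΦ x) (h1.mdifferentiableAt (by simp)) (h2.mdifferentiableAt (by simp))
    (hf.mdifferentiableAt (by simp)) (hg.mdifferentiableAt (by simp))

lemma CSymp.inv {Φ : Cotangent F L → Cotangent F N} {Ψ : Cotangent F N → Cotangent F L}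
    (hΦ : CSymp 1 Φ) (hΨ : ContMDiff (IC F) (IC F) ∞ Ψ) (hΦΨ : ∀ x, Φ (Ψ x) = x)
    (_hΨΦ : ∀ x, Ψ (Φ x) = x) : CSymp 1 Ψ := by
  obtain ⟨h1, f, hf, hΦ⟩ := hΦ
  refine ⟨hΨ, fun x => - f (Ψ x), (hf.comp hΨ).neg, fun x => ?_⟩
  have h2 : PB canForm canForm Φ 1 (fun ζ => - (- f ζ)) (Ψ x) := by
    simp only [neg_neg]; exact hΦ _
  exact PB.inv (w' := Φ) (w := Ψ) (g := fun ζ => - f ζ) (ξ := x) h2
    (Filter.Eventually.of_forall hΦΨ) (hΨ.mdifferentiableAt (by simp))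
    (h1.mdifferentiableAt (by simp)) (hf.neg.mdifferentiableAt (by simp))

lemma CSymp_scal (r : ℝ) : CSymp r (scal r : Cotangent F L → Cotangent F L) := by
  refine ⟨contMDiff_scal_slice r, fun _ => 0, contMDiff_const, fun x u => ?_⟩
  rw [canForm_scal]
  have h1 : mfderiv (IC F) 𝓘(ℝ, ℝ) (fun _ : Cotangent F L => (0:ℝ)) x = 0 := mfderiv_const
  have h2 : (show ℝ from mfderiv (IC F) 𝓘(ℝ, ℝ) (fun _ : Cotangent F L => (0:ℝ)) x u) = 0 :=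
    DFunLike.congr_fun h1 u
  rw [h2, add_zero]

lemma CSymp_transl {S : N → ℝ} (hS : ContMDiff 𝓘(ℝ, F) 𝓘(ℝ, ℝ) ∞ S) :
    CSymp 1 (transl S : Cotangent F N → Cotangent F N) :=
  ⟨contMDiff_transl hS, fun ξ => S ξ.1, hS.comp contMDiff_projC, PB_transl hS⟩

/-- A symplectic diffeomorphism preserves the canonical symplectic form. -/
lemma CSymp.extDer {Φ : Cotangent F L → Cotangent F N} (hΦ : CSymp 1 Φ) (ξ : Cotangent F L)
    (u v : TangentSpace (IC F) ξ) :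
    extDer (IC F) (canForm : (ξ : Cotangent F N) → _) (Φ ξ) (mfderiv (IC F) (IC F) Φ ξ u)
      (mfderiv (IC F) (IC F) Φ ξ v) = extDer (IC F) (canForm : (ξ : Cotangent F L) → _) ξ u v := by
  obtain ⟨h1, f, hf, hΦ⟩ := hΦ
  have hpf : pullForm (IC F) (IC F) Φ (canForm : (ξ : Cotangent F N) → _) =
      fun η => canForm η + dForm (IC F) f η := by
    ext1 η
    refine ContinuousLinearMap.ext fun v => ?_
    have h1 := hΦ η v
    rw [one_mul] at h1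
    exact h1
  rw [← extDer_pull h1 smoothForm_canForm, hpf,
    extDer_add smoothForm_canForm (smoothForm_dForm hf), extDer_dForm hf, add_zero]

/-! ### Cotangent lifts -/

/-- The cotangent lift of a diffeomorphism. -/
def lift (θ : Diffeomorph 𝓘(ℝ, F) 𝓘(ℝ, F) N L ∞) (ξ : Cotangent F N) : Cotangent F L :=
  ⟨θ ξ.1, (show TangentSpace 𝓘(ℝ, F) ξ.1 →L[ℝ] ℝ from ξ.2).comp
    (show TangentSpace 𝓘(ℝ, F) (θ ξ.1) →L[ℝ] TangentSpace 𝓘(ℝ, F) ξ.1 from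
      (show F →L[ℝ] F from mfderiv 𝓘(ℝ, F) 𝓘(ℝ, F) θ.symm (θ ξ.1)))⟩

lemma contMDiff_lift (θ : Diffeomorph 𝓘(ℝ, F) 𝓘(ℝ, F) N L ∞) :
    ContMDiff (IC F) (IC F) ∞ (lift θ) := by
  intro ξ₀
  have hθp : ContMDiff (IC F) 𝓘(ℝ, F) ∞ (fun ξ : Cotangent F N => θ ξ.1) :=
    θ.contMDiff.comp contMDiff_projC
  refine contMDiffAt_cot_of_pairing (b := fun ξ : Cotangent F N => θ ξ.1)
    (θ := fun ξ => (lift θ ξ).2) (hθp ξ₀) ?_
  intro v hv
  have h1 : ContMDiff 𝓘(ℝ, F).tangent 𝓘(ℝ, F).tangent ∞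
      (tangentMap 𝓘(ℝ, F) 𝓘(ℝ, F) θ.symm) := θ.symm.contMDiff.contMDiff_tangentMap (by simp)
  have h2 := (h1 _).comp ξ₀ hv
  have h3 : (fun ξ : Cotangent F N => (⟨ξ.1, (show F from mfderiv 𝓘(ℝ, F) 𝓘(ℝ, F) θ.symm (θ ξ.1)
      (v ξ))⟩ : TangentBundle 𝓘(ℝ, F) N)) =
      (tangentMap 𝓘(ℝ, F) 𝓘(ℝ, F) θ.symm) ∘ (fun ξ : Cotangent F N =>
        (⟨θ ξ.1, v ξ⟩ : TangentBundle 𝓘(ℝ, F) L)) := by
    ext1 ξ
    refine TotalSpace.ext ?_ ?_
    · exact (θ.symm_apply_apply ξ.1).symm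
    · exact HEq.rfl
  rw [← h3] at h2
  exact contMDiffAt_cot_pairing (J := IC F) (f := fun ξ : Cotangent F N => ξ)
    (v := fun ξ => (show F from mfderiv 𝓘(ℝ, F) 𝓘(ℝ, F) θ.symm (θ ξ.1) (v ξ)))
    contMDiffAt_id h2

lemma lift_zeroC (θ : Diffeomorph 𝓘(ℝ, F) 𝓘(ℝ, F) N L ∞) (q : N) :
    lift θ (zeroC q) = zeroC (θ q) := rfl

lemma lift_symm_lift (θ : Diffeomorph 𝓘(ℝ, F) 𝓘(ℝ, F) N L ∞) (ξ : Cotangent F N) :
    lift θ.symm (lift θ ξ) = ξ := by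
  obtain ⟨q, p⟩ := ξ
  have h1 : θ.symm (θ q) = q := θ.symm_apply_apply q
  have h3 : ∀ v : F, (show F from mfderiv 𝓘(ℝ, F) 𝓘(ℝ, F) θ.symm (θ q)
      (show F from mfderiv 𝓘(ℝ, F) 𝓘(ℝ, F) θ q v)) = v := by
    intro v
    have h4 := DFunLike.congr_fun (mfderiv_comp (I := 𝓘(ℝ, F)) (I' := 𝓘(ℝ, F))
      (I'' := 𝓘(ℝ, F)) q (θ.symm.contMDiff.mdifferentiableAt (by simp) (x := θ q))
      (θ.contMDiff.mdifferentiableAt (by simp) (x := q))) v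
    have h5 : (θ.symm : L → N) ∘ θ = id := by ext1 x; exact θ.symm_apply_apply x
    rw [h5, mfderiv_id] at h4
    exact h4.symm
  have h2 : ∀ (z : N), z = q → ∀ v : F,
      (show F →L[ℝ] ℝ from p) (show F from mfderiv 𝓘(ℝ, F) 𝓘(ℝ, F) θ.symm (θ q)
        (show F from mfderiv 𝓘(ℝ, F) 𝓘(ℝ, F) θ z v)) = (show F →L[ℝ] ℝ from p) v := by
    rintro z rfl v
    rw [h3]
  have key : ∀ (z : N), z = q → ∀ r : F →L[ℝ] ℝ, r = (show F →L[ℝ] ℝ from p) →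
      (⟨z, r⟩ : Cotangent F N) = ⟨q, p⟩ := by
    rintro z rfl r rfl; rfl
  refine key _ h1 _ (ContinuousLinearMap.ext fun v => ?_)
  exact h2 _ h1 v

/-- The lift as a diffeomorphism. -/
def liftD (θ : Diffeomorph 𝓘(ℝ, F) 𝓘(ℝ, F) N L ∞) :
    Diffeomorph (IC F) (IC F) (Cotangent F N) (Cotangent F L) ∞ where
  toFun := lift θ
  invFun := lift θ.symm
  left_inv := lift_symm_lift θ
  right_inv := fun ξ => lift_symm_lift θ.symm ξ
  contMDiff_toFun := contMDiff_lift θ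
  contMDiff_invFun := contMDiff_lift θ.symm

lemma CSymp_lift (θ : Diffeomorph 𝓘(ℝ, F) 𝓘(ℝ, F) N L ∞) : CSymp 1 (lift θ) := by
  refine ⟨contMDiff_lift θ, fun _ => 0, contMDiff_const, fun ξ u => ?_⟩
  have h0 : mfderiv (IC F) 𝓘(ℝ, ℝ) (fun _ : Cotangent F N => (0:ℝ)) ξ = 0 := mfderiv_const
  have h0' : (show ℝ from mfderiv (IC F) 𝓘(ℝ, ℝ) (fun _ : Cotangent F N => (0:ℝ)) ξ u) = 0 :=
    DFunLike.congr_fun h0 u
  rw [h0', add_zero, one_mul]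
  have h1 := DFunLike.congr_fun (mfderiv_comp (I := IC F) (I' := IC F) (I'' := 𝓘(ℝ, F)) ξ
    (contMDiff_projC.mdifferentiableAt (by simp) (x := lift θ ξ))
    ((contMDiff_lift θ).mdifferentiableAt (by simp) (x := ξ))) u
  have h2 : ((TotalSpace.proj : Cotangent F L → L) ∘ lift θ) =
    θ ∘ (TotalSpace.proj : Cotangent F N → N) := rfl
  rw [h2] at h1
  have h3 := DFunLike.congr_fun (mfderiv_comp (I := IC F) (I' := 𝓘(ℝ, F)) (I'' := 𝓘(ℝ, F)) ξ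
    (θ.contMDiff.mdifferentiableAt (by simp) (x := ξ.1))
    (contMDiff_projC.mdifferentiableAt (by simp) (x := ξ))) u
  have h5 : ∀ v : F, (show F from mfderiv 𝓘(ℝ, F) 𝓘(ℝ, F) θ.symm (θ ξ.1)
      (show F from mfderiv 𝓘(ℝ, F) 𝓘(ℝ, F) θ ξ.1 v)) = v := by
    intro v
    have h4 := DFunLike.congr_fun (mfderiv_comp (I := 𝓘(ℝ, F)) (I' := 𝓘(ℝ, F))
      (I'' := 𝓘(ℝ, F)) ξ.1 (θ.symm.contMDiff.mdifferentiableAt (by simp) (x := θ ξ.1))
      (θ.contMDiff.mdifferentiableAt (by simp) (x := ξ.1))) v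
    have h5 : (θ.symm : L → N) ∘ θ = id := by ext1 x; exact θ.symm_apply_apply x
    rw [h5, mfderiv_id] at h4
    exact h4.symm
  have h6 : (show F from mfderiv (IC F) 𝓘(ℝ, F) (TotalSpace.proj : Cotangent F L → L) (lift θ ξ)
      (mfderiv (IC F) (IC F) (lift θ) ξ u)) =
      (show F from mfderiv 𝓘(ℝ, F) 𝓘(ℝ, F) θ ξ.1
        (mfderiv (IC F) 𝓘(ℝ, F) (TotalSpace.proj : Cotangent F N → N) ξ u)) :=
    h1.symm.trans h3
  show (show F →L[ℝ] ℝ from ξ.2) (show F from mfderiv 𝓘(ℝ, F) 𝓘(ℝ, F) θ.symm (θ ξ.1)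
    (show F from mfderiv (IC F) 𝓘(ℝ, F) (TotalSpace.proj : Cotangent F L → L) (lift θ ξ)
      (mfderiv (IC F) (IC F) (lift θ) ξ u))) = _
  rw [h6, h5]
  rfl

/-! ### Weinstein charts -/

/-- Moving a Weinstein chart by an exact symplectic diffeomorphism. -/
lemma WChart.comp {ι : L → Cotangent F N} {O : Set (Cotangent F L)}
    {w : Cotangent F L → Cotangent F N} (hw : WChart ι O w)
    (ψ : Diffeomorph (IC F) (IC F) (Cotangent F N) (Cotangent F M) ∞) (hψ : CSymp 1 ψ) :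
    WChart (ψ ∘ ι) O (ψ ∘ w) := by
  obtain ⟨w', hw's, hw'w⟩ := hw.inverse
  obtain ⟨g, hg, hgpb⟩ := hw.exact
  obtain ⟨h1, f, hf, hpb⟩ := hψ
  have himg : (ψ ∘ w) '' O = ψ '' (w '' O) := image_comp _ _ _
  refine ⟨hw.isOpen, hw.zero_mem, hw.star, ψ.contMDiff.comp_contMDiffOn hw.smooth, ?_, ?_, ?_, ?_⟩
  · rw [himg]
    exact ψ.toHomeomorph.isOpenMap _ hw.open_image
  · refine ⟨w' ∘ ψ.symm, ?_, ?_⟩
    · refine hw's.comp ψ.symm.contMDiff.contMDiffOn ?_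
      rw [himg]
      rintro _ ⟨x, hx, rfl⟩
      show ψ.symm (ψ x) ∈ w '' O
      rw [ψ.symm_apply_apply]
      exact hx
    · intro ξ hξ
      show w' (ψ.symm (ψ (w ξ))) = ξ
      rw [ψ.symm_apply_apply]
      exact hw'w ξ hξ
  · refine ⟨fun ξ => 1 * g ξ + f (w ξ), ?_, ?_⟩
    · exact (contMDiffOn_const.mul hg).add (hf.comp_contMDiffOn hw.smooth)
    · intro ξ hξ
      have h2 := PB.comp (hpb (w ξ)) (hgpb ξ hξ)
        ((hw.smooth.contMDiffAt (hw.isOpen.mem_nhds hξ)).mdifferentiableAt (by simp))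
        (h1.mdifferentiableAt (by simp))
        ((hg.contMDiffAt (hw.isOpen.mem_nhds hξ)).mdifferentiableAt (by simp))
        (hf.mdifferentiableAt (by simp))
      rw [one_mul] at h2
      exact h2
  · intro q
    show ψ (w (zeroC q)) = ψ (ι q)
    rw [hw.zero]

/-- Restricting Weinstein charts. -/
lemma WChart.restrict {ι : L → Cotangent F N} {O O' : Set (Cotangent F L)}
    {w : Cotangent F L → Cotangent F N} (hw : WChart ι O w) (hO' : IsOpen O') (hOO' : O' ⊆ O)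
    (h0 : ∀ q, zeroC q ∈ O') (hs : ∀ s ∈ Icc (0:ℝ) 1, MapsTo (scal s) O' O') :
    WChart ι O' w := by
  obtain ⟨w', hw's, hw'w⟩ := hw.inverse
  obtain ⟨g, hg, hgpb⟩ := hw.exact
  have himg : w '' O' = w '' O ∩ w' ⁻¹' O' := by
    ext x
    constructor
    · rintro ⟨ξ, hξ, rfl⟩
      refine ⟨⟨ξ, hOO' hξ, rfl⟩, ?_⟩
      show w' (w ξ) ∈ O'
      rw [hw'w ξ (hOO' hξ)]
      exact hξ
    · rintro ⟨⟨ξ, hξ, rfl⟩, h⟩
      have h' : w' (w ξ) ∈ O' := h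
      rw [hw'w ξ hξ] at h'
      exact ⟨ξ, h', rfl⟩
  refine ⟨hO', h0, hs, hw.smooth.mono hOO', ?_, ⟨w', hw's.mono (image_mono hOO'),
    fun ξ hξ => hw'w ξ (hOO' hξ)⟩, ⟨g, hg.mono hOO', fun ξ hξ => hgpb ξ (hOO' hξ)⟩, hw.zero⟩
  rw [himg]
  exact hw's.continuousOn.isOpen_inter_preimage hw.open_image hO'

/-- The main criterion. -/
theorem main [T2Space N] [CompactSpace N] [T2Space L] [CompactSpace L]
    {ι : L → Cotangent F N} {O : Set (Cotangent F L)} {w : Cotangent F L → Cotangent F N}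
    (hw : WChart ι O w) {V : Set (Cotangent F N)} (hV : StarNhd V)
    (ψ : Diffeomorph (IC F) (IC F) (Cotangent F N) (Cotangent F N) ∞) (hψ : CSymp 1 ψ)
    (hιV : range ι ⊆ ψ '' V) (hVw : ψ '' V ⊆ w '' O) :
    ∃ Φ : Diffeomorph (IC F) (IC F) (Cotangent F L) (Cotangent F N) ∞, CSymp 1 Φ ∧
      ∀ q, Φ (zeroC q) = ι q := by
  have hψi : CSymp 1 ψ.symm := hψ.inv ψ.symm.contMDiff ψ.apply_symm_apply ψ.symm_apply_apply
  obtain ⟨Φ, f, hf, hΦ, hΦι⟩ := main₀ (hw.comp ψ.symm hψi) hV (by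
      rintro _ ⟨q, rfl⟩
      obtain ⟨x, hx, hxq⟩ := hιV ⟨q, rfl⟩
      show ψ.symm (ι q) ∈ V
      rw [← hxq, ψ.symm_apply_apply]
      exact hx) (by
      intro x hx
      obtain ⟨ξ, hξ, hξx⟩ := hVw ⟨x, hx, rfl⟩
      refine ⟨ξ, hξ, ?_⟩
      show ψ.symm (w ξ) = x
      rw [hξx, ψ.symm_apply_apply])
  have hΦ1 : CSymp 1 Φ := ⟨Φ.contMDiff, f, hf, hΦ⟩
  have hΦi : CSymp 1 Φ.symm := hΦ1.inv Φ.symm.contMDiff Φ.apply_symm_apply Φ.symm_apply_apply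
  refine ⟨Φ.symm.trans ψ, ?_, fun q => ?_⟩
  · have h := hψ.comp hΦi
    rw [one_mul] at h
    exact h
  · show ψ (Φ.symm (zeroC q)) = ι q
    rw [← hΦι q, Φ.symm_apply_apply]
    exact ψ.apply_symm_apply _

end Pool.Agent.J4H58.Arn
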