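import Mathlib
import Pool.Agent.J4H58.Arn.Symp

/-! Existence of Weinstein charts; characterisation; symplectic homeomorphisms. -/

open scoped Topology ContDiff Manifold
open Set Metric Bundle Filter

noncomputable section

namespace Pool.Agent.J4H58.Arn

open Pool.Agent.Helper186

set_option linter.unusedSectionVars false

universe u

variable {F : Type u} [NormedAddCommGroup F] [NormedSpace ℝ F] [FiniteDimensional ℝ F]
  {N : Type*} [TopologicalSpace N] [ChartedSpace F N] [IsManifold 𝓘(ℝ, F) ∞ N]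
  {L : Type*} [TopologicalSpace L] [ChartedSpace F L] [IsManifold 𝓘(ℝ, F) ∞ L]

/-- Weinstein charts exist in every neighbourhood of an exact Lagrangian. -/
theorem exists_WChart [T2Space N] [CompactSpace N] [T2Space L] [CompactSpace L] [Nonempty L]
    {ι : L → Cotangent F N} (hι : ContMDiff 𝓘(ℝ, F) (IC F) ∞ ι) (hιe : Topology.IsEmbedding ι)
    (hιimm : ∀ q, Function.Injective (mfderiv 𝓘(ℝ, F) (IC F) ι q))
    {f₀ : L → ℝ} (hf₀ : ContMDiff 𝓘(ℝ, F) 𝓘(ℝ, ℝ) ∞ f₀)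
    (hex : ∀ (q : L) (u : TangentSpace 𝓘(ℝ, F) q),
      canForm (ι q) (mfderiv 𝓘(ℝ, F) (IC F) ι q u) = dForm 𝓘(ℝ, F) f₀ q u)
    {U : Set (Cotangent F N)} (hU : IsOpen U) (hιU : range ι ⊆ U) :
    ∃ (O : Set (Cotangent F L)) (w : Cotangent F L → Cotangent F N), WChart ι O w ∧
      w '' O ⊆ U := by
  obtain ⟨F₀, hF₀, hF₀ι⟩ := exists_extend hι hιe hιimm hf₀
  set lam : (ξ : Cotangent F N) → TangentSpace (IC F) ξ →L[ℝ] ℝ := fun ξ =>
    canForm ξ + dForm (IC F) (fun ξ => - F₀ ξ) ξ with hlam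
  have hF₀n : ContMDiff (IC F) 𝓘(ℝ, ℝ) ∞ (fun ξ => - F₀ ξ) := hF₀.neg
  have hlams : SmoothForm lam := smoothForm_canForm.add (smoothForm_dForm hF₀n)
  have hnegd : ∀ (ξ : Cotangent F N) (u : TangentSpace (IC F) ξ),
      dForm (IC F) (fun ξ => - F₀ ξ) ξ u = - dForm (IC F) F₀ ξ u := by
    intro ξ u
    have h := mfderiv_neg (I := IC F) (f := F₀) (x := ξ)
    exact DFunLike.congr_fun h u
  have hnd : ∀ (x : Cotangent F N) (u : TangentSpace (IC F) x),
      (∀ v, extDer (IC F) lam x u v = 0) → u = 0 := by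
    intro x u hu
    apply nondeg_canForm x u
    intro v
    have h1 := hu v
    rw [hlam, extDer_add smoothForm_canForm (smoothForm_dForm hF₀n), extDer_dForm hF₀n,
      add_zero] at h1
    exact h1
  have hι0 : ∀ q (v : TangentSpace 𝓘(ℝ, F) q), lam (ι q) (mfderiv 𝓘(ℝ, F) (IC F) ι q v) = 0 := by
    intro q v
    have h1 : lam (ι q) (mfderiv 𝓘(ℝ, F) (IC F) ι q v) =
        canForm (ι q) (mfderiv 𝓘(ℝ, F) (IC F) ι q v) +
        dForm (IC F) (fun ξ => - F₀ ξ) (ι q) (mfderiv 𝓘(ℝ, F) (IC F) ι q v) := rfl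
    rw [h1, hex, hnegd]
    have h2 := DFunLike.congr_fun (mfderiv_comp (I := 𝓘(ℝ, F)) (I' := IC F) (I'' := 𝓘(ℝ, ℝ)) q
      (hF₀.mdifferentiableAt (by simp) (x := ι q)) (hι.mdifferentiableAt (by simp))) v
    have h3 : F₀ ∘ ι = f₀ := by ext1 q; exact hF₀ι q
    rw [h3] at h2
    have h4 : dForm 𝓘(ℝ, F) f₀ q v =
      dForm (IC F) F₀ (ι q) (mfderiv 𝓘(ℝ, F) (IC F) ι q v) := h2
    rw [h4]
    exact add_neg_cancel _
  have hdim : Module.finrank ℝ (F × (F →L[ℝ] ℝ)) = 2 * Module.finrank ℝ F := by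
    rw [Module.finrank_prod]
    have h1 : Module.finrank ℝ F = Module.finrank ℝ (F →L[ℝ] ℝ) := by
      rw [← (LinearMap.toContinuousLinearMap (𝕜 := ℝ) (E := F) (F' := ℝ)).finrank_eq]
      exact (Subspace.dual_finrank_eq (K := ℝ) (V := F)).symm
    omega
  obtain ⟨w, w', O, g, hO, h0O, hwO, hw, hw's, hw'w, hw0, hg, hpb⟩ :=
    weinstein hlams hnd hι hιe.injective hιimm hι0 hdim
  have hwpb : ∀ ξ ∈ O, PB canForm canForm w 1 (fun ζ => g (w ζ) + F₀ (w ζ)) ξ := by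
    intro ξ hξ
    have hw'd : MDifferentiableAt (IC F) (IC F) w' (w ξ) :=
      (hw's.contMDiffAt (hwO.mem_nhds ⟨ξ, hξ, rfl⟩)).mdifferentiableAt (by simp)
    have hgd : MDifferentiableAt (IC F) 𝓘(ℝ, ℝ) g (w ξ) :=
      (hg.contMDiffAt (hwO.mem_nhds ⟨ξ, hξ, rfl⟩)).mdifferentiableAt (by simp)
    have hwd : MDifferentiableAt (IC F) (IC F) w ξ := hw.mdifferentiableAt (by simp)
    have h1 := PB.inv (w := w) (hpb (w ξ) ⟨ξ, hξ, rfl⟩) (by
      filter_upwards [hO.mem_nhds hξ] with ζ hζ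
      exact hw'w ζ hζ) hwd hw'd hgd
    intro u
    have h2 := h1 u
    have h3 : lam (w ξ) (mfderiv (IC F) (IC F) w ξ u) =
        canForm (w ξ) (mfderiv (IC F) (IC F) w ξ u) +
        dForm (IC F) (fun ξ => - F₀ ξ) (w ξ) (mfderiv (IC F) (IC F) w ξ u) := rfl
    rw [h3, hnegd] at h2
    have h4 : MDifferentiableAt (IC F) 𝓘(ℝ, ℝ) (fun ζ => g (w ζ)) ξ := hgd.comp ξ hwd
    have h5 : MDifferentiableAt (IC F) 𝓘(ℝ, ℝ) (fun ζ => F₀ (w ζ)) ξ :=
      (hF₀.mdifferentiableAt (by simp) (x := w ξ)).comp ξ hwd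
    have h6 := DFunLike.congr_fun (h4.hasMFDerivAt.add h5.hasMFDerivAt).mfderiv u
    have h7 := DFunLike.congr_fun (mfderiv_comp (I := IC F) (I' := IC F) (I'' := 𝓘(ℝ, ℝ)) ξ
      (hF₀.mdifferentiableAt (by simp) (x := w ξ)) hwd) u
    have h8 : (show ℝ from mfderiv (IC F) 𝓘(ℝ, ℝ) (fun ζ => g (w ζ) + F₀ (w ζ)) ξ u) =
        (show ℝ from mfderiv (IC F) 𝓘(ℝ, ℝ) (fun ζ => g (w ζ)) ξ u) +
        dForm (IC F) F₀ (w ξ) (mfderiv (IC F) (IC F) w ξ u) := by
      refine h6.trans ?_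
      exact congrArg₂ (fun a b : ℝ => a + b) rfl h7
    rw [h8]
    linarith
  -- shrink
  have hO₁ : IsOpen (O ∩ w ⁻¹' U) := hO.inter (hU.preimage hw.continuous)
  obtain ⟨Q, hQc, hQO, hQ0, hQs⟩ := exists_starshaped hO₁ (fun q => ⟨h0O q, by
    show w (zeroC q) ∈ U
    rw [hw0]
    exact hιU ⟨q, rfl⟩⟩)
  have hOO' : interior Q ⊆ O := fun ξ hξ => (hQO (interior_subset hξ)).1
  have himg : w '' interior Q = w '' O ∩ w' ⁻¹' interior Q := by
    ext x
    constructor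
    · rintro ⟨ξ, hξ, rfl⟩
      refine ⟨⟨ξ, hOO' hξ, rfl⟩, ?_⟩
      show w' (w ξ) ∈ interior Q
      rw [hw'w ξ (hOO' hξ)]
      exact hξ
    · rintro ⟨⟨ξ, hξ, rfl⟩, h⟩
      have h' : w' (w ξ) ∈ interior Q := h
      rw [hw'w ξ hξ] at h'
      exact ⟨ξ, h', rfl⟩
  refine ⟨interior Q, w, ⟨isOpen_interior, hQ0, fun s hs => interior_star hQs hQ0 s hs,
    hw.contMDiffOn, ?_, ⟨w', hw's.mono (image_mono hOO'), fun ξ hξ => hw'w ξ (hOO' hξ)⟩,
    ⟨fun ζ => g (w ζ) + F₀ (w ζ), ?_, fun ξ hξ => hwpb ξ (hOO' hξ)⟩, hw0⟩, ?_⟩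
  · rw [himg]
    exact hw's.continuousOn.isOpen_inter_preimage hwO isOpen_interior
  · refine ContMDiffOn.add (hg.comp hw.contMDiffOn fun ξ hξ => ⟨ξ, hOO' hξ, rfl⟩)
      (hF₀.comp hw).contMDiffOn
  · rintro _ ⟨ξ, hξ, rfl⟩
    exact (hQO (interior_subset hξ)).2

/-- An exact symplectic diffeomorphism taking the zero section to `ι` provides small
neighbourhoods. -/
theorem small_nhds_of_symp [T2Space N] [CompactSpace N] [T2Space L] [CompactSpace L]
    {ι : L → Cotangent F N}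
    (Φ : Diffeomorph (IC F) (IC F) (Cotangent F L) (Cotangent F N) ∞) (hΦ : CSymp 1 Φ)
    (hΦι : ∀ q, Φ (zeroC q) = ι q) {U : Set (Cotangent F N)} (hU : IsOpen U)
    (hιU : range ι ⊆ U) :
    ∃ ψ : Diffeomorph (IC F) (IC F) (Cotangent F N) (Cotangent F N) ∞, CSymp 1 ψ ∧
      ∃ V : Set (Cotangent F N), StarNhd V ∧ range ι ⊆ ψ '' V ∧ ψ '' V ⊆ U := by
  have hιc : IsCompact (range ι) := by
    have h1 : range ι = Φ '' range (zeroC : L → Cotangent F L) := by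
      rw [← range_comp]
      congr 1
      ext1 q
      exact (hΦι q).symm
    rw [h1]
    exact isCompact_range_zeroC.image Φ.continuous
  obtain ⟨Q, hQ, -, hQ0, hQs⟩ := exists_starshaped (F := F) (L := N) isOpen_univ
    (fun q => mem_univ _)
  obtain ⟨r₁, hr₁, hr₁C⟩ := exists_contract hQ0 hιc
  have hK₁ : IsCompact (scal (Real.exp r₁) '' Q) := hQ.image (contMDiff_scal_slice _).continuous
  have hKΦ : IsCompact (Φ.symm '' (scal (Real.exp r₁) '' Q)) := hK₁.image Φ.symm.continuous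
  obtain ⟨r, hr, hrC⟩ := exists_contract' (hU.preimage Φ.continuous) (fun q => by
    show Φ (zeroC q) ∈ U
    rw [hΦι]
    exact hιU ⟨q, rfl⟩) hKΦ
  have hexp : Real.exp (-r) * Real.exp r = 1 := by
    rw [← Real.exp_add, neg_add_cancel, Real.exp_zero]
  have hexp' : Real.exp r * Real.exp (-r) = 1 := by rw [mul_comm]; exact hexp
  let V₁ : Set (Cotangent F N) := scal (Real.exp (-r₁)) ⁻¹' interior Q
  have hV₁K : V₁ ⊆ scal (Real.exp r₁) '' Q := by
    intro x hx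
    refine ⟨scal (Real.exp (-r₁)) x, interior_subset hx, ?_⟩
    rw [scal_scal, ← Real.exp_add, add_neg_cancel, Real.exp_zero, scal_one]
  have hstar := interior_star hQs hQ0
  have hscomm : ∀ (s t : ℝ) (x : Cotangent F N), scal s (scal t x) = scal t (scal s x) := by
    intro s t x
    rw [scal_scal, scal_scal, mul_comm]
  let ψ : Diffeomorph (IC F) (IC F) (Cotangent F N) (Cotangent F N) ∞ :=
    (((scalD (Real.exp r) (Real.exp_pos r).ne').trans Φ.symm).trans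
      (scalD (Real.exp (-r)) (Real.exp_pos _).ne')).trans Φ
  have hψx : ∀ x, ψ x = Φ (scal (Real.exp (-r)) (Φ.symm (scal (Real.exp r) x))) := fun x => rfl
  have hΦi : CSymp 1 Φ.symm := hΦ.inv Φ.symm.contMDiff Φ.apply_symm_apply Φ.symm_apply_apply
  refine ⟨ψ, ?_, scal (Real.exp r) ⁻¹' V₁, ⟨?_, ?_, ?_⟩, ?_, ?_⟩
  · have h1 := hΦ.comp ((CSymp_scal (Real.exp (-r))).comp (hΦi.comp (CSymp_scal (Real.exp r))))
    have h2 : 1 * (Real.exp (-r) * (1 * Real.exp r)) = 1 := by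
      rw [one_mul, one_mul]; exact hexp
    rw [h2] at h1
    exact h1
  · exact (isOpen_interior.preimage (contMDiff_scal_slice _).continuous).preimage
      (contMDiff_scal_slice _).continuous
  · intro q
    show scal (Real.exp (-r₁)) (scal (Real.exp r) (zeroC q)) ∈ interior Q
    rw [scal_zeroC, scal_zeroC]
    exact hQ0 q
  · intro s hs x hx
    show scal (Real.exp (-r₁)) (scal (Real.exp r) (scal s x)) ∈ interior Q
    rw [hscomm _ s, hscomm _ s]
    exact hstar s hs hx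
  · rintro _ ⟨q, rfl⟩
    refine ⟨scal (Real.exp (-r)) (ι q), ?_, ?_⟩
    · show scal (Real.exp (-r₁)) (scal (Real.exp r) (scal (Real.exp (-r)) (ι q))) ∈ interior Q
      rw [scal_scal (Real.exp r), hexp', scal_one]
      exact hr₁C r₁ le_rfl _ ⟨q, rfl⟩
    · rw [hψx, scal_scal (Real.exp r), hexp', scal_one]
      have h1 : Φ.symm (ι q) = zeroC q := by rw [← hΦι q, Φ.symm_apply_apply]
      rw [h1, scal_zeroC, hΦι]
  · rintro _ ⟨x, hx, rfl⟩
    rw [hψx]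
    exact hrC r le_rfl _ ⟨_, hV₁K hx, rfl⟩

/-- `C⁰` limits of exact symplectic diffeomorphisms. -/
def C0Limit (h : Cotangent F N ≃ₜ Cotangent F N) : Prop :=
  ∃ ψ : ℕ → Diffeomorph (IC F) (IC F) (Cotangent F N) (Cotangent F N) ∞,
    (∀ n, CSymp 1 (ψ n)) ∧
    Tendsto (fun n => (⟨ψ n, (ψ n).continuous⟩ : C(Cotangent F N, Cotangent F N))) atTop
      (𝓝 ⟨h, h.continuous⟩) ∧
    Tendsto (fun n => (⟨(ψ n).symm, (ψ n).symm.continuous⟩ : C(Cotangent F N, Cotangent F N)))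
      atTop (𝓝 ⟨h.symm, h.symm.continuous⟩)

theorem small_nhds_of_homeo [T2Space N] [CompactSpace N]
    {K : Set (Cotangent F N)} {h : Cotangent F N ≃ₜ Cotangent F N} (hh : C0Limit h)
    (hK : h '' range (zeroC : N → Cotangent F N) = K) {U : Set (Cotangent F N)} (hU : IsOpen U)
    (hKU : K ⊆ U) :
    ∃ ψ : Diffeomorph (IC F) (IC F) (Cotangent F N) (Cotangent F N) ∞, CSymp 1 ψ ∧
      ∃ V : Set (Cotangent F N), StarNhd V ∧ K ⊆ ψ '' V ∧ ψ '' V ⊆ U := by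
  obtain ⟨ψ, hψ, h1, h2⟩ := hh
  have hKc : IsCompact K := by
    rw [← hK]; exact isCompact_range_zeroC.image h.continuous
  obtain ⟨Q, hQ, hQU, hQ0, hQs⟩ := exists_starshaped (hU.preimage h.continuous) (fun q => by
    show h (zeroC q) ∈ U
    apply hKU
    rw [← hK]
    exact ⟨_, ⟨q, rfl⟩, rfl⟩)
  have h3 := h1.eventually ((ContinuousMap.isOpen_setOfPred_mapsTo hQ hU).mem_nhds
    (show MapsTo h Q U from fun x hx => hQU hx))
  have h4 := h2.eventually ((ContinuousMap.isOpen_setOfPred_mapsTo hKc isOpen_interior).mem_nhds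
    (show MapsTo h.symm K (interior Q) from fun x hx => by
      rw [← hK] at hx
      obtain ⟨_, ⟨q, rfl⟩, rfl⟩ := hx
      rw [h.symm_apply_apply]
      exact hQ0 q))
  obtain ⟨n, h5, h6⟩ := (h3.and h4).exists
  refine ⟨ψ n, hψ n, interior Q, ⟨isOpen_interior, hQ0, interior_star hQs hQ0⟩, ?_, ?_⟩
  · intro x hx
    exact ⟨(ψ n).symm x, h6 hx, (ψ n).apply_symm_apply x⟩
  · rintro _ ⟨x, hx, rfl⟩
    exact h5 (interior_subset hx)

end Pool.Agent.J4H58.Arn
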