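import Mathlib
import Pool.Agent.J4H58.Arn.Char

/-! Closed forms on cotangent bundles; symplectic diffeomorphisms taking the zero section to an
exact Lagrangian are exact; attractors. -/

open scoped Topology ContDiff Manifold
open Set Metric Bundle Filter

noncomputable section

namespace Pool.Agent.J4H58.Arn

open Pool.Agent.Helper186

set_option linter.unusedSectionVars false

universe u

variable {F : Type u} [NormedAddCommGroup F] [NormedSpace ℝ F] [FiniteDimensional ℝ F]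
  {N : Type*} [TopologicalSpace N] [ChartedSpace F N] [IsManifold 𝓘(ℝ, F) ∞ N]
  {L : Type*} [TopologicalSpace L] [ChartedSpace F L] [IsManifold 𝓘(ℝ, F) ∞ L]

lemma SmoothForm_neg {α : (ξ : Cotangent F L) → TangentSpace (IC F) ξ →L[ℝ] ℝ}
    (hα : SmoothForm α) : SmoothForm (fun ξ => - α ξ) :=
  fun V => (hα V).neg

lemma extDer_neg {α : (ξ : Cotangent F L) → TangentSpace (IC F) ξ →L[ℝ] ℝ}
    (hα : SmoothForm α) (ξ : Cotangent F L) (u v : TangentSpace (IC F) ξ) :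
    extDer (IC F) (fun ξ => - α ξ) ξ u v = - extDer (IC F) α ξ u v := by
  have h1 := extDer_add hα (SmoothForm_neg hα) ξ u v
  have h2 : (fun ξ => α ξ + - α ξ) = dForm (IC F) (fun _ : Cotangent F L => (0:ℝ)) := by
    ext1 ξ
    have h3 : dForm (IC F) (fun _ : Cotangent F L => (0:ℝ)) ξ = 0 := mfderiv_const
    rw [h3]
    exact add_neg_cancel _
  rw [h2, extDer_dForm contMDiff_const] at h1
  linarith

/-- A closed form on a cotangent bundle is the sum of its restriction to the zero section and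
an exact form. -/
theorem closed_form {β : (ξ : Cotangent F L) → TangentSpace (IC F) ξ →L[ℝ] ℝ}
    (hβ : SmoothForm β) (hcl : ∀ ξ u v, extDer (IC F) β ξ u v = 0) :
    ∃ k : Cotangent F L → ℝ, ContMDiff (IC F) 𝓘(ℝ, ℝ) ∞ k ∧
      ∀ (ξ : Cotangent F L) (u : TangentSpace (IC F) ξ),
        β ξ u = β (scal 0 ξ) (mfderiv (IC F) (IC F) (scal 0) ξ u) + dForm (IC F) k ξ u := by
  set i : ℝ × Cotangent F L → Cotangent F L := fun p => scal p.1 p.2 with hi
  have his : ContMDiff (𝓘(ℝ, ℝ).prod (IC F)) (IC F) ∞ i := contMDiff_scal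
  set κ : ℝ × Cotangent F L → ℝ := fun q => β (i q) (dS (IC F) i q.1 q.2) with hκ
  have hκs : ContMDiff (𝓘(ℝ, ℝ).prod (IC F)) 𝓘(ℝ, ℝ) ∞ κ := fun q =>
    hβ.comp (contMDiffAt_dS isOpen_univ his.contMDiffOn (mem_univ q)) le_rfl
  refine ⟨fun ξ => ∫ s in (0:ℝ)..1, κ (s, ξ), contMDiff_paramInt hκs 1, ?_⟩
  intro ξ u
  have h1 : ∀ s ∈ uIcc (0:ℝ) 1, HasDerivAt (fun σ => β (i (σ, ξ)) (dX (IC F) (IC F) i σ ξ u))
      (show ℝ from mfderiv (IC F) 𝓘(ℝ, ℝ) (fun x => κ (s, x)) ξ u) s := by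
    intro s _
    have h2 := hasDerivAt_variation hβ isOpen_univ his.contMDiffOn (mem_univ (s, ξ)) u
    refine h2.congr_deriv ?_
    rw [hcl, zero_add]
  have h2 := integral_slice hκs h1
  have h3 : β (i (1, ξ)) (dX (IC F) (IC F) i 1 ξ u) = β ξ u := by
    have h4 : (fun x' : Cotangent F L => i (1, x')) = id := by ext1 x'; exact scal_one x'
    have h5 : tangentMap (IC F) (IC F) (fun x' : Cotangent F L => i (1, x'))
        (⟨ξ, u⟩ : TangentBundle (IC F) (Cotangent F L)) = ⟨ξ, u⟩ := by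
      rw [h4, tangentMap_id]; rfl
    exact form_congr β h5
  have h4 : β (i (0, ξ)) (dX (IC F) (IC F) i 0 ξ u) =
      β (scal 0 ξ) (mfderiv (IC F) (IC F) (scal 0) ξ u) := rfl
  simp only [h3, h4] at h2
  have h5 : (show ℝ from mfderiv (IC F) 𝓘(ℝ, ℝ) (fun x => ∫ s in (0:ℝ)..1, κ (s, x)) ξ u) =
    dForm (IC F) (fun ξ => ∫ s in (0:ℝ)..1, κ (s, ξ)) ξ u := rfl
  exact sub_eq_iff_eq_add'.1 (h2.trans h5)

/-- A symplectic map taking the zero section to an exact Lagrangian is exact. -/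
theorem CSymp_of_symplectic {ι : L → Cotangent F N}
    {f₀ : L → ℝ} (hf₀ : ContMDiff 𝓘(ℝ, F) 𝓘(ℝ, ℝ) ∞ f₀)
    (hex : ∀ (q : L) (u : TangentSpace 𝓘(ℝ, F) q),
      canForm (ι q) (mfderiv 𝓘(ℝ, F) (IC F) ι q u) = dForm 𝓘(ℝ, F) f₀ q u)
    {Φ : Cotangent F L → Cotangent F N} (hΦ : ContMDiff (IC F) (IC F) ∞ Φ)
    (hsymp : ∀ (ξ : Cotangent F L) (u v : TangentSpace (IC F) ξ),
      extDer (IC F) (canForm : (ξ : Cotangent F N) → _) (Φ ξ) (mfderiv (IC F) (IC F) Φ ξ u)
        (mfderiv (IC F) (IC F) Φ ξ v) =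
      extDer (IC F) (canForm : (ξ : Cotangent F L) → _) ξ u v)
    (hΦι : ∀ q, Φ (zeroC q) = ι q) : CSymp 1 Φ := by
  set β : (ξ : Cotangent F L) → TangentSpace (IC F) ξ →L[ℝ] ℝ := fun ξ =>
    pullForm (IC F) (IC F) Φ (canForm : (ξ : Cotangent F N) → _) ξ + - canForm ξ with hβ
  have hβs : SmoothForm β := (smoothForm_pull hΦ smoothForm_canForm).add
    (SmoothForm_neg smoothForm_canForm)
  have hcl : ∀ ξ u v, extDer (IC F) β ξ u v = 0 := by
    intro ξ u v
    rw [hβ, extDer_add (smoothForm_pull hΦ smoothForm_canForm)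
      (SmoothForm_neg smoothForm_canForm), extDer_neg smoothForm_canForm,
      extDer_pull hΦ smoothForm_canForm, hsymp]
    ring
  obtain ⟨k, hk, hkβ⟩ := closed_form hβs hcl
  have hfp : ContMDiff (IC F) 𝓘(ℝ, ℝ) ∞ (fun ξ : Cotangent F L => f₀ ξ.1) :=
    hf₀.comp contMDiff_projC
  refine ⟨hΦ, fun ξ => f₀ ξ.1 + k ξ, hfp.add hk, fun ξ u => ?_⟩
  have h1 := hkβ ξ u
  have h2 : β ξ u = canForm (Φ ξ) (mfderiv (IC F) (IC F) Φ ξ u) - canForm ξ u := by
    show canForm (Φ ξ) (mfderiv (IC F) (IC F) Φ ξ u) + - canForm ξ u = _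
    ring
  -- the restriction to the zero section
  have h3 : β (scal 0 ξ) (mfderiv (IC F) (IC F) (scal 0) ξ u) =
      dForm (IC F) (fun ξ : Cotangent F L => f₀ ξ.1) ξ u := by
    have h4 : β (scal 0 ξ) (mfderiv (IC F) (IC F) (scal 0) ξ u) =
        canForm (Φ (scal 0 ξ)) (mfderiv (IC F) (IC F) Φ (scal 0 ξ)
          (mfderiv (IC F) (IC F) (scal 0) ξ u)) +
        - canForm (scal 0 ξ) (mfderiv (IC F) (IC F) (scal 0) ξ u) := rfl
    rw [h4, canForm_scal, zero_mul, neg_zero, add_zero]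
    have h5 := DFunLike.congr_fun (mfderiv_comp (I := IC F) (I' := IC F) (I'' := IC F) ξ
      (hΦ.mdifferentiableAt (by simp) (x := scal 0 ξ))
      ((contMDiff_scal_slice 0).mdifferentiableAt (by simp) (x := ξ))) u
    have h6 : canForm (Φ (scal 0 ξ)) (mfderiv (IC F) (IC F) Φ (scal 0 ξ)
          (mfderiv (IC F) (IC F) (scal 0) ξ u)) =
        canForm ((Φ ∘ scal 0) ξ) (mfderiv (IC F) (IC F) (Φ ∘ scal 0) ξ u) :=
      (congrArg (canForm (Φ (scal 0 ξ))) h5).symm
    rw [h6]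
    have h7 : (Φ ∘ scal 0 : Cotangent F L → Cotangent F N) = ι ∘ TotalSpace.proj := by
      ext1 ζ
      show Φ (scal 0 ζ) = ι ζ.1
      rw [scal_zero, hΦι]
    -- `ι` is differentiable
    have hιs : ContMDiff 𝓘(ℝ, F) (IC F) ∞ ι := by
      have : ι = Φ ∘ zeroC := by ext1 q; exact (hΦι q).symm
      rw [this]
      exact hΦ.comp contMDiff_zeroC
    have h8 : tangentMap (IC F) (IC F) (Φ ∘ scal 0)
        (⟨ξ, u⟩ : TangentBundle (IC F) (Cotangent F L)) =
        tangentMap (IC F) (IC F) (ι ∘ TotalSpace.proj) ⟨ξ, u⟩ := by rw [h7]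
    have h9 : canForm ((Φ ∘ scal 0) ξ) (mfderiv (IC F) (IC F) (Φ ∘ scal 0) ξ u) =
        canForm ((ι ∘ TotalSpace.proj) ξ) (mfderiv (IC F) (IC F)
          (ι ∘ (TotalSpace.proj : Cotangent F L → L)) ξ u) :=
      form_congr (canForm : (ξ : Cotangent F N) → _) h8
    rw [h9]
    have h10 := DFunLike.congr_fun (mfderiv_comp (I := IC F) (I' := 𝓘(ℝ, F)) (I'' := IC F) ξ
      (hιs.mdifferentiableAt (by simp) (x := ξ.1))
      (contMDiff_projC.mdifferentiableAt (by simp) (x := ξ))) u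
    have h11 : canForm ((ι ∘ TotalSpace.proj) ξ) (mfderiv (IC F) (IC F)
          (ι ∘ (TotalSpace.proj : Cotangent F L → L)) ξ u) =
        canForm (ι ξ.1) (mfderiv 𝓘(ℝ, F) (IC F) ι ξ.1
          (mfderiv (IC F) 𝓘(ℝ, F) (TotalSpace.proj : Cotangent F L → L) ξ u)) :=
      congrArg (canForm (ι ξ.1)) h10
    rw [h11, hex]
    have h12 := DFunLike.congr_fun (mfderiv_comp (I := IC F) (I' := 𝓘(ℝ, F)) (I'' := 𝓘(ℝ, ℝ)) ξ
      (hf₀.mdifferentiableAt (by simp) (x := ξ.1))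
      (contMDiff_projC.mdifferentiableAt (by simp) (x := ξ))) u
    exact h12.symm
  rw [h2, h3] at h1
  have h4 := (((hfp.mdifferentiableAt (by simp) (x := ξ)).hasMFDerivAt).add
    ((hk.mdifferentiableAt (by simp) (x := ξ)).hasMFDerivAt)).mfderiv
  have h5 := DFunLike.congr_fun h4 u
  have h6 : (show ℝ from mfderiv (IC F) 𝓘(ℝ, ℝ) (fun ξ : Cotangent F L => f₀ ξ.1 + k ξ) ξ u) =
      dForm (IC F) (fun ξ : Cotangent F L => f₀ ξ.1) ξ u + dForm (IC F) k ξ u := h5
  rw [h6]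
  linarith

/-! ### Attractors -/

/-- The compact set `K` is the global attractor of `G`. -/
def Attracts (G : Cotangent F N → Cotangent F N) (K : Set (Cotangent F N)) : Prop :=
  G '' K = K ∧ ∀ C : Set (Cotangent F N), IsCompact C → ∀ U : Set (Cotangent F N), IsOpen U →
    K ⊆ U → ∀ᶠ n : ℕ in atTop, G^[n] '' C ⊆ U

lemma CSymp_iterate {a : ℝ} {G : Cotangent F N → Cotangent F N} (hG : CSymp a G) (n : ℕ) :
    CSymp (a ^ n) (G^[n]) := by
  induction n with
  | zero =>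
    rw [pow_zero]
    have h := CSymp_scal (F := F) (L := N) 1
    have h1 : (scal 1 : Cotangent F N → Cotangent F N) = G^[0] := by
      ext1 x; exact scal_one x
    rw [h1] at h
    exact h
  | succ n ih =>
    rw [Function.iterate_succ', pow_succ']
    exact hG.comp ih

/-- The iterates of a diffeomorphism. -/
def iterD (G : Diffeomorph (IC F) (IC F) (Cotangent F N) (Cotangent F N) ∞) :
    ℕ → Diffeomorph (IC F) (IC F) (Cotangent F N) (Cotangent F N) ∞
  | 0 => Diffeomorph.refl _ _ _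
  | n + 1 => (iterD G n).trans G

lemma iterD_coe (G : Diffeomorph (IC F) (IC F) (Cotangent F N) (Cotangent F N) ∞) (n : ℕ) :
    (iterD G n : Cotangent F N → Cotangent F N) = G^[n] := by
  induction n with
  | zero => rfl
  | succ n ih =>
    ext1 x
    show G (iterD G n x) = G^[n+1] x
    rw [ih, Function.iterate_succ_apply']

theorem small_nhds_of_attractor [T2Space N] [CompactSpace N]
    {K : Set (Cotangent F N)} (hK : IsCompact K) {a : ℝ} (ha : 0 < a)
    (G : Diffeomorph (IC F) (IC F) (Cotangent F N) (Cotangent F N) ∞) (hG : CSymp a G)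
    (hGK : Attracts G K) {U : Set (Cotangent F N)} (hU : IsOpen U) (hKU : K ⊆ U) :
    ∃ ψ : Diffeomorph (IC F) (IC F) (Cotangent F N) (Cotangent F N) ∞, CSymp 1 ψ ∧
      ∃ V : Set (Cotangent F N), StarNhd V ∧ K ⊆ ψ '' V ∧ ψ '' V ⊆ U := by
  obtain ⟨Q, hQ, -, hQ0, hQs⟩ := exists_starshaped (F := F) (L := N) isOpen_univ
    (fun q => mem_univ _)
  obtain ⟨r₁, hr₁, hr₁C⟩ := exists_contract hQ0 hK
  have hK₁ : IsCompact (scal (Real.exp r₁) '' Q) := hQ.image (contMDiff_scal_slice _).continuous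
  obtain ⟨n, hn⟩ := (hGK.2 _ hK₁ U hU hKU).exists
  have han : (a ^ n : ℝ) ≠ 0 := (pow_pos ha n).ne'
  let V₁ : Set (Cotangent F N) := scal (Real.exp (-r₁)) ⁻¹' interior Q
  have hV₁K : V₁ ⊆ scal (Real.exp r₁) '' Q := by
    intro x hx
    refine ⟨scal (Real.exp (-r₁)) x, interior_subset hx, ?_⟩
    rw [scal_scal, ← Real.exp_add, add_neg_cancel, Real.exp_zero, scal_one]
  have hKV₁ : K ⊆ V₁ := fun x hx => hr₁C r₁ le_rfl x hx
  have hstar := interior_star hQs hQ0
  have hscomm : ∀ (s t : ℝ) (x : Cotangent F N), scal s (scal t x) = scal t (scal s x) := by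
    intro s t x
    rw [scal_scal, scal_scal, mul_comm]
  let ψ : Diffeomorph (IC F) (IC F) (Cotangent F N) (Cotangent F N) ∞ :=
    (scalD ((a ^ n)⁻¹) (inv_ne_zero han)).trans (iterD G n)
  have hψx : ∀ x, ψ x = G^[n] (scal ((a ^ n)⁻¹) x) := fun x => by
    show iterD G n (scal ((a ^ n)⁻¹) x) = _
    rw [iterD_coe]
  have hiter : G^[n] '' K = K := by
    have h : ∀ m : ℕ, G^[m] '' K = K := by
      intro m
      induction m with
      | zero => simp
      | succ m ih => rw [Function.iterate_succ', image_comp, ih, hGK.1]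
    exact h n
  refine ⟨ψ, ?_, scal ((a ^ n)⁻¹) ⁻¹' V₁, ⟨?_, ?_, ?_⟩, ?_, ?_⟩
  · have h1 := (CSymp_iterate hG n).comp (CSymp_scal (F := F) (L := N) ((a ^ n)⁻¹))
    rw [mul_inv_cancel₀ han] at h1
    have h2 : (ψ : Cotangent F N → Cotangent F N) = G^[n] ∘ scal ((a ^ n)⁻¹) := by
      ext1 x; exact hψx x
    rw [h2]
    exact h1
  · exact (isOpen_interior.preimage (contMDiff_scal_slice _).continuous).preimage
      (contMDiff_scal_slice _).continuous
  · intro q
    show scal (Real.exp (-r₁)) (scal ((a ^ n)⁻¹) (zeroC q)) ∈ interior Q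
    rw [scal_zeroC, scal_zeroC]
    exact hQ0 q
  · intro s hs x hx
    show scal (Real.exp (-r₁)) (scal ((a ^ n)⁻¹) (scal s x)) ∈ interior Q
    rw [hscomm _ s, hscomm _ s]
    exact hstar s hs hx
  · intro y hy
    rw [← hiter] at hy
    obtain ⟨x, hx, rfl⟩ := hy
    refine ⟨scal (a ^ n) x, ?_, ?_⟩
    · show scal ((a ^ n)⁻¹) (scal (a ^ n) x) ∈ V₁
      rw [scal_scal, inv_mul_cancel₀ han, scal_one]
      exact hKV₁ hx
    · rw [hψx, scal_scal, inv_mul_cancel₀ han, scal_one]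
  · rintro _ ⟨x, hx, rfl⟩
    rw [hψx]
    exact hn ⟨_, hV₁K hx, rfl⟩

theorem attractor_of_symp [T2Space N] [CompactSpace N] [T2Space L] [CompactSpace L]
    {ι : L → Cotangent F N}
    (Φ : Diffeomorph (IC F) (IC F) (Cotangent F L) (Cotangent F N) ∞) (hΦ : CSymp 1 Φ)
    (hΦι : ∀ q, Φ (zeroC q) = ι q) {a : ℝ} (ha : 0 < a) (ha1 : a < 1) :
    ∃ G : Diffeomorph (IC F) (IC F) (Cotangent F N) (Cotangent F N) ∞, CSymp a G ∧
      Attracts G (range ι) := by
  have hΦi : CSymp 1 Φ.symm := hΦ.inv Φ.symm.contMDiff Φ.apply_symm_apply Φ.symm_apply_apply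
  let G : Diffeomorph (IC F) (IC F) (Cotangent F N) (Cotangent F N) ∞ :=
    (Φ.symm.trans (scalD a ha.ne')).trans Φ
  have hGx : ∀ x, G x = Φ (scal a (Φ.symm x)) := fun x => rfl
  have hGι : ∀ q, G (ι q) = ι q := by
    intro q
    rw [hGx, ← hΦι q, Φ.symm_apply_apply, scal_zeroC]
  have hGn : ∀ (n : ℕ) x, G^[n] x = Φ (scal (a ^ n) (Φ.symm x)) := by
    intro n
    induction n with
    | zero => intro x; rw [pow_zero, scal_one, Φ.apply_symm_apply]; rfl
    | succ n ih =>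
      intro x
      rw [Function.iterate_succ_apply', ih, hGx, Φ.symm_apply_apply, scal_scal, pow_succ']
  refine ⟨G, ?_, ?_, ?_⟩
  · have h1 := hΦ.comp ((CSymp_scal a).comp hΦi)
    have h2 : 1 * (a * 1) = a := by ring
    rw [h2] at h1
    exact h1
  · ext x
    constructor
    · rintro ⟨_, ⟨q, rfl⟩, rfl⟩
      rw [hGι]; exact ⟨q, rfl⟩
    · rintro ⟨q, rfl⟩
      exact ⟨ι q, ⟨q, rfl⟩, hGι q⟩
  · intro C hC U hU hιU
    obtain ⟨r, hr, hrC⟩ := exists_contract' (hU.preimage Φ.continuous) (fun q => by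
      show Φ (zeroC q) ∈ U
      rw [hΦι]
      exact hιU ⟨q, rfl⟩) (hC.image Φ.symm.continuous)
    have hlog : Real.log a < 0 := Real.log_neg ha ha1
    filter_upwards [eventually_ge_atTop ⌈r / (- Real.log a)⌉₊] with n hn
    rintro _ ⟨x, hx, rfl⟩
    rw [hGn]
    have h1 : (a ^ n : ℝ) = Real.exp (-(n * (- Real.log a))) := by
      have h2 : -(n * (- Real.log a)) = Real.log (a ^ n) := by
        rw [Real.log_pow]; ring
      rw [h2, Real.exp_log (pow_pos ha n)]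
    rw [h1]
    refine hrC _ ?_ _ ⟨x, hx, rfl⟩
    have h3 : r / (- Real.log a) ≤ n := (Nat.le_ceil _).trans (by exact_mod_cast hn)
    rw [div_le_iff₀ (by linarith)] at h3
    exact h3

end Pool.Agent.J4H58.Arn
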