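import Mathlib
import Pool.Agent.J4H58.Arn.Closed

/-! Arnold's conclusion. -/

open scoped Topology ContDiff Manifold
open Set Metric Bundle Filter

noncomputable section

namespace Pool.Agent.J4H58.Arn

open Pool.Agent.Helper186

set_option linter.unusedSectionVars false
set_option maxHeartbeats 400000

universe u

variable {F : Type u} [NormedAddCommGroup F] [NormedSpace ℝ F] [FiniteDimensional ℝ F]
  {N : Type*} [TopologicalSpace N] [ChartedSpace F N] [IsManifold 𝓘(ℝ, F) ∞ N]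
  {L : Type*} [TopologicalSpace L] [ChartedSpace F L] [IsManifold 𝓘(ℝ, F) ∞ L]

/-- A smooth bijection with injective derivatives is a diffeomorphism. -/
def diffeoOfBij {g : L → N} (hg : ContMDiff 𝓘(ℝ, F) 𝓘(ℝ, F) ∞ g) (gi : N → L)
    (h1 : ∀ z, gi (g z) = z) (h2 : ∀ q, g (gi q) = q)
    (hinj : ∀ z, Function.Injective (mfderiv 𝓘(ℝ, F) 𝓘(ℝ, F) g z)) :
    Diffeomorph 𝓘(ℝ, F) 𝓘(ℝ, F) L N ∞ where
  toFun := g
  invFun := gi
  left_inv := h1
  right_inv := h2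
  contMDiff_toFun := hg
  contMDiff_invFun := by
    intro q
    obtain ⟨S, v, hS, hzS, hv, hopen, hvs⟩ := local_inverse hg (hinj (gi q)) rfl
    have h3 := hvs (gi q) hzS
    rw [h2] at h3
    refine h3.congr_of_eventuallyEq ?_
    have h4 : IsOpen (g '' S) := hopen S subset_rfl hS
    filter_upwards [h4.mem_nhds ⟨gi q, hzS, h2 q⟩] with y hy
    obtain ⟨ζ, hζ, rfl⟩ := hy
    show gi (g ζ) = v (g ζ)
    rw [h1, hv ζ hζ]

/-- If a diffeomorphism of `T^*N` takes the zero section onto the image of `ι : L → T^*N` then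
`L` and `N` are diffeomorphic. -/
theorem exists_diffeo {ι : L → Cotangent F N} (hι : ContMDiff 𝓘(ℝ, F) (IC F) ∞ ι)
    (hιe : Topology.IsEmbedding ι)
    (hιimm : ∀ q, Function.Injective (mfderiv 𝓘(ℝ, F) (IC F) ι q))
    (ψ : Diffeomorph (IC F) (IC F) (Cotangent F N) (Cotangent F N) ∞)
    (hψ : ψ '' range (zeroC : N → Cotangent F N) = range ι) :
    ∃ g : Diffeomorph 𝓘(ℝ, F) 𝓘(ℝ, F) L N ∞, ∀ z, ψ (zeroC (g z)) = ι z := by
  set g : L → N := fun z => (ψ.symm (ι z)).1 with hg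
  have hgs : ContMDiff 𝓘(ℝ, F) 𝓘(ℝ, F) ∞ g :=
    contMDiff_projC.comp (ψ.symm.contMDiff.comp hι)
  have hz : ∀ z, ψ.symm (ι z) = zeroC (g z) := by
    intro z
    have h1 : ι z ∈ ψ '' range (zeroC : N → Cotangent F N) := by rw [hψ]; exact ⟨z, rfl⟩
    obtain ⟨_, ⟨q, rfl⟩, hq⟩ := h1
    have h2 : ψ.symm (ι z) = zeroC q := by rw [← hq, ψ.symm_apply_apply]
    have h3 : g z = q := by
      show (ψ.symm (ι z)).1 = q
      rw [h2]; rfl
    rw [h2, h3]
  have hψz : ∀ z, ψ (zeroC (g z)) = ι z := by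
    intro z
    rw [← hz, ψ.apply_symm_apply]
  have hq : ∀ q : N, ∃ z, ι z = ψ (zeroC q) := by
    intro q
    have h1 : ψ (zeroC q) ∈ range ι := by rw [← hψ]; exact ⟨_, ⟨q, rfl⟩, rfl⟩
    exact h1
  choose gi hgi using hq
  have h1 : ∀ z, gi (g z) = z := by
    intro z
    apply hιe.injective
    rw [hgi, hψz]
  have h2 : ∀ q, g (gi q) = q := by
    intro q
    show (ψ.symm (ι (gi q))).1 = q
    rw [hgi, ψ.symm_apply_apply]
    rfl
  have hinj : ∀ z, Function.Injective (mfderiv 𝓘(ℝ, F) 𝓘(ℝ, F) g z) := by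
    intro z
    rw [injective_iff_map_eq_zero]
    intro a ha
    -- `ι = ψ ∘ zeroC ∘ g`
    have h3 : ι = ψ ∘ (zeroC ∘ g) := by ext1 z; exact (hψz z).symm
    have hzg : ContMDiff 𝓘(ℝ, F) (IC F) ∞ ((zeroC : N → Cotangent F N) ∘ g) :=
      contMDiff_zeroC.comp hgs
    have h4 := DFunLike.congr_fun (mfderiv_comp (I := 𝓘(ℝ, F)) (I' := IC F) (I'' := IC F) z
      (ψ.contMDiff.mdifferentiableAt (by simp) (x := ((zeroC : N → Cotangent F N) ∘ g) z))
      (hzg.mdifferentiableAt (by simp))) a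
    have h5 := DFunLike.congr_fun (mfderiv_comp (I := 𝓘(ℝ, F)) (I' := 𝓘(ℝ, F)) (I'' := IC F) z
      ((contMDiff_zeroC (F := F) (L := N)).mdifferentiableAt (by simp) (x := g z))
      (hgs.mdifferentiableAt (by simp))) a
    apply hιimm z
    rw [map_zero]
    have h6 : (mfderiv 𝓘(ℝ, F) (IC F) ((zeroC : N → Cotangent F N) ∘ g) z a :
        F × (F →L[ℝ] ℝ)) = 0 := by
      refine h5.trans ?_
      have h7 := congrArg (mfderiv 𝓘(ℝ, F) (IC F) (zeroC : N → Cotangent F N) (g z)) ha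
      exact h7.trans (map_zero _)
    have h8 : (mfderiv 𝓘(ℝ, F) (IC F) (ψ ∘ ((zeroC : N → Cotangent F N) ∘ g)) z a :
        F × (F →L[ℝ] ℝ)) = 0 := by
      refine h4.trans ?_
      have h9 := congrArg (mfderiv (IC F) (IC F) ψ (((zeroC : N → Cotangent F N) ∘ g) z)) h6
      exact h9.trans (map_zero _)
    have h10 : ∀ (κ : L → Cotangent F N), κ = ι →
        (mfderiv 𝓘(ℝ, F) (IC F) κ z a : F × (F →L[ℝ] ℝ)) = 0 →
        (mfderiv 𝓘(ℝ, F) (IC F) ι z a : F × (F →L[ℝ] ℝ)) = 0 := by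
      rintro κ rfl h; exact h
    exact h10 _ h3.symm h8
  exact ⟨diffeoOfBij hgs gi h1 h2 hinj, hψz⟩

/-- preservation of the canonical symplectic form -/
def Sympl (Φ : Cotangent F L → Cotangent F N) : Prop :=
  ∀ (ξ : Cotangent F L) (u v : TangentSpace (IC F) ξ),
      extDer (IC F) (canForm : (ξ : Cotangent F N) → _) (Φ ξ) (mfderiv (IC F) (IC F) Φ ξ u)
        (mfderiv (IC F) (IC F) Φ ξ v) =
      extDer (IC F) (canForm : (ξ : Cotangent F L) → _) ξ u v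

lemma Sympl.comp {M : Type*} [TopologicalSpace M] [ChartedSpace F M] [IsManifold 𝓘(ℝ, F) ∞ M]
    {Φ : Cotangent F L → Cotangent F N} {Ψ : Cotangent F N → Cotangent F M}
    (hΨ : Sympl Ψ) (hΦ : Sympl Φ) (h1 : ContMDiff (IC F) (IC F) ∞ Φ)
    (h2 : ContMDiff (IC F) (IC F) ∞ Ψ) : Sympl (Ψ ∘ Φ) := by
  intro ξ u v
  have h3 := fun u => DFunLike.congr_fun (mfderiv_comp (I := IC F) (I' := IC F) (I'' := IC F) ξ
    (h2.mdifferentiableAt (by simp) (x := Φ ξ)) (h1.mdifferentiableAt (by simp) (x := ξ))) u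
  have h4 : extDer (IC F) (canForm : (ξ : Cotangent F M) → _) ((Ψ ∘ Φ) ξ)
      (mfderiv (IC F) (IC F) (Ψ ∘ Φ) ξ u) (mfderiv (IC F) (IC F) (Ψ ∘ Φ) ξ v) =
      extDer (IC F) (canForm : (ξ : Cotangent F M) → _) (Ψ (Φ ξ))
      (mfderiv (IC F) (IC F) Ψ (Φ ξ) (mfderiv (IC F) (IC F) Φ ξ u))
      (mfderiv (IC F) (IC F) Ψ (Φ ξ) (mfderiv (IC F) (IC F) Φ ξ v)) :=
    congrArg₂ (extDer (IC F) (canForm : (ξ : Cotangent F M) → _) (Ψ (Φ ξ))) (h3 u) (h3 v)
  rw [h4, hΨ, hΦ]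

/-- Arnold's conclusion for `ι` is equivalent to `L ≅ N` together with the existence of a
symplectic diffeomorphism `T^*L → T^*N` extending `ι`. -/
theorem arnold_iff {ι : L → Cotangent F N} (hι : ContMDiff 𝓘(ℝ, F) (IC F) ∞ ι)
    (hιe : Topology.IsEmbedding ι)
    (hιimm : ∀ q, Function.Injective (mfderiv 𝓘(ℝ, F) (IC F) ι q)) :
    (∃ ψ : Diffeomorph (IC F) (IC F) (Cotangent F N) (Cotangent F N) ∞, Sympl ψ ∧
      ψ '' range (zeroC : N → Cotangent F N) = range ι) ↔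
    (Nonempty (Diffeomorph 𝓘(ℝ, F) 𝓘(ℝ, F) L N ∞) ∧
      ∃ Φ : Diffeomorph (IC F) (IC F) (Cotangent F L) (Cotangent F N) ∞, Sympl Φ ∧
        ∀ z, Φ (zeroC z) = ι z) := by
  constructor
  · rintro ⟨ψ, hψ, hψι⟩
    obtain ⟨g, hg⟩ := exists_diffeo hι hιe hιimm ψ hψι
    have h1 : Sympl (lift g : Cotangent F L → Cotangent F N) := (CSymp_lift g).extDer
    have h2 : Sympl ((ψ : Cotangent F N → Cotangent F N) ∘ (lift g : Cotangent F L → Cotangent F N)) :=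
      Sympl.comp hψ h1 (contMDiff_lift g) ψ.contMDiff
    exact ⟨⟨g⟩, (liftD g).trans ψ, h2, fun z => hg z⟩
  · rintro ⟨⟨g⟩, Φ, hΦ, hΦι⟩
    have h1 : Sympl (lift g.symm : Cotangent F N → Cotangent F L) := (CSymp_lift g.symm).extDer
    have h2 : Sympl ((Φ : Cotangent F L → Cotangent F N) ∘
        (lift g.symm : Cotangent F N → Cotangent F L)) :=
      Sympl.comp hΦ h1 (contMDiff_lift g.symm) Φ.contMDiff
    refine ⟨(liftD g.symm).trans Φ, h2, ?_⟩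
    · ext x
      constructor
      · rintro ⟨_, ⟨q, rfl⟩, rfl⟩
        exact ⟨g.symm q, (hΦι _).symm⟩
      · rintro ⟨z, rfl⟩
        refine ⟨_, ⟨g z, rfl⟩, ?_⟩
        show Φ (zeroC (g.symm (g z))) = ι z
        rw [g.symm_apply_apply, hΦι]

/-- Symplectic homeomorphisms from symplectic diffeomorphisms. -/
theorem homeo_of_symp {ι : L → Cotangent F N}
    (g : Diffeomorph 𝓘(ℝ, F) 𝓘(ℝ, F) L N ∞)
    (Φ : Diffeomorph (IC F) (IC F) (Cotangent F L) (Cotangent F N) ∞) (hΦ : CSymp 1 Φ)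
    (hΦι : ∀ z, Φ (zeroC z) = ι z) :
    ∃ h : Cotangent F N ≃ₜ Cotangent F N, C0Limit h ∧
      h '' range (zeroC : N → Cotangent F N) = range ι := by
  let ψ : Diffeomorph (IC F) (IC F) (Cotangent F N) (Cotangent F N) ∞ :=
    (liftD g.symm).trans Φ
  have hψ : CSymp 1 ψ := by
    have h := hΦ.comp (CSymp_lift g.symm)
    rw [one_mul] at h
    exact h
  refine ⟨ψ.toHomeomorph, ⟨fun _ => ψ, fun _ => hψ, tendsto_const_nhds, tendsto_const_nhds⟩, ?_⟩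
  ext x
  constructor
  · rintro ⟨_, ⟨q, rfl⟩, rfl⟩
    exact ⟨g.symm q, (hΦι _).symm⟩
  · rintro ⟨z, rfl⟩
    refine ⟨_, ⟨g z, rfl⟩, ?_⟩
    show Φ (zeroC (g.symm (g z))) = ι z
    rw [g.symm_apply_apply, hΦι]

end Pool.Agent.J4H58.Arn
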