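import Mathlib
import Pool.Agent.J4H58.Arn.App

/-! Gluing of the local approximations, and smallness of the hulls. -/

open scoped Topology ContDiff Manifold
open Set Metric Bundle MeasureTheory Filter

noncomputable section

namespace Pool.Agent.J4H58.Arn

open Pool.Agent.Helper186

set_option linter.unusedSectionVars false
set_option maxHeartbeats 800000

universe u

variable {F : Type u} [NormedAddCommGroup F] [NormedSpace ℝ F] [FiniteDimensional ℝ F]
  {N : Type*} [TopologicalSpace N] [ChartedSpace F N] [IsManifold 𝓘(ℝ, F) ∞ N]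
  {L : Type*} [TopologicalSpace L] [ChartedSpace F L] [IsManifold 𝓘(ℝ, F) ∞ L]
  {m : ℕ} {e : Fin m → N → ℝ} {v : Fin m → (q : N) → TangentSpace 𝓘(ℝ, F) q}
  {Y : Type*} [PseudoMetricSpace Y] {D : N → Y}

/-- The differential of `∑ ρ_i s_i`. -/
lemma dForm_sum_mul {ι : Type*} (t : Finset ι) {ρ s : ι → N → ℝ}
    (hρ : ∀ i, ContMDiff 𝓘(ℝ, F) 𝓘(ℝ, ℝ) ∞ (ρ i))
    (hs : ∀ i, ContMDiff 𝓘(ℝ, F) 𝓘(ℝ, ℝ) ∞ (s i)) (q : N) (u : TangentSpace 𝓘(ℝ, F) q) :
    dForm 𝓘(ℝ, F) (fun q => ∑ i ∈ t, ρ i q * s i q) q u =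
      ∑ i ∈ t, (ρ i q * dForm 𝓘(ℝ, F) (s i) q u + s i q * dForm 𝓘(ℝ, F) (ρ i) q u) := by
  let A : ι → F →L[ℝ] ℝ := fun i => dForm 𝓘(ℝ, F) (s i) q
  let B : ι → F →L[ℝ] ℝ := fun i => dForm 𝓘(ℝ, F) (ρ i) q
  have h0 : ∀ i, HasMFDerivAt 𝓘(ℝ, F) 𝓘(ℝ, ℝ) (ρ i * s i) q
      (ρ i q • A i + s i q • B i : F →L[ℝ] ℝ) := by
    intro i
    have h1 : HasMFDerivAt 𝓘(ℝ, F) 𝓘(ℝ, ℝ) (s i) q (A i) :=
      ((hs i).mdifferentiableAt (by simp)).hasMFDerivAt
    have h2 : HasMFDerivAt 𝓘(ℝ, F) 𝓘(ℝ, ℝ) (ρ i) q (B i) :=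
      ((hρ i).mdifferentiableAt (by simp)).hasMFDerivAt
    exact HasMFDerivAt.mul h2 h1
  have h1 : ∃ f' : F →L[ℝ] ℝ, HasMFDerivAt 𝓘(ℝ, F) 𝓘(ℝ, ℝ) (∑ i ∈ t, ρ i * s i) q f' ∧
      ∀ u, f' u = ∑ i ∈ t, (ρ i q * A i u + s i q * B i u) := by
    classical
    induction t using Finset.induction_on with
    | empty =>
      refine ⟨0, ?_, fun u => by simp⟩
      rw [Finset.sum_empty]
      exact hasMFDerivAt_const (0:ℝ) q
    | insert i t hi ih =>
      obtain ⟨f', hf', hfu⟩ := ih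
      refine ⟨(ρ i q • A i + s i q • B i) + f', ?_, ?_⟩
      · rw [Finset.sum_insert hi]
        exact (h0 i).add hf'
      · intro u
        rw [Finset.sum_insert hi, ← hfu]
        rfl
  obtain ⟨f', hf', hfu⟩ := h1
  have h2 : (fun q => ∑ i ∈ t, ρ i q * s i q) = ∑ i ∈ t, ρ i * s i := by
    ext1 q
    rw [Finset.sum_apply]
    rfl
  rw [h2]
  have h3 := DFunLike.congr_fun hf'.mfderiv u
  exact h3.trans (hfu _)

lemma Hull_mono {j : L → Cotangent F N} {ε ε' : ℝ} (h : ε ≤ ε') (q : N) :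
    Hull v D j ε q ⊆ Hull v D j ε' q := by
  refine (thickening_mono h _).trans (thickening_subset_of_subset _ (convexHull_mono ?_))
  rintro a ⟨z, hz, rfl⟩
  exact ⟨z, hz.trans_le h, rfl⟩

lemma Hull_add {j : L → Cotangent F N} {ε : ℝ} (hε : 0 < ε) {q : N} {a b : Fin m → ℝ}
    (ha : a ∈ Hull v D j (ε / 2) q) (hb : ‖b‖ < ε / 2) : a + b ∈ Hull v D j ε q := by
  rw [Hull, mem_thickening_iff] at ha ⊢
  obtain ⟨c, hc, hac⟩ := ha
  refine ⟨c, convexHull_mono ?_ hc, ?_⟩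
  · rintro a ⟨z, hz, rfl⟩
    exact ⟨z, hz.trans_le (by linarith), rfl⟩
  · have h1 := dist_triangle (a + b) a c
    have h2 : dist (a + b) a = ‖b‖ := by rw [dist_eq_norm, add_sub_cancel_left]
    linarith

variable [T2Space N] [CompactSpace L] [CompactSpace N]

/-- Global approximation. -/
theorem Sel.global_app (hfr : Frame (F := F) m e v) {j : L → Cotangent F N} (hj : Continuous j)
    {f₀ : L → ℝ} {Sf : N → ℝ} (hS : Sel (fun z => (j z).1) f₀ (fun z => (j z).2) Sf)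
    (hD : Continuous D) {ε : ℝ} (hε : 0 < ε) :
    ∃ s : N → ℝ, ContMDiff 𝓘(ℝ, F) 𝓘(ℝ, ℝ) ∞ s ∧
      ∀ q, ∃ a ∈ Hull v D j ε q, dForm 𝓘(ℝ, F) s q = rr F e q a := by
  classical
  choose W hW hloc using fun q₀ => hS.local_app hfr hj hD q₀ (half_pos hε)
  obtain ⟨t, ht⟩ := isCompact_univ.elim_nhds_subcover (fun q₀ => interior (W q₀))
    (fun q₀ _ => interior_mem_nhds.2 (hW q₀))
  obtain ⟨ρ, hρ⟩ := SmoothPartitionOfUnity.exists_isSubordinate (ι := t) 𝓘(ℝ, F)
    (isClosed_univ (X := N)) (fun i : t => interior (W i)) (fun i => isOpen_interior) (by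
      intro q hq
      have h1 := ht.2 hq
      simp only [mem_iUnion] at h1 ⊢
      obtain ⟨i, hi, h2⟩ := h1
      exact ⟨⟨i, hi⟩, h2⟩)
  have hρs : ∀ i : t, ContMDiff 𝓘(ℝ, F) 𝓘(ℝ, ℝ) ∞ (fun q => ρ i q) := fun i => (ρ i).contMDiff
  have hρsum : ∀ q, ∑ i, ρ i q = 1 := by
    intro q
    have h1 := ρ.sum_eq_one (mem_univ q)
    rwa [finsum_eq_sum_of_fintype] at h1
  -- the functions vanish outside of `W i`, with their differentials
  have hρ0 : ∀ (i : t) (q : N), q ∉ W i → ρ i q = 0 ∧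
      ∀ u : TangentSpace 𝓘(ℝ, F) q, dForm 𝓘(ℝ, F) (fun q => ρ i q) q u = 0 := by
    intro i q hq
    have h1 : q ∉ tsupport (ρ i) := fun h => hq (interior_subset (hρ i h))
    have h2 := notMem_tsupport_iff_eventuallyEq.1 h1
    refine ⟨h2.self_of_nhds, fun u => ?_⟩
    have h3 : (fun q => ρ i q) =ᶠ[𝓝 q] fun _ => (0:ℝ) := h2
    have h4 : dForm 𝓘(ℝ, F) (fun q => ρ i q) q = 0 := by
      unfold dForm
      rw [h3.mfderiv_eq]
      exact mfderiv_const
    rw [h4]; rfl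
  -- bound of the derivatives of the partition of unity
  obtain ⟨B, hB⟩ : ∃ B : ℝ, ∀ (i : t) (q : N),
      ‖cc v (⟨q, dForm 𝓘(ℝ, F) (fun q => ρ i q) q⟩ : Cotangent F N)‖ ≤ B := by
    have h1 : ∀ i : t, ∃ B : ℝ, ∀ q : N,
        ‖cc v (⟨q, dForm 𝓘(ℝ, F) (fun q => ρ i q) q⟩ : Cotangent F N)‖ ≤ B := by
      intro i
      have h2 : Continuous (fun q : N => transl (fun q => ρ i q) (zeroC q : Cotangent F N)) :=
        (contMDiff_transl (hρs i)).continuous.comp contMDiff_zeroC.continuous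
      obtain ⟨B, hB⟩ := isCompact_univ.exists_bound_of_continuousOn
        (hfr.continuous_cc.comp h2).continuousOn
      refine ⟨B, fun q => ?_⟩
      have h3 := hB q (mem_univ q)
      have h4 : transl (fun q => ρ i q) (zeroC q : Cotangent F N) =
          ⟨q, dForm 𝓘(ℝ, F) (fun q => ρ i q) q⟩ := by
        have h5 : (0 : TangentSpace 𝓘(ℝ, F) q →L[ℝ] ℝ) + dForm 𝓘(ℝ, F) (fun q => ρ i q) q =
          dForm 𝓘(ℝ, F) (fun q => ρ i q) q := zero_add _
        exact congrArg (TotalSpace.mk q) h5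
      simp only [Function.comp_apply] at h3
      rw [h4] at h3
      exact h3
    choose B hB using h1
    exact ⟨∑ i, |B i|, fun i q => (hB i q).trans ((le_abs_self _).trans
      (Finset.single_le_sum (f := fun i => |B i|) (fun i _ => abs_nonneg _)
        (Finset.mem_univ i)))⟩
  set η : ℝ := ε / (4 * (t.card * |B| + 1)) with hη
  have hηpos : 0 < η := by positivity
  have hηB : (t.card * |B|) * η < ε / 2 := by
    rw [hη, mul_div_assoc', div_lt_div_iff₀ (by positivity) (by norm_num)]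
    nlinarith [show (0:ℝ) ≤ t.card * |B| by positivity]
  choose s hs hsW using fun i : t => hloc i η hηpos
  refine ⟨fun q => ∑ i : t, ρ i q * s i q, ?_, ?_⟩
  · exact ContMDiff.sum fun i _ => (hρs i).mul (hs i)
  intro q
  -- the indices that matter
  set J : Finset t := Finset.univ.filter (fun i : t => q ∈ W i) with hJ
  have hJc : ∀ i : t, i ∉ J → q ∉ W i := by
    intro i hi
    simpa [hJ] using hi
  choose! a ha hsa using fun (i : t) (hi : q ∈ W i) => (hsW i q hi).2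
  have hJmem : ∀ i ∈ J, q ∈ W i := by
    intro i hi
    simpa [hJ] using hi
  have hJsum : ∑ i ∈ J, ρ i q = 1 := by
    rw [← hρsum q]
    apply Finset.sum_subset (Finset.subset_univ J)
    intro i _ hi
    exact (hρ0 i q (hJc i hi)).1
  set b : Fin m → ℝ := ∑ i ∈ J, (s i q - Sf q) •
    cc v (⟨q, dForm 𝓘(ℝ, F) (fun q => ρ i q) q⟩ : Cotangent F N) with hb
  refine ⟨∑ i ∈ J, ρ i q • a i + b, Hull_add hε ?_ ?_, ?_⟩
  · exact (convex_Hull (v := v) (D := D) j (ε / 2) q).sum_mem (fun i _ => ρ.nonneg i q) hJsum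
      (fun i hi => ha i (hJmem i hi))
  · refine lt_of_le_of_lt ?_ hηB
    rw [hb]
    refine (norm_sum_le _ _).trans ?_
    have h1 : ∀ i ∈ J, ‖(s i q - Sf q) •
        cc v (⟨q, dForm 𝓘(ℝ, F) (fun q => ρ i q) q⟩ : Cotangent F N)‖ ≤ η * |B| := by
      intro i hi
      rw [norm_smul, Real.norm_eq_abs]
      exact mul_le_mul ((hsW i q (hJmem i hi)).1) ((hB i q).trans (le_abs_self B))
        (norm_nonneg _) hηpos.le
    refine (Finset.sum_le_sum h1).trans ?_
    rw [Finset.sum_const, nsmul_eq_mul]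
    have h2 : (J.card : ℝ) ≤ t.card := by
      have h3 : J.card ≤ (Finset.univ : Finset t).card := Finset.card_le_univ J
      rw [Finset.card_univ, Fintype.card_coe] at h3
      exact_mod_cast h3
    calc (J.card : ℝ) * (η * |B|) ≤ t.card * (η * |B|) := by gcongr
      _ = (t.card * |B|) * η := by ring
  · refine ContinuousLinearMap.ext fun u => ?_
    rw [dForm_sum_mul Finset.univ hρs hs q u]
    have h1 : ∑ i : t, (ρ i q * dForm 𝓘(ℝ, F) (s i) q u +
        s i q * dForm 𝓘(ℝ, F) (fun q => ρ i q) q u) =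
        ∑ i ∈ J, (ρ i q * dForm 𝓘(ℝ, F) (s i) q u +
        s i q * dForm 𝓘(ℝ, F) (fun q => ρ i q) q u) := by
      symm
      apply Finset.sum_subset (Finset.subset_univ J)
      intro i _ hi
      obtain ⟨h2, h3⟩ := hρ0 i q (hJc i hi)
      rw [h2, h3, zero_mul, mul_zero, add_zero]
    rw [h1]
    -- the differentials of the partition of unity sum to zero
    have h2 : ∑ i ∈ J, dForm 𝓘(ℝ, F) (fun q => ρ i q) q u = 0 := by
      have h3 : ∑ i : t, dForm 𝓘(ℝ, F) (fun q => ρ i q) q u = 0 := by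
        have h4 := dForm_sum_mul (Finset.univ : Finset t) hρs
          (s := fun _ _ => (1:ℝ)) (fun _ => contMDiff_const) q u
        have h5 : (fun q => ∑ i : t, ρ i q * (1:ℝ)) = fun _ => (1:ℝ) := by
          ext1 q
          simp only [mul_one]
          exact hρsum q
        rw [h5] at h4
        have h6 : ∀ c : ℝ, dForm 𝓘(ℝ, F) (fun _ : N => c) q u = 0 := by
          intro c
          have h7 : dForm 𝓘(ℝ, F) (fun _ : N => c) q = 0 := mfderiv_const
          rw [h7]; rfl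
        rw [h6] at h4
        rw [h4]
        exact Finset.sum_congr rfl fun i _ => by ring
      rw [← h3]
      apply Finset.sum_subset (Finset.subset_univ J)
      intro i _ hi
      exact (hρ0 i q (hJc i hi)).2 u
    have h3 : rr F e q (∑ i ∈ J, ρ i q • a i + b) u =
        ∑ i ∈ J, (ρ i q * rr F e q (a i) u +
          (s i q - Sf q) * dForm 𝓘(ℝ, F) (fun q => ρ i q) q u) := by
      rw [rr_add, hb, rr_sum, rr_sum]
      have h4 : (∑ i ∈ J, rr F e q (ρ i q • a i) + ∑ i ∈ J, rr F e q ((s i q - Sf q) •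
          cc v (⟨q, dForm 𝓘(ℝ, F) (fun q => ρ i q) q⟩ : Cotangent F N))) u =
          ∑ i ∈ J, rr F e q (ρ i q • a i) u + ∑ i ∈ J, rr F e q ((s i q - Sf q) •
          cc v (⟨q, dForm 𝓘(ℝ, F) (fun q => ρ i q) q⟩ : Cotangent F N)) u := by
        rw [← sum_apply, ← sum_apply]
        rfl
      rw [h4, ← Finset.sum_add_distrib]
      refine Finset.sum_congr rfl fun i _ => ?_
      rw [rr_smul, rr_smul]
      have h5 := hfr.rr_cc (⟨q, dForm 𝓘(ℝ, F) (fun q => ρ i q) q⟩ : Cotangent F N)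
      rw [h5]
      rfl
    rw [h3]
    have h4 : ∀ i ∈ J, ρ i q * dForm 𝓘(ℝ, F) (s i) q u +
        s i q * dForm 𝓘(ℝ, F) (fun q => ρ i q) q u =
        (ρ i q * rr F e q (a i) u +
          (s i q - Sf q) * dForm 𝓘(ℝ, F) (fun q => ρ i q) q u) +
        Sf q * dForm 𝓘(ℝ, F) (fun q => ρ i q) q u := by
      intro i hi
      rw [← hsa i (hJmem i hi)]
      ring
    rw [Finset.sum_congr rfl h4, Finset.sum_add_distrib, ← Finset.mul_sum, h2, mul_zero, add_zero]

end Pool.Agent.J4H58.Arn
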