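import Mathlib
import Pool.Agent.J4H58.Arn.Glue

/-! The hulls are small if the fibres of the Lagrangian are convex. -/

open scoped Topology ContDiff Manifold
open Set Metric Bundle MeasureTheory Filter

noncomputable section

namespace Pool.Agent.J4H58.Arn

open Pool.Agent.Helper186

set_option linter.unusedSectionVars false
set_option maxHeartbeats 800000

universe u

variable {F : Type u} [NormedAddCommGroup F] [NormedSpace ℝ F] [FiniteDimensional ℝ F]
  {N : Type*} [TopologicalSpace N] [ChartedSpace F N] [IsManifold 𝓘(ℝ, F) ∞ N]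
  {L : Type*} [TopologicalSpace L] [ChartedSpace F L] [IsManifold 𝓘(ℝ, F) ∞ L]
  {m : ℕ} {e : Fin m → N → ℝ} {v : Fin m → (q : N) → TangentSpace 𝓘(ℝ, F) q}
  {Y : Type*} [PseudoMetricSpace Y] {D : N → Y}

/-- The covectors of `K` at `q`. -/
def fib (K : Set (Cotangent F N)) (q : N) : Set (TangentSpace 𝓘(ℝ, F) q →L[ℝ] ℝ) :=
  {p | (⟨q, p⟩ : Cotangent F N) ∈ K}

theorem hull_small [T2Space N] [CompactSpace N] [CompactSpace L]
    (hfr : Frame (F := F) m e v) {j : L → Cotangent F N} (hj : Continuous j)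
    (hD : Topology.IsInducing D) (hconv : ∀ q, Convex ℝ (fib (range j) q))
    {U : Set (Cotangent F N)} (hU : IsOpen U) (hjU : range j ⊆ U) :
    ∃ ε > 0, ∀ q, ∀ a ∈ Hull v D j ε q, ∀ p ∈ fib (range j) q, ∀ t ∈ Icc (0:ℝ) 1,
      (⟨q, (1 - t) • rr F e q a + t • p⟩ : Cotangent F N) ∈ U := by
  classical
  have key : ∃ ε > 0, ∀ ε' ≤ ε, ∀ q ∈ (univ : Set N), ∀ a ∈ Hull v D j ε' q,
      ∀ p ∈ fib (range j) q, ∀ t ∈ Icc (0:ℝ) 1,
      (⟨q, (1 - t) • rr F e q a + t • p⟩ : Cotangent F N) ∈ U := by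
    refine (isCompact_univ (X := N)).induction_on
      (p := fun s => ∃ ε > 0, ∀ ε' ≤ ε, ∀ q ∈ s, ∀ a ∈ Hull v D j ε' q,
        ∀ p ∈ fib (range j) q, ∀ t ∈ Icc (0:ℝ) 1,
        (⟨q, (1 - t) • rr F e q a + t • p⟩ : Cotangent F N) ∈ U) ?_ ?_ ?_ ?_
    · exact ⟨1, one_pos, fun _ _ q hq => absurd hq (notMem_empty q)⟩
    · rintro s t hst ⟨ε, hε, h⟩
      exact ⟨ε, hε, fun ε' hε' q hq => h ε' hε' q (hst hq)⟩
    · rintro s t ⟨ε₁, hε₁, h₁⟩ ⟨ε₂, hε₂, h₂⟩
      refine ⟨min ε₁ ε₂, lt_min hε₁ hε₂, fun ε' hε' q hq => ?_⟩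
      rcases hq with hq | hq
      · exact h₁ ε' (hε'.trans (min_le_left _ _)) q hq
      · exact h₂ ε' (hε'.trans (min_le_right _ _)) q hq
    · intro q₀ _
      -- the compact convex set of coordinates over `q₀`
      set K₀ : Set (Fin m → ℝ) := (fun z => cc v (j z)) '' {z | (j z).1 = q₀} with hK₀
      have hccj : Continuous (fun z => cc v (j z)) := hfr.continuous_cc.comp hj
      have hg : Continuous (fun z => (j z).1) := contMDiff_projC.continuous.comp hj
      have hLc : IsCompact {z : L | (j z).1 = q₀} :=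
        (isClosed_eq hg continuous_const).isCompact
      have hK₀c : IsCompact K₀ := hLc.image hccj
      have hK₀conv : Convex ℝ K₀ := by
        rintro _ ⟨z, hz, rfl⟩ _ ⟨z', hz', rfl⟩ s t hs ht hst
        have hz1 : (j z).1 = q₀ := hz
        have hz2 : (j z').1 = q₀ := hz'
        -- write the points as covectors at `q₀`
        have hex : ∀ ξ : Cotangent F N, ξ.1 = q₀ → ∃ p : TangentSpace 𝓘(ℝ, F) q₀ →L[ℝ] ℝ,
            ξ = ⟨q₀, p⟩ := by
          rintro ⟨q, p⟩ rfl
          exact ⟨p, rfl⟩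
        obtain ⟨p, hp⟩ := hex _ hz1
        obtain ⟨p', hp'⟩ := hex _ hz2
        have h1 : p ∈ fib (range j) q₀ := ⟨z, hp⟩
        have h2 : p' ∈ fib (range j) q₀ := ⟨z', hp'⟩
        obtain ⟨z'', hz''⟩ := hconv q₀ h1 h2 hs ht hst
        refine ⟨z'', by rw [Set.mem_ofPred_eq, hz''], ?_⟩
        simp only
        rw [hz'', hp, hp']
        ext1 k
        rfl
      -- a product neighbourhood
      have hV : IsOpen {x : N × (Fin m → ℝ) | (⟨x.1, rr F e x.1 x.2⟩ : Cotangent F N) ∈ U} :=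
        hU.preimage (continuous_rr hfr.smooth_e)
      obtain ⟨u, w, hu, hw, h1, h2, h3⟩ := generalized_tube_lemma
        (isCompact_singleton (x := q₀)) hK₀c hV (by
          rintro ⟨q, a⟩ ⟨hq, z, hz, rfl⟩
          have hq' : q = q₀ := hq
          have hz' : (j z).1 = q₀ := hz
          subst hq'
          show (⟨q, rr F e q (cc v (j z))⟩ : Cotangent F N) ∈ U
          have h4 : (⟨q, rr F e q (cc v (j z))⟩ : Cotangent F N) = j z := by
            have h5 : ∀ ξ : Cotangent F N, ξ.1 = q →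
                (⟨q, rr F e q (cc v ξ)⟩ : Cotangent F N) = ξ := by
              rintro ξ rfl
              rw [hfr.rr_cc]
            exact h5 _ hz'
          rw [h4]
          exact hjU ⟨z, rfl⟩)
      obtain ⟨r, hr, hrw⟩ := hK₀c.exists_thickening_subset_open hw h2
      -- upper semicontinuity
      have husc : ∃ W ∈ 𝓝 q₀, ∀ z, (j z).1 ∈ W → cc v (j z) ∈ thickening (r / 2) K₀ := by
        set A : Set L := {z | cc v (j z) ∉ thickening (r / 2) K₀} with hA
        have hAc : IsCompact A := (isOpen_thickening.preimage hccj).isClosed_compl.isCompact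
        refine ⟨((fun z => (j z).1) '' A)ᶜ, ?_, ?_⟩
        · refine (hAc.image hg).isClosed.isOpen_compl.mem_nhds ?_
          rintro ⟨z, hz, hzq⟩
          exact hz (self_subset_thickening (half_pos hr) K₀ ⟨z, hzq, rfl⟩)
        · intro z hz
          by_contra h
          exact hz ⟨z, h, rfl⟩
      obtain ⟨W, hW, hWz⟩ := husc
      have hWu : W ∩ u ∈ 𝓝 q₀ := Filter.inter_mem hW (hu.mem_nhds (h1 rfl))
      rw [hD.nhds_eq_comap, Filter.mem_comap] at hWu
      obtain ⟨B, hB, hBW⟩ := hWu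
      obtain ⟨ε₀, hε₀, hball⟩ := Metric.mem_nhds_iff.1 hB
      set ε := min (ε₀ / 2) (r / 2) with hε
      have hεpos : 0 < ε := by positivity
      refine ⟨D ⁻¹' ball (D q₀) ε, mem_nhdsWithin_of_mem_nhds ?_, ε, hεpos, ?_⟩
      · rw [hD.nhds_eq_comap]
        exact Filter.preimage_mem_comap (ball_mem_nhds _ hεpos)
      intro ε' hε' q hq a ha p hp t ht
      have hqd : dist (D q) (D q₀) < ε := hq
      have hεε₀ : ε ≤ ε₀ / 2 := min_le_left _ _
      have hεr : ε ≤ r / 2 := min_le_right _ _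
      have hqW : q ∈ W ∩ u := hBW (hball (by rw [mem_ball]; linarith))
      -- the hull is in the thickening
      have haT : a ∈ thickening r K₀ := by
        have h4 : convexHull ℝ {a | ∃ z, dist (D (j z).1) (D q) < ε' ∧ a = cc v (j z)} ⊆
            thickening (r / 2) K₀ := by
          apply convexHull_min _ (hK₀conv.thickening (r / 2))
          rintro _ ⟨z, hz, rfl⟩
          apply hWz
          have h5 := dist_triangle (D (j z).1) (D q) (D q₀)
          exact (hBW (hball (by rw [mem_ball]; linarith))).1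
        have h5 := thickening_subset_of_subset ε' h4 ha
        have h6 := thickening_thickening_subset ε' (r / 2) K₀ h5
        exact thickening_mono (by linarith) _ h6
      have hpT : cc v (⟨q, p⟩ : Cotangent F N) ∈ thickening r K₀ := by
        obtain ⟨z, hz⟩ := hp
        rw [← hz]
        exact thickening_mono (by linarith) _ (hWz z (by rw [hz]; exact hqW.1))
      have hcomb : (1 - t) • a + t • cc v (⟨q, p⟩ : Cotangent F N) ∈ thickening r K₀ :=
        (hK₀conv.thickening r) haT hpT (by linarith [ht.2]) ht.1 (by ring)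
      have h4 : ((q, (1 - t) • a + t • cc v (⟨q, p⟩ : Cotangent F N)) : N × (Fin m → ℝ)) ∈
          {x : N × (Fin m → ℝ) | (⟨x.1, rr F e x.1 x.2⟩ : Cotangent F N) ∈ U} :=
        h3 ⟨hqW.2, hrw hcomb⟩
      have h5 : rr F e q ((1 - t) • a + t • cc v (⟨q, p⟩ : Cotangent F N)) =
          (1 - t) • rr F e q a + t • p := by
        rw [rr_add, rr_smul, rr_smul]
        have h6 := hfr.rr_cc (⟨q, p⟩ : Cotangent F N)
        rw [h6]
      have h6 : (⟨q, rr F e q ((1 - t) • a + t • cc v (⟨q, p⟩ : Cotangent F N))⟩ :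
        Cotangent F N) ∈ U := h4
      rwa [h5] at h6
  obtain ⟨ε, hε, h⟩ := key
  exact ⟨ε, hε, fun q => h ε le_rfl q (mem_univ q)⟩

end Pool.Agent.J4H58.Arn
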