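import Mathlib
import Pool.Agent.J4H58.Arn.Small
import Pool.Agent.J4H58.Arn.Char

/-! Exact Lagrangians with convex fibres. -/

open scoped Topology ContDiff Manifold
open Set Metric Bundle MeasureTheory Filter

noncomputable section

namespace Pool.Agent.J4H58.Arn

open Pool.Agent.Helper186

set_option linter.unusedSectionVars false
set_option maxHeartbeats 800000

universe u

variable {F : Type u} [NormedAddCommGroup F] [NormedSpace ℝ F] [FiniteDimensional ℝ F]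
  {N : Type*} [TopologicalSpace N] [ChartedSpace F N] [IsManifold 𝓘(ℝ, F) ∞ N]
  {L : Type*} [TopologicalSpace L] [ChartedSpace F L] [IsManifold 𝓘(ℝ, F) ∞ L]
  [T2Space N] [CompactSpace N] [T2Space L] [CompactSpace L]

/-- A smooth map on `L` with values in `F` extends. -/
lemma exists_extend_vec {ι : L → Cotangent F N} (hι : ContMDiff 𝓘(ℝ, F) (IC F) ∞ ι)
    (hιe : Topology.IsEmbedding ι)
    (hιimm : ∀ q, Function.Injective (mfderiv 𝓘(ℝ, F) (IC F) ι q))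
    {χ : L → F} (hχ : ContMDiff 𝓘(ℝ, F) 𝓘(ℝ, F) ∞ χ) :
    ∃ X : Cotangent F N → F, ContMDiff (IC F) 𝓘(ℝ, F) ∞ X ∧ ∀ z, X (ι z) = χ z := by
  let b := Module.finBasis ℝ F
  let ℓ : Fin (Module.finrank ℝ F) → (F →L[ℝ] ℝ) := fun i =>
    LinearMap.toContinuousLinearMap (b.coord i)
  have h1 : ∀ i, ∃ f : Cotangent F N → ℝ, ContMDiff (IC F) 𝓘(ℝ, ℝ) ∞ f ∧
      ∀ z, f (ι z) = ℓ i (χ z) := fun i =>
    exists_extend hι hιe hιimm ((ℓ i).contMDiff.comp hχ)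
  choose f hf hfι using h1
  refine ⟨fun ξ => ∑ i, f i ξ • b i, ?_, fun z => ?_⟩
  · exact ContMDiff.sum fun i _ => (hf i).smul contMDiff_const
  · simp only [hfι]
    exact b.sum_repr (χ z)

/-- Curves in a fibre that run inside of an embedded submanifold lift. -/
lemma exists_lift {ι : L → Cotangent F N} (hι : ContMDiff 𝓘(ℝ, F) (IC F) ∞ ι)
    (hιe : Topology.IsEmbedding ι)
    (hιimm : ∀ q, Function.Injective (mfderiv 𝓘(ℝ, F) (IC F) ι q))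
    {c : ℝ → Cotangent F N} (hc : ContMDiff 𝓘(ℝ, ℝ) (IC F) ∞ c)
    (hcι : ∀ t ∈ Icc (0:ℝ) 1, c t ∈ range ι) {t₀ : ℝ} {z₀ : L} (hz₀ : ι z₀ = c t₀) :
    ∃ ζ : ℝ → L, ContMDiffAt 𝓘(ℝ, ℝ) 𝓘(ℝ, F) ∞ ζ t₀ ∧ ζ t₀ = z₀ ∧
      ∀ᶠ t in 𝓝[Icc (0:ℝ) 1] t₀, ι (ζ t) = c t := by
  obtain ⟨χ, hχ, hχi⟩ := exists_local_coord_at (I := 𝓘(ℝ, F)) z₀
  obtain ⟨X, hX, hXι⟩ := exists_extend_vec hι hιe hιimm hχ
  obtain ⟨S, κ, hSo, hz₀S, hκ, hopen, hκs⟩ := local_inverse hχ hχi rfl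
  have hXc : ContMDiff 𝓘(ℝ, ℝ) 𝓘(ℝ, F) ∞ (fun t => X (c t)) := hX.comp hc
  have h0 : X (c t₀) = χ z₀ := by rw [← hz₀, hXι]
  refine ⟨fun t => κ (X (c t)), ?_, ?_, ?_⟩
  · have h1 : ContMDiffAt 𝓘(ℝ, F) 𝓘(ℝ, F) ∞ κ (X (c t₀)) := by
      rw [h0]; exact hκs z₀ hz₀S
    exact h1.comp t₀ (hXc t₀)
  · simp only
    rw [h0, hκ z₀ hz₀S]
  · obtain ⟨O', hO', hO'S⟩ := hιe.isInducing.isOpen_iff.1 hSo
    have h1 : c t₀ ∈ O' := by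
      rw [← hz₀]
      have : z₀ ∈ ι ⁻¹' O' := by rw [hO'S]; exact hz₀S
      exact this
    have h2 : ∀ᶠ t in 𝓝 t₀, c t ∈ O' := hc.continuous.continuousAt.eventually
      (hO'.mem_nhds h1)
    filter_upwards [self_mem_nhdsWithin, mem_nhdsWithin_of_mem_nhds h2] with t ht htO
    obtain ⟨z, hz⟩ := hcι t ht
    have h3 : z ∈ S := by
      rw [← hO'S]; show ι z ∈ O'; rw [hz]; exact htO
    rw [← hz, hXι, hκ z h3]

variable {j : L → Cotangent F N} {f₀ : L → ℝ}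

/-- The segment between two covectors. -/
def seg (q : N) (p₀ p₁ : TangentSpace 𝓘(ℝ, F) q →L[ℝ] ℝ) (t : ℝ) : Cotangent F N :=
  ⟨q, p₀ + t • (p₁ - p₀)⟩

lemma contMDiff_seg (q : N) (p₀ p₁ : TangentSpace 𝓘(ℝ, F) q →L[ℝ] ℝ) :
    ContMDiff 𝓘(ℝ, ℝ) (IC F) ∞ (seg q p₀ p₁) := by
  have h1 : ContDiff ℝ ∞ (fun t : ℝ =>
      (show F →L[ℝ] ℝ from p₀) + t • ((show F →L[ℝ] ℝ from p₁) - (show F →L[ℝ] ℝ from p₀))) :=
    contDiff_const.add (contDiff_id.smul contDiff_const)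
  exact (contMDiff_incl q).comp h1.contMDiff

/-- A real function along a lift. -/
lemma deriv_lift {ζ : ℝ → L} {t₀ : ℝ} (hζ : ContMDiffAt 𝓘(ℝ, ℝ) 𝓘(ℝ, F) ∞ ζ t₀)
    {z₀ : L} (hz₀ : ζ t₀ = z₀) {φ : L → ℝ} (hφ : ContMDiff 𝓘(ℝ, F) 𝓘(ℝ, ℝ) ∞ φ) {y : ℝ → ℝ}
    {y' : ℝ} (hy : HasDerivAt y y' t₀) (ht₀ : t₀ ∈ Icc (0:ℝ) 1)
    (heq : ∀ᶠ t in 𝓝[Icc (0:ℝ) 1] t₀, φ (ζ t) = y t) :
    (show F →L[ℝ] ℝ from dForm 𝓘(ℝ, F) φ z₀)
      (show F from mfderiv 𝓘(ℝ, ℝ) 𝓘(ℝ, F) ζ t₀ (1:ℝ)) = y' := by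
  subst hz₀
  have h1 := DFunLike.congr_fun (mfderiv_comp (I := 𝓘(ℝ, ℝ)) (I' := 𝓘(ℝ, F)) (I'' := 𝓘(ℝ, ℝ)) t₀
    (hφ.mdifferentiableAt (by simp) (x := ζ t₀)) (hζ.mdifferentiableAt (by simp))) (1:ℝ)
  have h2 : ContDiffAt ℝ ∞ (fun t => φ (ζ t)) t₀ :=
    contMDiffAt_iff_contDiffAt.1 ((hφ _).comp t₀ hζ)
  have h3 : HasDerivAt (fun t => φ (ζ t)) (deriv (fun t => φ (ζ t)) t₀) t₀ :=
    (h2.differentiableAt (by simp)).hasDerivAt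
  have h4 : mfderiv 𝓘(ℝ, ℝ) 𝓘(ℝ, ℝ) (φ ∘ ζ) t₀ (1:ℝ) = deriv (fun t => φ (ζ t)) t₀ := by
    rw [mfderiv_eq_fderiv]
    exact fderiv_apply_one_eq_deriv
  have h5 : HasDerivWithinAt (fun t => φ (ζ t)) y' (Icc 0 1) t₀ :=
    (hy.hasDerivWithinAt).congr_of_eventuallyEq heq (heq.self_of_nhdsWithin ht₀)
  have h6 : UniqueDiffWithinAt ℝ (Icc (0:ℝ) 1) t₀ := uniqueDiffOn_Icc one_pos t₀ ht₀
  have h7 := h6.eq_deriv _ h3.hasDerivWithinAt h5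
  rw [← h7, ← h4]
  exact h1.symm

variable {m : ℕ} {e : Fin m → N → ℝ} {v : Fin m → (q : N) → TangentSpace 𝓘(ℝ, F) q}

/-- The tangent vector of a lifted segment. -/
lemma seg_vec (hfr : Frame (F := F) m e v) (hj : ContMDiff 𝓘(ℝ, F) (IC F) ∞ j)
    (hje : Topology.IsEmbedding j) (hji : ∀ z, Function.Injective (mfderiv 𝓘(ℝ, F) (IC F) j z))
    {q : N} {p₀ p₁ : TangentSpace 𝓘(ℝ, F) q →L[ℝ] ℝ}
    (hseg : ∀ t ∈ Icc (0:ℝ) 1, seg q p₀ p₁ t ∈ range j) {t₀ : ℝ} (ht₀ : t₀ ∈ Icc (0:ℝ) 1)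
    {z₀ : L} (hz₀ : j z₀ = seg q p₀ p₁ t₀) :
    ∃ u₀ : TangentSpace 𝓘(ℝ, F) z₀, mfderiv 𝓘(ℝ, F) 𝓘(ℝ, F) (fun z => (j z).1) z₀ u₀ = 0 ∧
      (p₀ ≠ p₁ → u₀ ≠ 0) ∧ ∀ (φ : L → ℝ), ContMDiff 𝓘(ℝ, F) 𝓘(ℝ, ℝ) ∞ φ →
        ∀ Φ : Cotangent F N → ℝ, ContMDiff (IC F) 𝓘(ℝ, ℝ) ∞ Φ → (∀ z, Φ (j z) = φ z) →
          HasDerivAt (fun t => Φ (seg q p₀ p₁ t)) (dForm 𝓘(ℝ, F) φ z₀ u₀) t₀ := by
  obtain ⟨ζ, hζ, hζ₀, hζc⟩ := exists_lift hj hje hji (contMDiff_seg q p₀ p₁) hseg hz₀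
  have hg : ContMDiff 𝓘(ℝ, F) 𝓘(ℝ, F) ∞ (fun z => (j z).1) := contMDiff_projC.comp hj
  have hthird : ∀ (φ : L → ℝ), ContMDiff 𝓘(ℝ, F) 𝓘(ℝ, ℝ) ∞ φ →
        ∀ Φ : Cotangent F N → ℝ, ContMDiff (IC F) 𝓘(ℝ, ℝ) ∞ Φ → (∀ z, Φ (j z) = φ z) →
          HasDerivAt (fun t => Φ (seg q p₀ p₁ t)) ((show F →L[ℝ] ℝ from dForm 𝓘(ℝ, F) φ z₀)
            (show F from mfderiv 𝓘(ℝ, ℝ) 𝓘(ℝ, F) ζ t₀ (1:ℝ))) t₀ := by
    intro φ hφ Φ hΦ hΦφ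
    have h1 : ContDiff ℝ ∞ (fun t => Φ (seg q p₀ p₁ t)) :=
      (hΦ.comp (contMDiff_seg q p₀ p₁)).contDiff
    have h2 : HasDerivAt (fun t => Φ (seg q p₀ p₁ t))
        (deriv (fun t => Φ (seg q p₀ p₁ t)) t₀) t₀ :=
      (h1.contDiffAt.differentiableAt (by simp)).hasDerivAt
    have h3 := deriv_lift hζ hζ₀ hφ h2 ht₀ (by
      filter_upwards [hζc] with t ht
      rw [← hΦφ, ht])
    rw [h3]
    exact h2
  have hfirst : mfderiv 𝓘(ℝ, F) 𝓘(ℝ, F) (fun z => (j z).1) z₀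
      (show F from mfderiv 𝓘(ℝ, ℝ) 𝓘(ℝ, F) ζ t₀ (1:ℝ)) = 0 := by
    rw [← hfr.sum _ (mfderiv 𝓘(ℝ, F) 𝓘(ℝ, F) (fun z => (j z).1) z₀
      (show F from mfderiv 𝓘(ℝ, ℝ) 𝓘(ℝ, F) ζ t₀ (1:ℝ)))]
    refine Finset.sum_eq_zero fun k _ => ?_
    have h1 := hthird (fun z => e k (j z).1) ((hfr.smooth_e k).comp hg)
      (fun ξ => e k ξ.1) ((hfr.smooth_e k).comp contMDiff_projC) (fun _ => rfl)
    have h2 : HasDerivAt (fun t => e k (seg q p₀ p₁ t).1) 0 t₀ := hasDerivAt_const t₀ (e k q)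
    have h3 := h1.unique h2
    have h4 := DFunLike.congr_fun (mfderiv_comp (I := 𝓘(ℝ, F)) (I' := 𝓘(ℝ, F)) (I'' := 𝓘(ℝ, ℝ))
      z₀ ((hfr.smooth_e k).mdifferentiableAt (by simp) (x := (j z₀).1))
      (hg.mdifferentiableAt (by simp)))
      (show F from mfderiv 𝓘(ℝ, ℝ) 𝓘(ℝ, F) ζ t₀ (1:ℝ))
    have h5 : dForm 𝓘(ℝ, F) (e k) (j z₀).1 (mfderiv 𝓘(ℝ, F) 𝓘(ℝ, F) (fun z => (j z).1) z₀
      (show F from mfderiv 𝓘(ℝ, ℝ) 𝓘(ℝ, F) ζ t₀ (1:ℝ))) = 0 := h4.symm.trans h3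
    rw [h5, zero_smul]
  refine ⟨(show F from mfderiv 𝓘(ℝ, ℝ) 𝓘(ℝ, F) ζ t₀ (1:ℝ)), hfirst, ?_, hthird⟩
  intro hne hu
  apply hne
  have h1 : cc v (⟨q, p₁ - p₀⟩ : Cotangent F N) = 0 := by
    ext1 k
    have h2 := hthird (fun z => cfun (v k) (j z)) ((contMDiff_cfun (hfr.smooth_v k)).comp hj)
      (cfun (v k)) (contMDiff_cfun (hfr.smooth_v k)) (fun _ => rfl)
    have h3 : HasDerivAt (fun t : ℝ => p₀ (v k q) + t * (p₁ - p₀) (v k q))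
        ((p₁ - p₀) (v k q)) t₀ := by
      have h4 := ((hasDerivAt_id t₀).mul_const ((p₁ - p₀) (v k q))).const_add (p₀ (v k q))
      rw [one_mul] at h4
      exact h4
    have h4 := h2.unique h3
    have h5 : (show F →L[ℝ] ℝ from dForm 𝓘(ℝ, F) (fun z => cfun (v k) (j z)) z₀)
        (show F from mfderiv 𝓘(ℝ, ℝ) 𝓘(ℝ, F) ζ t₀ (1:ℝ)) = 0 := by
      have h6 : (show F from mfderiv 𝓘(ℝ, ℝ) 𝓘(ℝ, F) ζ t₀ (1:ℝ)) = 0 := hu
      rw [h6]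
      exact map_zero _
    rw [h5] at h4
    exact h4.symm
  have h2 := hfr.rr_cc (⟨q, p₁ - p₀⟩ : Cotangent F N)
  rw [h1] at h2
  have h3 : rr F e q (0 : Fin m → ℝ) = 0 := by
    refine ContinuousLinearMap.ext fun u => ?_
    rw [rr_apply]
    exact Finset.sum_eq_zero fun k _ => by rw [Pi.zero_apply, zero_mul]
  have h4 : p₁ - p₀ = 0 := h2.symm.trans h3
  exact (sub_eq_zero.1 h4).symm

lemma seg_mem (hconv : ∀ q, Convex ℝ (fib (range j) q)) {q : N}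
    {p₀ p₁ : TangentSpace 𝓘(ℝ, F) q →L[ℝ] ℝ} (h₀ : p₀ ∈ fib (range j) q)
    (h₁ : p₁ ∈ fib (range j) q) : ∀ t ∈ Icc (0:ℝ) 1, seg q p₀ p₁ t ∈ range j := by
  intro t ht
  have h1 := hconv q h₀ h₁ (by linarith [ht.2] : 0 ≤ 1 - t) ht.1 (by ring)
  have h2 : (1 - t) • p₀ + t • p₁ = p₀ + t • (p₁ - p₀) := by module
  rw [h2] at h1
  exact h1

lemma exists_cov {q : N} (ξ : Cotangent F N) (h : ξ.1 = q) :
    ∃ p : TangentSpace 𝓘(ℝ, F) q →L[ℝ] ℝ, ξ = ⟨q, p⟩ := by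
  subst h
  exact ⟨ξ.2, rfl⟩

/-- Points in the same fibre are critical. -/
lemma crit_of_fib (hfr : Frame (F := F) m e v) (hj : ContMDiff 𝓘(ℝ, F) (IC F) ∞ j)
    (hje : Topology.IsEmbedding j) (hji : ∀ z, Function.Injective (mfderiv 𝓘(ℝ, F) (IC F) j z))
    (hconv : ∀ q, Convex ℝ (fib (range j) q)) {z z' : L} (hzz : (j z).1 = (j z').1)
    (hne : z ≠ z') : Crit F (fun z => (j z).1) z := by
  obtain ⟨p₁, hp₁⟩ := exists_cov (j z') hzz.symm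
  have hp₀ : j z = ⟨(j z).1, (j z).2⟩ := rfl
  have hz : j z = seg (j z).1 (j z).2 p₁ 0 := by
    have h1 : (j z).2 + (0:ℝ) • (p₁ - (j z).2) = (j z).2 := by rw [zero_smul, add_zero]
    exact (congrArg (TotalSpace.mk (j z).1) h1).symm
  obtain ⟨u₀, h1, h2, -⟩ := seg_vec hfr hj hje hji (seg_mem hconv (p₀ := (j z).2) (p₁ := p₁)
    ⟨z, hp₀⟩ ⟨z', hp₁⟩) ⟨le_rfl, zero_le_one⟩ hz
  refine ⟨u₀, h2 ?_, h1⟩
  intro h3
  apply hne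
  apply hje.injective
  rw [hp₁, ← h3]

/-- The primitive is constant on the fibres. -/
lemma const_of_fib (hfr : Frame (F := F) m e v) (hj : ContMDiff 𝓘(ℝ, F) (IC F) ∞ j)
    (hje : Topology.IsEmbedding j) (hji : ∀ z, Function.Injective (mfderiv 𝓘(ℝ, F) (IC F) j z))
    (hconv : ∀ q, Convex ℝ (fib (range j) q)) (hf₀ : ContMDiff 𝓘(ℝ, F) 𝓘(ℝ, ℝ) ∞ f₀)
    (hdf : ∀ (z : L) (u : TangentSpace 𝓘(ℝ, F) z), dForm 𝓘(ℝ, F) f₀ z u =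
      (j z).2 (mfderiv 𝓘(ℝ, F) 𝓘(ℝ, F) (fun z => (j z).1) z u))
    {z z' : L} (hzz : (j z).1 = (j z').1) : f₀ z = f₀ z' := by
  obtain ⟨p₁, hp₁⟩ := exists_cov (j z') hzz.symm
  obtain ⟨Φ, hΦ, hΦj⟩ := exists_extend hj hje hji hf₀
  have hp₀ : j z = ⟨(j z).1, (j z).2⟩ := rfl
  have hseg := seg_mem hconv (p₀ := (j z).2) (p₁ := p₁) ⟨z, hp₀⟩ ⟨z', hp₁⟩
  have hd : ∀ t ∈ Icc (0:ℝ) 1, HasDerivAt (fun t => Φ (seg (j z).1 (j z).2 p₁ t)) 0 t := by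
    intro t ht
    obtain ⟨z₀, hz₀⟩ := hseg t ht
    obtain ⟨u₀, h1, -, h2⟩ := seg_vec hfr hj hje hji hseg ht hz₀
    have h3 := h2 f₀ hf₀ Φ hΦ hΦj
    have h4 : dForm 𝓘(ℝ, F) f₀ z₀ u₀ = 0 := by
      rw [hdf, h1]
      exact map_zero _
    rwa [h4] at h3
  have h1 : Φ (seg (j z).1 (j z).2 p₁ 1) = Φ (seg (j z).1 (j z).2 p₁ 0) := by
    apply constant_of_has_deriv_right_zero
      (fun t ht => (hd t ht).continuousAt.continuousWithinAt)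
      (fun t ht => (hd t (Ico_subset_Icc_self ht)).hasDerivWithinAt)
    exact ⟨zero_le_one, le_rfl⟩
  have h2 : seg (j z).1 (j z).2 p₁ 0 = j z := by
    have h1 : (j z).2 + (0:ℝ) • (p₁ - (j z).2) = (j z).2 := by rw [zero_smul, add_zero]
    exact congrArg (TotalSpace.mk (j z).1) h1
  have h3 : seg (j z).1 (j z).2 p₁ 1 = j z' := by
    have h1 : (j z).2 + (1:ℝ) • (p₁ - (j z).2) = p₁ := by rw [one_smul]; abel
    exact (congrArg (TotalSpace.mk (j z).1) h1).trans hp₁.symm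
  rw [h2, h3, hΦj, hΦj] at h1
  exact h1.symm

/-- The selected function. -/
theorem exists_sel (hfr : Frame (F := F) m e v) (hj : ContMDiff 𝓘(ℝ, F) (IC F) ∞ j)
    (hje : Topology.IsEmbedding j) (hji : ∀ z, Function.Injective (mfderiv 𝓘(ℝ, F) (IC F) j z))
    (hconv : ∀ q, Convex ℝ (fib (range j) q)) (hf₀ : ContMDiff 𝓘(ℝ, F) 𝓘(ℝ, ℝ) ∞ f₀)
    (hex : ∀ (z : L) (u : TangentSpace 𝓘(ℝ, F) z),
      canForm (j z) (mfderiv 𝓘(ℝ, F) (IC F) j z u) = dForm 𝓘(ℝ, F) f₀ z u)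
    (hsurj : Function.Surjective (fun z => (j z).1)) :
    ∃ Sf : N → ℝ, Sel (fun z => (j z).1) f₀ (fun z => (j z).2) Sf := by
  have hg : ContMDiff 𝓘(ℝ, F) 𝓘(ℝ, F) ∞ (fun z => (j z).1) := contMDiff_projC.comp hj
  have hdf : ∀ (z : L) (u : TangentSpace 𝓘(ℝ, F) z), dForm 𝓘(ℝ, F) f₀ z u =
      (j z).2 (mfderiv 𝓘(ℝ, F) 𝓘(ℝ, F) (fun z => (j z).1) z u) := by
    intro z u
    rw [← hex]
    have h4 := DFunLike.congr_fun (mfderiv_comp (I := 𝓘(ℝ, F)) (I' := IC F) (I'' := 𝓘(ℝ, F))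
      z (contMDiff_projC.mdifferentiableAt (by simp) (x := j z))
      (hj.mdifferentiableAt (by simp))) u
    exact congrArg (j z).2 h4.symm
  choose i hi using hsurj
  have hcomp : ∀ z, f₀ (i (j z).1) = f₀ z := fun z =>
    const_of_fib hfr hj hje hji hconv hf₀ hdf (hi (j z).1)
  refine ⟨fun q => f₀ (i q), hg, hf₀, hdf, hcomp, fun q => ⟨i q, hi q⟩, ?_, ?_⟩
  · intro z z' hzz hc
    rcases eq_or_ne z z' with h | h
    · rw [h]; exact hc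
    · exact crit_of_fib hfr hj hje hji hconv hzz h
  · have h1 : Topology.IsQuotientMap (fun z => (j z).1) :=
      hg.continuous.isClosedMap.isQuotientMap hg.continuous (fun q => ⟨i q, hi q⟩)
    rw [h1.continuous_iff]
    have h2 : ((fun q => f₀ (i q)) ∘ fun z => (j z).1) = f₀ := by
      ext1 z
      exact hcomp z
    rw [h2]
    exact hf₀.continuous

/-- **Small standard neighbourhoods.** -/
theorem small_of_convex (hj : ContMDiff 𝓘(ℝ, F) (IC F) ∞ j)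
    (hje : Topology.IsEmbedding j) (hji : ∀ z, Function.Injective (mfderiv 𝓘(ℝ, F) (IC F) j z))
    (hconv : ∀ q, Convex ℝ (fib (range j) q)) (hne : ∀ q, (fib (range j) q).Nonempty)
    (hf₀ : ContMDiff 𝓘(ℝ, F) 𝓘(ℝ, ℝ) ∞ f₀)
    (hex : ∀ (z : L) (u : TangentSpace 𝓘(ℝ, F) z),
      canForm (j z) (mfderiv 𝓘(ℝ, F) (IC F) j z u) = dForm 𝓘(ℝ, F) f₀ z u)
    {U : Set (Cotangent F N)} (hU : IsOpen U) (hjU : range j ⊆ U) :
    ∃ (ψ : Diffeomorph (IC F) (IC F) (Cotangent F N) (Cotangent F N) ∞)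
      (V : Set (Cotangent F N)), CSymp 1 ψ ∧ StarNhd V ∧ range j ⊆ ψ '' V ∧ ψ '' V ⊆ U := by
  obtain ⟨m, e, v, hfr⟩ := exists_frame (F := F) (N := N)
  obtain ⟨n, D, -, hD, -⟩ := exists_embedding_euclidean_of_compact (I := 𝓘(ℝ, F)) (M := N)
  have hsurj : Function.Surjective (fun z => (j z).1) := by
    intro q
    obtain ⟨p, z, hz⟩ := hne q
    refine ⟨z, ?_⟩
    show (j z).1 = q
    rw [hz]
  obtain ⟨Sf, hS⟩ := exists_sel hfr hj hje hji hconv hf₀ hex hsurj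
  obtain ⟨ε, hε, hsmall⟩ := hull_small hfr hj.continuous hD.isInducing hconv hU hjU
  obtain ⟨s, hs, hsH⟩ := hS.global_app hfr hj.continuous hD.continuous hε
  have hcont : Continuous (fun p : ℝ × Cotangent F N => transl s (scal p.1 p.2)) :=
    (contMDiff_transl hs).continuous.comp continuous_scal
  -- the star-shaped set
  set V : Set (Cotangent F N) := {η | ∀ t ∈ Icc (0:ℝ) 1, transl s (scal t η) ∈ U} with hV
  have hVo : IsOpen V := by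
    rw [isOpen_iff_mem_nhds]
    intro η hη
    obtain ⟨a, b, ha, hb, h1, h2, h3⟩ := generalized_tube_lemma
      (isCompact_Icc (a := (0:ℝ)) (b := 1)) (isCompact_singleton (x := η))
      (hU.preimage hcont) (by
        rintro ⟨t, η'⟩ ⟨ht, hη'⟩
        have h : η' = η := hη'
        subst h
        exact hη t ht)
    filter_upwards [hb.mem_nhds (h2 rfl)] with η' hη' t ht
    exact h3 (show (t, η') ∈ a ×ˢ b from ⟨h1 ht, hη'⟩)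
  have hVs : StarNhd V := by
    refine ⟨hVo, ?_, ?_⟩
    · intro q t ht
      rw [scal_zeroC]
      obtain ⟨a, ha, hsa⟩ := hsH q
      obtain ⟨p, hp⟩ := hne q
      have h1 := hsmall q a ha p hp 0 ⟨le_rfl, zero_le_one⟩
      rw [sub_zero, one_smul, zero_smul, add_zero, ← hsa] at h1
      have h2 : transl s (zeroC q : Cotangent F N) = ⟨q, dForm 𝓘(ℝ, F) s q⟩ := by
        have h5 : (0 : TangentSpace 𝓘(ℝ, F) q →L[ℝ] ℝ) + dForm 𝓘(ℝ, F) s q =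
          dForm 𝓘(ℝ, F) s q := zero_add _
        exact congrArg (TotalSpace.mk q) h5
      rw [h2]
      exact h1
    · intro r hr η hη t ht
      rw [scal_scal]
      exact hη (t * r) ⟨mul_nonneg ht.1 hr.1, mul_le_one₀ ht.2 hr.1 hr.2⟩
  refine ⟨translD hs, V, CSymp_transl hs, hVs, ?_, ?_⟩
  · rintro _ ⟨z, rfl⟩
    refine ⟨transl (fun q => - s q) (j z), ?_, transl_transl_neg (j z)⟩
    intro t ht
    obtain ⟨a, ha, hsa⟩ := hsH (j z).1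
    have h1 := hsmall (j z).1 a ha (j z).2 ⟨z, rfl⟩ t ht
    rw [← hsa] at h1
    have h2 : transl s (scal t (transl (fun q => - s q) (j z))) =
        ⟨(j z).1, (1 - t) • dForm 𝓘(ℝ, F) s (j z).1 + t • (j z).2⟩ := by
      have h3 : t • ((j z).2 + dForm 𝓘(ℝ, F) (fun q => - s q) (j z).1) +
          dForm 𝓘(ℝ, F) s (j z).1 =
          (1 - t) • dForm 𝓘(ℝ, F) s (j z).1 + t • (j z).2 := by
        rw [dForm_neg_apply]
        module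
      exact congrArg (TotalSpace.mk (j z).1) h3
    rw [h2]
    exact h1
  · rintro _ ⟨η, hη, rfl⟩
    have h1 := hη 1 ⟨zero_le_one, le_rfl⟩
    rw [scal_one] at h1
    exact h1

/-- **Theorem.** -/
theorem ext_of_convex [Nonempty L] (hj : ContMDiff 𝓘(ℝ, F) (IC F) ∞ j)
    (hje : Topology.IsEmbedding j) (hji : ∀ z, Function.Injective (mfderiv 𝓘(ℝ, F) (IC F) j z))
    (hconv : ∀ q, Convex ℝ (fib (range j) q)) (hne : ∀ q, (fib (range j) q).Nonempty)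
    (hf₀ : ContMDiff 𝓘(ℝ, F) 𝓘(ℝ, ℝ) ∞ f₀)
    (hex : ∀ (z : L) (u : TangentSpace 𝓘(ℝ, F) z),
      canForm (j z) (mfderiv 𝓘(ℝ, F) (IC F) j z u) = dForm 𝓘(ℝ, F) f₀ z u) :
    ∃ Φ : Diffeomorph (IC F) (IC F) (Cotangent F L) (Cotangent F N) ∞, CSymp 1 Φ ∧
      ∀ z, Φ (zeroC z) = j z := by
  obtain ⟨O, w, hw, -⟩ := exists_WChart hj hje hji hf₀ hex isOpen_univ (subset_univ _)
  obtain ⟨ψ, V, hψ, hV, h1, h2⟩ := small_of_convex hj hje hji hconv hne hf₀ hex hw.open_image (by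
    rintro _ ⟨z, rfl⟩
    exact ⟨zeroC z, hw.zero_mem z, hw.zero z⟩)
  exact main hw hV ψ hψ h1 h2

end Pool.Agent.J4H58.Arn
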